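import Pool.Agent.Lib.MP_181146_gt.HK.SpecH

/-!
# Project HK, task CC: the complex `C`
-/

set_option autoImplicit false

namespace HKx

open HEp HPx Polynomial

section

variable {R : Type} [Ring R] {N : ℕ}

private theorem cc_hom_aeval {A B : Type} [Ring A] [Ring B] (ψ : A →+* B) (x : A) (f : ℤ[X]) :
    ψ (aeval x f) = aeval (ψ x) f :=
  (Polynomial.aeval_algHom_apply ψ.toIntAlgHom x f).symm

private lemma cc_nb_map {A B : Type} [Ring A] [Ring B] (ψ : A →+* B) (P Q : ℤ[X]) (a b : A) :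
    ψ (nb P Q a b) = nb P Q (ψ a) (ψ b) := by
  unfold nb
  rw [map_mul, map_sub, map_mul, map_mul, cc_hom_aeval, cc_hom_aeval]
  simp only [map_mul]

private lemma cc_nb_neg (P Q : ℤ[X]) (a b : R) : nb P Q (-a) (-b) = -nb P Q a b := by
  unfold nb
  rw [neg_mul_neg, neg_mul_neg]
  generalize aeval (a * a * (b * b)) P = x
  generalize aeval (a * a * (b * b)) Q = y
  noncomm_ring

/-- Polynomials in a homogeneous element of degree zero. -/
private lemma cc_aeval (hGdM : HPx.S_GdM) (g : Gd R N) (t : R) (ht : g.Hm 0 t) (p : ℤ[X]) :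
    g.Hm 0 (aeval t p) := by
  obtain ⟨h1, h0, hadd, hneg, hmul⟩ := hGdM R N g
  have hmul0 : ∀ u v, g.Hm 0 u → g.Hm 0 v → g.Hm 0 (u * v) := by
    intro u v hu hv
    have := hmul 0 0 v u hv hu
    rwa [add_zero] at this
  let C : Subring R :=
    { carrier := {u | g.Hm 0 u}
      mul_mem' := fun {u v} hu hv => hmul0 u v hu hv
      one_mem' := h1
      add_mem' := fun {u v} hu hv => hadd 0 u v hu hv
      zero_mem' := h0 0
      neg_mem' := fun {u} hu => hneg 0 u hu }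
  have h := cc_hom_aeval C.subtype (⟨t, ht⟩ : C) p
  have h' : C.subtype ((aeval (⟨t, ht⟩ : C)) p) = aeval t p := h
  rw [← h']
  exact ((aeval (⟨t, ht⟩ : C)) p).2

/-- The relations of a homotopy idempotent. -/
private lemma cc_rel (D a b1 k1 l1 : R) (aD : a * D = -(D * a)) (bD : b1 * D = -(D * b1))
    (h1 : a * b1 + b1 * a = 1 + (D * k1 + k1 * D)) (h2 : b1 * b1 = D * l1 + l1 * D) :
    b1 * a - b1 * a * (b1 * a) =
      D * (l1 * a * a + b1 * k1 * a) + (l1 * a * a + b1 * k1 * a) * D := by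
  linear_combination (norm := noncomm_ring) -b1 * h1 * a + h2 * a * a - bD * k1 * a -
    b1 * k1 * aD + l1 * aD * a - l1 * a * aD

private lemma cc_core (hNrm : S_Nrm) (hPol : HPx.S_Pol) (hGdM : HPx.S_GdM) (hGdN : HPx.S_GdN)
    (hGdO : HPx.S_GdO) (hGdP : HPx.S_GdP) (g : Gd R N) (n : ℕ) (hn : Odd n) (D a b k : R)
    (gD : g.Hm (-1) D) (ga : g.Hm n a) (gb : g.Hm (-n) b) (DD : D * D = 0)
    (aD : a * D = -(D * a)) (bD : b * D = -(D * b)) (ab : a * b + b * a = 1 + (D * k + k * D)) :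
    ∃ (P Q : ℤ[X]) (k1 l1 K : R), g.Hm (-n) (nb P Q a b) ∧ g.Hm 1 K ∧
      nb P Q a b * D = -(D * nb P Q a b) ∧
      a * nb P Q a b + nb P Q a b * a = 1 + (D * k1 + k1 * D) ∧
      nb P Q a b * nb P Q a b = D * l1 + l1 * D ∧
      nb P Q a b * a - nb P Q a b * a * (nb P Q a b * a) = D * K + K * D := by
  obtain ⟨m1, m0, madd, mneg, mmul⟩ := hGdM R N g
  obtain ⟨hoo, hob⟩ := hGdO R N g
  obtain ⟨P, Q, r, r', hP, hQ⟩ := hPol N
  have hn0 : (-(n : ℤ)) ≠ 0 := by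
    obtain ⟨j, hj⟩ := hn
    omega
  have hbN : b ^ N = 0 := hGdN R N g (-(n : ℤ)) b hn0 gb
  have hbb : (b * b) ^ N = 0 := by
    rw [← pow_two, ← pow_mul, mul_comm, pow_mul, hbN, zero_pow two_ne_zero]
  have hodz : Odd (n : ℤ) := by exact_mod_cast hn
  have hsg : ∀ (m : ℤ) (u : R), Odd m → g.Hm m u → sgn g * u = -(u * sgn g) := by
    intro m u hm hu
    have h := (hob m u hu).2 hm
    unfold sgn
    linear_combination (norm := noncomm_ring) (-2) * h
  have hss : sgn g * sgn g = 1 := by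
    unfold sgn
    linear_combination (norm := noncomm_ring) 4 * hoo
  obtain ⟨q1, ⟨k', q2⟩, l', q3⟩ := hNrm R D (sgn g) a b k DD hss
    (hsg (-1) D (by decide) gD) aD bD (hsg n a hodz ga)
    (hsg (-n) b hodz.neg gb) ab N hbb P Q r r' hP hQ
  -- degrees
  have haa : g.Hm (n + n) (a * a) := mmul n n a a ga ga
  have hbb' : g.Hm (-n + -n) (b * b) := mmul (-n) (-n) b b gb gb
  have ht : g.Hm 0 (a * a * (b * b)) := by
    have := mmul (-n + -n) (n + n) (b * b) (a * a) hbb' haa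
    rwa [show ((-(n : ℤ) + -n) + (n + n)) = 0 by ring] at this
  have hTP := cc_aeval hGdM g _ ht P
  have hTQ := cc_aeval hGdM g _ ht Q
  have hb1 : g.Hm (-n) (nb P Q a b) := by
    unfold nb
    have e1 : g.Hm (-n + -n) (aeval (a * a * (b * b)) P * (b * b)) := by
      have := mmul (-n + -n) 0 (b * b) _ hbb' hTP
      rwa [add_zero] at this
    have e2 : g.Hm (-n) (aeval (a * a * (b * b)) P * (b * b) * a) := by
      have := mmul n (-n + -n) a _ ga e1
      rwa [show ((n : ℤ) + (-n + -n)) = -n by ring] at this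
    have e3 : g.Hm (-n) (b - aeval (a * a * (b * b)) P * (b * b) * a) := by
      rw [sub_eq_add_neg]
      exact madd _ _ _ gb (mneg _ _ e2)
    have := mmul 0 (-n) _ _ hTQ e3
    rwa [zero_add] at this
  set b1 := nb P Q a b with hb1d
  have hu : g.Hm 0 (a * b1 + b1 * a - 1) := by
    have e1 : g.Hm 0 (a * b1) := by
      have := mmul (-n) n b1 a hb1 ga
      rwa [neg_add_cancel] at this
    have e2 : g.Hm 0 (b1 * a) := by
      have := mmul n (-n) a b1 ga hb1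
      rwa [add_neg_cancel] at this
    rw [sub_eq_add_neg]
    exact madd _ _ _ (madd _ _ _ e1 e2) (mneg _ _ m1)
  obtain ⟨k1, gk1, hk1⟩ := hGdP R N g 0 (a * b1 + b1 * a - 1) D k' 1 hu gD
    (by rw [one_smul, q2]; abel)
  rw [one_smul] at hk1
  have hv : g.Hm (-n + -n) (b1 * b1) := mmul (-n) (-n) b1 b1 hb1 hb1
  obtain ⟨l1, gl1, hl1⟩ := hGdP R N g (-n + -n) (b1 * b1) D l' 1 hv gD
    (by rw [one_smul, q3])
  rw [one_smul] at hl1
  have hk1' : a * b1 + b1 * a = 1 + (D * k1 + k1 * D) := by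
    rw [← hk1]; abel
  refine ⟨P, Q, k1, l1, l1 * a * a + b1 * k1 * a, hb1, ?_, q1, hk1', hl1,
    cc_rel D a b1 k1 l1 aD q1 hk1' hl1⟩
  have e1 : g.Hm 1 (l1 * a * a) := by
    have := mmul n _ a _ ga (mmul n _ a l1 ga gl1)
    rwa [show ((n : ℤ) + (n + (-n + -n + 1))) = 1 by ring] at this
  have e2 : g.Hm 1 (b1 * k1 * a) := by
    have := mmul n _ a _ ga (mmul _ (-n) k1 b1 gk1 hb1)
    rwa [show ((n : ℤ) + (0 + 1 + -n)) = 1 by ring] at this
  exact madd _ _ _ e1 e2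

end

private lemma cc_X0_map {A B : Type} [Ring A] [Ring B] (ψ : A →+* B) (o d p K : A) :
    ψ (X0 o d p K) = X0 (ψ o) (ψ d) (ψ p) (ψ K) := by
  unfold X0
  rw [map_add, map_add, map_add, map_mul, map_sub, map_one, map_mul, map_ofNat]

theorem sCC (hNrm : S_Nrm) (hPair : S_Pair) (hDia : S_Dia) (hIclA : S_IclA) (hIclC : S_IclC)
    (hfRP : S_fRP) (hHInv : S_HInv) (hShf : S_Shf) (hPol : HPx.S_Pol) (hGdM : HPx.S_GdM)
    (hGdN : HPx.S_GdN) (hGdO : HPx.S_GdO) (hGdP : HPx.S_GdP) : S_CC := by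
  intro L _ B _ _ U _ _ _ _ lev N g n hn c
  obtain ⟨hB1, hB2, hB3, hB4⟩ := hDia L (B × Fin 2) (fun x => U x.1) lev N g
  -- the grading of the ring of block triangular endomorphisms
  let gT : Gd (TR L (fun x : B × Fin 2 => U x.1) lev) N :=
    { e := fun m => ⟨(GdPi N g).e m, hB1 _⟩
      mul_self := fun m => Subtype.ext ((GdPi N g).mul_self m)
      mul_ne := fun m m' h => Subtype.ext ((GdPi N g).mul_ne m m' h)
      sum := by
        apply Subtype.ext
        rw [AddSubmonoidClass.coe_finsetSum]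
        exact (GdPi N g).sum }
  have hgT : ∀ (m : ℤ) (u : TR L (fun x : B × Fin 2 => U x.1) lev),
      gT.Hm m u ↔ (GdPi N g).Hm m u.1 := by
    intro m u
    constructor
    · intro h i j hij
      exact congrArg Subtype.val (h i j hij)
    · intro h i j hij
      exact Subtype.ext (h i j hij)
  have hod : gT.od.1 = (GdPi N g).od := by
    unfold Gd.od
    rw [AddSubmonoidClass.coe_finsetSum]
    refine Finset.sum_congr rfl fun i _ => ?_
    split_ifs
    · rfl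
    · rfl
  obtain ⟨P, Q, k1, l1, K, gb1, gK, e1, e2, e3, e4⟩ := cc_core hNrm hPol hGdM hGdN hGdO hGdP gT n hn
    c.D c.a c.b c.k ((hgT _ _).2 c.gD) ((hgT _ _).2 c.ga) ((hgT _ _).2 c.gb) c.DD c.aD c.bD c.ab
  have hdb : ∀ y : B, dgc lev (y, 1) (nb P Q c.a c.b) = -dgc lev (y, 0) (nb P Q c.a c.b) := by
    intro y
    rw [cc_nb_map, cc_nb_map, c.oa y, c.ob y, cc_nb_neg]
  set b1 := nb P Q c.a c.b with hb1
  refine ⟨b1.1, k1.1, l1.1, K.1, (hgT _ _).1 gb1, (hgT _ _).1 gK, congrArg Subtype.val e1,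
    congrArg Subtype.val e2, congrArg Subtype.val e3, congrArg Subtype.val e4, ?_⟩
  intro k hk
  obtain ⟨m1, m0, madd, mneg, mmul⟩ := hGdM _ N gT
  have gp : gT.Hm 0 (b1 * c.a) := by
    have := mmul n (-n) c.a b1 ((hgT _ _).2 c.ga) gb1
    rwa [add_neg_cancel] at this
  have hpD : b1 * c.a * c.D = c.D * (b1 * c.a) := by
    rw [mul_assoc, c.aD, mul_neg, ← mul_assoc, e1, neg_mul, neg_neg, mul_assoc]
  have h0' : b1 * c.a + (c.D * 0 + 0 * c.D) -
      (b1 * c.a + (c.D * 0 + 0 * c.D)) * (b1 * c.a + (c.D * 0 + 0 * c.D)) =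
      c.D * K + K * c.D := by
    rw [mul_zero, zero_mul, add_zero, add_zero]
    exact e4
  have hXX := (hHInv _ N gT c.D ((hgT _ _).2 c.gD) c.DD (b1 * c.a) K 0 K gp hpD gK gK (m0 1)
    e4 h0' k hk).1
  set X := fR k (X0 gT.od c.D (b1 * c.a) K) with hXdef
  have hX1 : X.1 = fR k (X0 (GdPi N g).od c.D.1 (b1.1 * c.a.1) K.1) := by
    rw [hXdef, ← hod]
    have h1 := hfRP.1 _ _ (TR L (fun x : B × Fin 2 => U x.1) lev).subtype k
      (X0 gT.od c.D (b1 * c.a) K)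
    rw [cc_X0_map] at h1
    exact h1
  have hoT : gT.od = ⟨bdg (fun x => (g x).od), hB1 _⟩ := Subtype.ext (hod.trans hB3)
  have hoo : gT.od * gT.od = gT.od := (hGdO _ N gT).1
  have hdo : ∀ x : B × Fin 2, dgc lev x gT.od = (g x).od := by
    intro x
    rw [hoT]
    exact hB2 _ _ x
  have hdX : ∀ x : B × Fin 2, dgc lev x X =
      fR k (X0 (g x).od (dgc lev x c.D) (dgc lev x (b1 * c.a)) (dgc lev x K)) := by
    intro x
    rw [hXdef, hfRP.1 _ _ (dgc lev x) k, cc_X0_map, hdo]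
  have hdXX : ∀ x : B × Fin 2, dgc lev x X * dgc lev x X = dgc lev x X := by
    intro x
    rw [← map_mul, hXX]
  refine ⟨?_, ?_⟩
  · rw [← hX1]
    exact congrArg Subtype.val hXX
  rw [← hX1, ← hod, hIclC L (B × Fin 2) (fun x => U x.1) lev X hXX,
    hIclC L (B × Fin 2) (fun x => U x.1) lev gT.od hoo, Fintype.sum_prod_type,
    Fintype.sum_prod_type]
  refine Finset.sum_congr rfl fun y _ => ?_
  rw [Fin.sum_univ_two, Fin.sum_univ_two]
  obtain ⟨hA1, hA2⟩ := hIclA L (U y)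
  obtain ⟨so, sH⟩ := hShf _ N (g (y, 0)) (g (y, 1)) (c.shift y)
  have t1 : icl (dgc lev (y, 0) gT.od) + icl (dgc lev (y, 1) gT.od) = cl L (U y) := by
    rw [hdo, hdo, so]
    exact hA2 _ (hGdO _ N (g (y, 0))).1
  have t2 : icl (dgc lev (y, 0) X) + icl (dgc lev (y, 1) X) = cl L (U y) := by
    have hpe : dgc lev (y, 1) (b1 * c.a) = dgc lev (y, 0) (b1 * c.a) := by
      rw [map_mul, map_mul, hdb y, c.oa y, neg_mul_neg]
    have r0 : dgc lev (y, 0) (b1 * c.a) - dgc lev (y, 0) (b1 * c.a) * dgc lev (y, 0) (b1 * c.a) =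
        dgc lev (y, 0) c.D * dgc lev (y, 0) K + dgc lev (y, 0) K * dgc lev (y, 0) c.D := by
      rw [← map_mul, ← map_sub, e4, map_add, map_mul, map_mul]
    have r1 : dgc lev (y, 0) (b1 * c.a) - dgc lev (y, 0) (b1 * c.a) * dgc lev (y, 0) (b1 * c.a) =
        -dgc lev (y, 0) c.D * dgc lev (y, 1) K + dgc lev (y, 1) K * -dgc lev (y, 0) c.D := by
      rw [← hpe, ← c.oD y, ← map_mul, ← map_sub, e4, map_add, map_mul, map_mul]
    obtain ⟨i0, u, v, huv, hvu, hu⟩ := hPair _ N (g (y, 0)) (g (y, 1)) (c.shift y)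
      (dgc lev (y, 0) c.D) (hB4 (-1) c.D (y, 0) c.gD)
      (by rw [← map_mul, c.DD, map_zero]) (dgc lev (y, 0) (b1 * c.a)) (dgc lev (y, 0) K)
      (dgc lev (y, 1) K) (hB4 0 (b1 * c.a) (y, 0) ((hgT _ _).1 gp))
      (by rw [← map_mul, ← map_mul, hpD]) (hB4 1 K (y, 0) ((hgT _ _).1 gK))
      (hB4 1 K (y, 1) ((hgT _ _).1 gK)) r0 r1 k hk
    have hx0 := hdX (y, 0)
    have hx1 := hdX (y, 1)
    rw [hpe, c.oD y] at hx1
    have h3 := hA1 (dgc lev (y, 1) X) (1 - dgc lev (y, 0) X) u v (hdXX (y, 1)) huv hvu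
      (by rw [hx1, hx0]; exact hu)
    rw [h3]
    exact hA2 _ (hdXX (y, 0))
  rw [t1, t2]

end HKx
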