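import Pool.Agent.Lib.MP_181146_gt.HK.SpecH

/-!
# Project HK: idempotents congruent modulo `E 1` are conjugate
-/

set_option autoImplicit false

namespace HKx

open HEp HPx

private lemma cj_pow {R : Type} [Ring R] {N : ℕ} (F : Flt R N) (z : R) (hz : z ∈ F.E 1) :
    ∀ n : ℕ, z ^ n ∈ F.E n := by
  intro n
  induction n with
  | zero =>
    rw [pow_zero]
    exact F.one
  | succ n ih =>
    rw [pow_succ]
    exact F.mul n 1 _ _ ih hz

theorem sCj : S_Cj := by
  intro R _ N F x y hx hy hyE hw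
  have h1 : (2 : R) * y - 1 ∈ F.E 0 := by
    rw [two_mul]
    exact (F.E 0).sub_mem ((F.E 0).add_mem hyE hyE) F.one
  have hz : (2 * y - 1) * (x - y) ∈ F.E 1 := by
    have h2 := F.mul 0 1 _ _ h1 hw
    rwa [zero_add] at h2
  have hn : ((2 * y - 1) * (x - y)) ^ N = 0 := F.top _ (cj_pow F _ hz N)
  have hu : IsUnit (1 + (2 * y - 1) * (x - y)) := IsNilpotent.isUnit_one_add ⟨N, hn⟩
  obtain ⟨u, hu⟩ := hu
  refine ⟨(u : R), ((u⁻¹ : Rˣ) : R), u.mul_inv, u.inv_mul, ?_⟩
  rw [hu]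
  have e1 : (1 + (2 * y - 1) * (x - y)) * x =
      x + 2 * (y * (x * x)) - 2 * (y * y * x) - x * x + y * x := by
    noncomm_ring
  have e2 : y * (1 + (2 * y - 1) * (x - y)) =
      y + 2 * (y * y * x) - 2 * (y * y * y) - y * x + y * y := by
    noncomm_ring
  rw [e1, e2, hx, hy, hy]
  noncomm_ring

end HKx
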