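import Pool.Agent.Lib.MP_181146_gt.HK.SpecH

/-!
# Project HK: two normalized partners (S_Cmp)
-/

set_option autoImplicit false

namespace HKx

open HEp HPx

section

variable {R : Type} [Ring R]

/-- a partner of `α` commutes with `α * α` -/
private lemma cmpA {e α b : R} (heα : e * α = α) (hαe : α * e = α) (h : α * b + b * α = e) :
    Commute (α * α) b := by
  have h1 : α * b = e - b * α := eq_sub_of_add_eq h
  have h2 : α * α * b = b * (α * α) := by
    calc α * α * b = α * (α * b) := mul_assoc _ _ _
      _ = α * e - α * b * α := by rw [h1, mul_sub, sub_mul, ← mul_assoc, h1, sub_mul]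
      _ = α - (e - b * α) * α := by rw [hαe, h1]
      _ = b * (α * α) := by rw [sub_mul, heα, sub_sub_cancel, mul_assoc]
  exact h2

/-- the square of the difference of two partners commutes with them -/
private lemma cmpB {b c : R} (hb : b * b = 0) (hc : c * c = 0) :
    Commute ((c - b) * (c - b)) b := by
  have h1 : (c - b) * (c - b) = c * c + b * b - (b * c + c * b) := by noncomm_ring
  rw [h1, hb, hc]
  have h2 : (0 + 0 - (b * c + c * b)) * b = -(b * c * b) - c * (b * b) := by noncomm_ring
  have h3 : b * (0 + 0 - (b * c + c * b)) = -(b * c * b) - b * b * c := by noncomm_ring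
  rw [Commute, SemiconjBy, h2, h3, hb, mul_zero, zero_mul]

/-- `p p' p = (1 + w) p` -/
private lemma cmpC {e α b c : R} (heα : e * α = α) (hαe : α * e = α) (hbe : b * e = b)
    (hb : α * b + b * α = e) (hc : α * c + c * α = e) (hbb : b * b = 0) (hcc : c * c = 0) :
    b * α * (c * α) * (b * α) = (1 + (c - b) * (c - b) * (α * α)) * (b * α) := by
  have cb := (cmpA heα hαe hb).eq
  have h1 : α * b = e - b * α := eq_sub_of_add_eq hb
  have h2 : α * c = e - c * α := eq_sub_of_add_eq hc
  have hp : b * α * (b * α) = b * α := by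
    calc b * α * (b * α) = b * (α * b) * α := by noncomm_ring
      _ = b * e * α - b * b * (α * α) := by rw [h1]; noncomm_ring
      _ = b * α := by rw [hbe, hbb, zero_mul, sub_zero]
  -- difference
  have h3 : b * α * (c * α) * (b * α) = b * (α * c) * (α * b) * α := by noncomm_ring
  have h4 : b * (α * c) * (α * b) * α = b * e * (α * b) * α - b * (c * (α * α * b)) * α := by
    rw [h2]
    noncomm_ring
  have h5 : (c - b) * (c - b) = c * c + b * b - (b * c + c * b) := by noncomm_ring
  have h6 : (1 + (c - b) * (c - b) * (α * α)) * (b * α) =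
      b * α + (c - b) * (c - b) * (α * α * b) * α := by noncomm_ring
  have h7 : b * (α * b) * α = b * α := by
    rw [← hp]
    noncomm_ring
  rw [h3, h4, h6, cb, hbe, h7, h5, hbb, hcc]
  have h8 : b * α + (0 + 0 - (b * c + c * b)) * (b * (α * α)) * α =
      b * α - b * (c * (b * (α * α))) * α - c * (b * b) * (α * α) * α := by noncomm_ring
  rw [h8, hbb]
  noncomm_ring

end

theorem sCmp : S_Cmp := by
  intro R _ e α b1 J β he heα hαe heb hbe heJ hJe hβe heβ h1 h1' h2 h2' hr M hM
  have cA1 : Commute (α * α) b1 := cmpA heα hαe h1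
  have cA2 : Commute (α * α) (J * β) := cmpA heα hαe h2
  have hb2e : J * β * e = J * β := by rw [mul_assoc, hβe]
  have hC1 := cmpC heα hαe hbe h1 h2 h1' h2'
  have hC2 := cmpC heα hαe hb2e h2 h1 h2' h1'
  have cD1 : Commute ((J * β - b1) * (J * β - b1)) b1 := cmpB h1' h2'
  have hneg : (b1 - J * β) * (b1 - J * β) = (J * β - b1) * (J * β - b1) := by noncomm_ring
  have cD2 : Commute ((J * β - b1) * (J * β - b1)) (J * β) := by
    rw [← hneg]
    exact cmpB h2' h1'
  have cDα : Commute ((J * β - b1) * (J * β - b1)) α := by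
    have h3 : (J * β - b1) * α + α * (J * β - b1) = 0 := by
      have h4 : (J * β - b1) * α + α * (J * β - b1) =
          (α * (J * β) + J * β * α) - (α * b1 + b1 * α) := by noncomm_ring
      rw [h4, h1, h2, sub_self]
    have h5 : (J * β - b1) * (J * β - b1) * α - α * ((J * β - b1) * (J * β - b1)) =
        (J * β - b1) * ((J * β - b1) * α + α * (J * β - b1)) -
          ((J * β - b1) * α + α * (J * β - b1)) * (J * β - b1) := by noncomm_ring
    rw [h3, mul_zero, zero_mul, sub_zero] at h5
    exact sub_eq_zero.1 h5
  rw [hneg] at hC2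
  generalize hDe : (J * β - b1) * (J * β - b1) = D at *
  have cAα : Commute (α * α) α := (Commute.refl α).mul_left (Commute.refl α)
  have cDA : Commute D (α * α) := cDα.mul_right cDα
  have cw1 : Commute (D * (α * α)) b1 := cD1.mul_left cA1
  have cw2 : Commute (D * (α * α)) (J * β) := cD2.mul_left cA2
  have cwα : Commute (D * (α * α)) α := cDα.mul_left cAα
  have hwM : (D * (α * α)) ^ M = 0 := by rw [cDA.mul_pow, hM, zero_mul]
  generalize hwe : D * (α * α) = w at *
  generalize hve : (∑ i ∈ Finset.range M, (-w) ^ i) = v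
  have hvu : v * (1 + w) = 1 := by
    have h3 := geom_sum_mul_neg (-w) M
    rw [hve, sub_neg_eq_add, neg_pow, hwM, mul_zero, sub_zero] at h3
    exact h3
  have cv : ∀ x : R, Commute w x → Commute v x := by
    intro x hx
    rw [← hve]
    exact Commute.sum_left _ _ _ fun i _ => (hx.neg_left).pow_left i
  have cvp1 : Commute v (b1 * α) := (cv _ cw1).mul_right (cv _ cwα)
  have cvp2 : Commute v (J * β * α) := (cv _ cw2).mul_right (cv _ cwα)
  have hp : b1 * α * (b1 * α) = b1 * α := by
    calc b1 * α * (b1 * α) = b1 * (α * b1 + b1 * α) * α - b1 * b1 * (α * α) := by noncomm_ring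
      _ = b1 * α := by rw [h1, hbe, h1', zero_mul, sub_zero]
  have hJr : J * (1 - e) = J := by rw [mul_sub, mul_one, hJe, sub_zero]
  have hrr : (1 - e) * (β * α) = β * α := by
    rw [← mul_assoc, sub_mul, one_mul, heβ, sub_zero]
  constructor
  · calc β * α * (b1 * α) * (v * (b1 * α) * J)
        = β * α * ((b1 * α) * v) * (b1 * α) * J := by noncomm_ring
      _ = β * α * v * (b1 * α * (b1 * α)) * J := by rw [← cvp1.eq]; noncomm_ring
      _ = β * α * v * (b1 * α) * J := by rw [hp]
      _ = ((1 - e) * (β * α)) * v * (b1 * α) * (J * (1 - e)) := by rw [hrr, hJr]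
      _ = (β * α * J * (β * α)) * v * (b1 * α) * (J * (β * α * J)) := by rw [hr]
      _ = β * α * ((J * β * α) * v) * (b1 * α) * (J * β * α) * J := by noncomm_ring
      _ = β * α * v * (J * β * α * (b1 * α) * (J * β * α)) * J := by
          rw [← cvp2.eq]
          noncomm_ring
      _ = β * α * (v * (1 + w)) * (J * β * α) * J := by
          rw [hC2]
          noncomm_ring
      _ = (β * α * J) * (β * α * J) := by
          rw [hvu]
          noncomm_ring
      _ = 1 - e := by
          rw [hr]
          have h3 : (1 - e) * (1 - e) = 1 - e - e + e * e := by noncomm_ring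
          rw [h3, he]
          noncomm_ring
  · calc v * (b1 * α) * J * (β * α * (b1 * α))
        = v * (b1 * α * (J * β * α) * (b1 * α)) := by noncomm_ring
      _ = v * (1 + w) * (b1 * α) := by rw [hC1, mul_assoc]
      _ = b1 * α := by rw [hvu, one_mul]

end HKx
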