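import Pool.Agent.Lib.MP_181146_gt.HK.SpecH

/-!
# Project HK: the homotopy retraction (S_CmpG)
-/

set_option autoImplicit false

namespace HKx

open HEp HPx

section

variable {R : Type} [Ring R]

/-- homotopy classes -/
private def con (d : R) : RingCon (Subring.centralizer ({d} : Set R)) where
  r x y := ∃ h : R, (x : R) - y = d * h + h * d
  iseqv := by
    refine ⟨fun x => ⟨0, by simp⟩, ?_, ?_⟩
    · rintro x y ⟨h, hh⟩
      refine ⟨-h, ?_⟩
      rw [← neg_sub, hh]
      noncomm_ring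
    · rintro x y z ⟨h, hh⟩ ⟨g, hg⟩
      refine ⟨h + g, ?_⟩
      rw [← sub_add_sub_cancel (x : R) y z, hh, hg]
      noncomm_ring
  add' := by
    rintro x y z w ⟨h, hh⟩ ⟨g, hg⟩
    refine ⟨h + g, ?_⟩
    have h1 : ((x + z : Subring.centralizer ({d} : Set R)) : R) -
        ((y + w : Subring.centralizer ({d} : Set R)) : R) = ((x : R) - y) + ((z : R) - w) := by
      push_cast
      abel
    rw [h1, hh, hg]
    noncomm_ring
  mul' := by
    rintro x y z w ⟨h, hh⟩ ⟨g, hg⟩
    have hx : d * (x : R) = x * d := Subring.mem_centralizer_iff.1 x.2 d rfl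
    have hw : d * (w : R) = w * d := Subring.mem_centralizer_iff.1 w.2 d rfl
    refine ⟨(x : R) * g + h * w, ?_⟩
    have h1 : ((x * z : Subring.centralizer ({d} : Set R)) : R) -
        ((y * w : Subring.centralizer ({d} : Set R)) : R) =
        (x : R) * ((z : R) - w) + ((x : R) - y) * w := by
      push_cast
      noncomm_ring
    rw [h1, hh, hg, mul_add, add_mul, mul_add, add_mul]
    have h2 : (x : R) * (d * g) = d * (x * g) := by rw [← mul_assoc, ← hx, mul_assoc]
    have h3 : h * d * (w : R) = h * w * d := by rw [mul_assoc, hw, mul_assoc]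
    rw [h2, h3]
    noncomm_ring

/-- The relations in the quotient. -/
private theorem core (hCmp : S_Cmp) {Ω : Type} [Ring Ω] (e α b b1 P ρ J io : Ω) (he : e * e = e)
    (heα : e * α = α) (hαe : α * e = α) (hbe : b * e = b) (heb1 : e * b1 = b1) (hb1e : b1 * e = b1)
    (heρ : e * ρ = 0) (heJ : e * J = J) (hρe : ρ * e = ρ)
    (hJe : J * e = 0) (hab : α * b + b * α = e) (hab1 : α * b1 + b1 * α = e) (hb1b1 : b1 * b1 = 0)
    (hρJ : ρ * J = 1 - e) (hJρ : J * ρ = e + io * (ρ * b)) (hβio : ρ * b * io = -(1 - e))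
    (hρa : ρ * α = P * ρ) (hJa : J * P = α * J + io) (M : ℕ)
    (hM : ((J * (ρ * b) - b1) * (J * (ρ * b) - b1)) ^ M = 0) :
    (ρ * b) * α * (b1 * α) *
        ((∑ i ∈ Finset.range M,
          (-((J * (ρ * b) - b1) * (J * (ρ * b) - b1) * (α * α))) ^ i) * (b1 * α) * J) =
      1 - e ∧
    ((∑ i ∈ Finset.range M,
          (-((J * (ρ * b) - b1) * (J * (ρ * b) - b1) * (α * α))) ^ i) * (b1 * α) * J) *
      ((ρ * b) * α * (b1 * α)) = b1 * α := by
  set β : Ω := ρ * b with hβ
  have hβe : β * e = β := by rw [hβ, mul_assoc, hbe]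
  have heβ : e * β = 0 := by rw [hβ, ← mul_assoc, heρ, zero_mul]
  have h1 : β * J * ρ = 0 := by
    have e1 : β * J * ρ = β * (J * ρ) := mul_assoc _ _ _
    rw [e1, hJρ, mul_add, hβe, ← mul_assoc, hβio, neg_mul, sub_mul, one_mul, heβ, sub_zero,
      add_neg_cancel]
  have h2 : β * J = 0 := by
    have e1 : β * J * ρ * J = β * J - β * (J * e) := by
      rw [mul_assoc, hρJ]
      noncomm_ring
    rw [h1, zero_mul, hJe, mul_zero, sub_zero] at e1
    exact e1.symm
  have h3 : β * α = ρ - P * β := by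
    have e1 : b * α = e - α * b := eq_sub_of_add_eq' hab
    rw [hβ, mul_assoc, e1, mul_sub, hρe, ← mul_assoc, hρa, mul_assoc]
  have h4 : α * (J * β) + J * β * α = e := by
    have e1 : α * J = J * P - io := eq_sub_of_add_eq hJa.symm
    have e2 : α * (J * β) + J * β * α = (α * J) * β + J * (β * α) := by noncomm_ring
    rw [e2, e1, h3]
    have e3 : (J * P - io) * β + J * (ρ - P * β) = J * ρ - io * β := by noncomm_ring
    rw [e3, hJρ, add_sub_cancel_right]
  have h5 : J * β * (J * β) = 0 := by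
    have e1 : J * β * (J * β) = J * (β * J) * β := by noncomm_ring
    rw [e1, h2, mul_zero, zero_mul]
  have h6 : β * α * J = 1 - e := by
    rw [h3, sub_mul, hρJ, mul_assoc, h2, mul_zero, sub_zero]
  exact hCmp Ω e α b1 J β he heα hαe heb1 hb1e heJ hJe hβe heβ hab1 hb1b1 h4 h5 h6 M hM

/-- `s` and odd elements -/
private lemma oo {s : R} (hss : s * s = 1) (x : R) {y : R} (hy : s * y = -(y * s)) :
    x * s * (y * s) = -(x * y) := by
  have e : x * s * (y * s) = x * (s * y) * s := by noncomm_ring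
  rw [e, hy]
  have e1 : x * -(y * s) * s = -(x * y * (s * s)) := by noncomm_ring
  rw [e1, hss, mul_one]

/-- `e` fixes the geometric sum -/
private lemma geo {e x y : R} (hx : e * x = x) (hy : e * y = y) (M : ℕ) :
    e * ((∑ i ∈ Finset.range M, x ^ i) * y) = (∑ i ∈ Finset.range M, x ^ i) * y := by
  rw [Finset.sum_mul, Finset.mul_sum]
  refine Finset.sum_congr rfl fun i _ => ?_
  cases i with
  | zero => rw [pow_zero, one_mul, hy]
  | succ i => rw [pow_succ', mul_assoc, ← mul_assoc e, hx]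

end

/-- The homogeneous elements of degree `m`. -/
private def hsg (hGdM : S_GdM) {R : Type} [Ring R] {N : ℕ} (g : Gd R N) (m : ℤ) :
    AddSubgroup R where
  carrier := {u | g.Hm m u}
  zero_mem' := (hGdM R N g).2.1 m
  add_mem' h h' := (hGdM R N g).2.2.1 m _ _ h h'
  neg_mem' h := (hGdM R N g).2.2.2.1 m _ h

/-- Geometric sums of homogeneous elements of degree `0`. -/
private theorem hgeo (hGdM : S_GdM) {R : Type} [Ring R] {N : ℕ} (g : Gd R N) (x : R)
    (hx : g.Hm 0 x) (M : ℕ) : g.Hm 0 (∑ i ∈ Finset.range M, x ^ i) := by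
  have hpow : ∀ n : ℕ, g.Hm 0 (x ^ n) := by
    intro n
    induction n with
    | zero => rw [pow_zero]; exact (hGdM R N g).1
    | succ n ih =>
      rw [pow_succ']
      have := (hGdM R N g).2.2.2.2 0 0 _ _ ih hx
      rwa [add_zero] at this
  exact AddSubgroup.sum_mem (hsg hGdM g 0) fun i _ => hpow i

/-- The parity projection is homogeneous of degree `0`. -/
private theorem hod {R : Type} [Ring R] {N : ℕ} (g : Gd R N) : g.Hm 0 g.od := by
  intro i j hij
  unfold Gd.od
  rw [Finset.mul_sum, Finset.sum_mul]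
  refine Finset.sum_eq_zero fun l _ => ?_
  split_ifs with h
  · by_cases hl : j = l
    · subst hl
      have hji : j ≠ i := by
        rintro rfl
        exact hij (by rw [add_zero])
      rw [g.mul_self, g.mul_ne j i hji]
    · rw [g.mul_ne j l hl, zero_mul]
  · rw [mul_zero, zero_mul]

theorem sCmpG (hCmp : S_Cmp) (hGdM : HPx.S_GdM) (hGdN : HPx.S_GdN) (hGdO : HPx.S_GdO)
    (hGdP : HPx.S_GdP) : S_CmpG := by
  intro R _ N g n hn d hd hdd e a b b1 aP ρ J io he hge hed hga hgb hgb1 hgaP hgρ hgJ hgio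
    hea hae heb hbe heb1 hb1e heaP haPe heρ hρe heJ hJe heio hioe had hbd hb1d haPd hρd hJd hiod
    k k1 l h1 h2 h3 h4 h5 hab hab1 hb1b1 hρJ hJρ hβio hρa hJa
  obtain ⟨g1, g0, gadd, gneg, gmul⟩ := hGdM R N g
  obtain ⟨hoo, hpar⟩ := hGdO R N g
  have hnZ : Odd (n : ℤ) := by exact_mod_cast hn
  set s : R := sgn g with hs
  have hsd : s = 1 - 2 * g.od := rfl
  have hss : s * s = 1 := by
    have e : s * s = 1 - 4 * g.od + 4 * (g.od * g.od) := by rw [hsd]; noncomm_ring
    rw [e, hoo]
    noncomm_ring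
  have anti : ∀ (m : ℤ) (x : R), Odd m → g.Hm m x → s * x = -(x * s) := by
    intro m x hm hx
    have h := (hpar m x hx).2 hm
    have e : s * x = x - 2 * (g.od * x) := by rw [hsd]; noncomm_ring
    rw [e, h, hsd]
    noncomm_ring
  have comm : ∀ (x : R), g.Hm 0 x → s * x = x * s := by
    intro x hx
    have h := (hpar 0 x hx).1 (by decide)
    have e : s * x = x - 2 * (g.od * x) := by rw [hsd]; noncomm_ring
    rw [e, h, hsd]
    noncomm_ring
  have gs : g.Hm 0 s := by
    rw [hsd, sub_eq_add_neg, two_mul]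
    exact gadd 0 _ _ g1 (gneg 0 _ (gadd 0 _ _ (hod g) (hod g)))
  have sd := anti (-1) d (by decide) hd
  have sa := anti n a hnZ hga
  have sb := anti (-n) b hnZ.neg hgb
  have sb1 := anti (-n) b1 hnZ.neg hgb1
  have saP := anti n aP hnZ hgaP
  have sio := anti n io hnZ hgio
  have se := comm e hge
  have sρ := comm ρ hgρ
  have sJ := comm J hgJ
  have gms : ∀ (m : ℤ) (x : R), g.Hm m x → g.Hm m (x * s) := by
    intro m x hx
    have := gmul _ _ _ _ gs hx
    rwa [zero_add] at this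
  -- the centralizer
  set C : Subring R := Subring.centralizer ({d} : Set R) with hC
  have hmem : ∀ x : R, x ∈ C ↔ d * x = x * d := by
    intro x
    rw [hC, Subring.mem_centralizer_iff]
    constructor
    · intro h
      exact h d rfl
    · intro h g hg
      rw [Set.mem_singleton_iff.1 hg]
      exact h
  have hodC : ∀ x : R, x * d = -(d * x) → x * s ∈ C := by
    intro x hx
    rw [hmem]
    have e1 : x * s * d = x * (s * d) := mul_assoc _ _ _
    rw [e1, sd]
    have e2 : x * -(d * s) = -(x * d * s) := by noncomm_ring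
    rw [e2, hx]
    noncomm_ring
  set φ : C →+* (con d).Quotient := (con d).mk' with hφ
  have hrel : ∀ x y : C, φ x = φ y ↔ ∃ h : R, (x : R) - y = d * h + h * d := by
    intro x y
    exact (con d).eq
  set eC : C := ⟨e, (hmem e).2 hed.symm⟩ with heC
  set αC : C := ⟨a * s, hodC a had⟩ with hαC
  set bC : C := -⟨b * s, hodC b hbd⟩ with hbC
  set b1C : C := -⟨b1 * s, hodC b1 hb1d⟩ with hb1C
  set PC : C := ⟨aP * s, hodC aP haPd⟩ with hPC
  set ρC : C := ⟨ρ, (hmem ρ).2 hρd.symm⟩ with hρC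
  set JC : C := ⟨J, (hmem J).2 hJd.symm⟩ with hJC
  set ioC : C := ⟨io * s, hodC io hiod⟩ with hioC
  have ve : (eC : R) = e := rfl
  have vα : (αC : R) = a * s := rfl
  have vb : (bC : R) = -(b * s) := rfl
  have vb1 : (b1C : R) = -(b1 * s) := rfl
  have vP : (PC : R) = aP * s := rfl
  have vρ : (ρC : R) = ρ := rfl
  have vJ : (JC : R) = J := rfl
  have vio : (ioC : R) = io * s := rfl
  -- strict relations
  have c1 : eC * eC = eC := Subtype.ext he
  have c2 : eC * αC = αC := Subtype.ext (by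
    change e * (a * s) = a * s
    rw [← mul_assoc, hea])
  have c3 : αC * eC = αC := Subtype.ext (by
    change a * s * e = a * s
    rw [mul_assoc, se, ← mul_assoc, hae])
  have c4 : bC * eC = bC := Subtype.ext (by
    change -(b * s) * e = -(b * s)
    rw [neg_mul, mul_assoc, se, ← mul_assoc, hbe])
  have c5 : eC * b1C = b1C := Subtype.ext (by
    change e * -(b1 * s) = -(b1 * s)
    rw [mul_neg, ← mul_assoc, heb1])
  have c6 : b1C * eC = b1C := Subtype.ext (by
    change -(b1 * s) * e = -(b1 * s)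
    rw [neg_mul, mul_assoc, se, ← mul_assoc, hb1e])
  have c7 : eC * ρC = 0 := Subtype.ext heρ
  have c8 : eC * JC = JC := Subtype.ext heJ
  have c9 : ρC * eC = ρC := Subtype.ext hρe
  have c10 : JC * eC = 0 := Subtype.ext hJe
  -- relations up to homotopy
  have d1 : φ (αC * bC + bC * αC) = φ eC := by
    rw [hrel]
    refine ⟨k, ?_⟩
    push_cast
    rw [ve, vα, vb, mul_neg, neg_mul, oo hss a sb, oo hss b sa, neg_neg, neg_neg, hab,
      add_sub_cancel_left]
  have d2 : φ (αC * b1C + b1C * αC) = φ eC := by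
    rw [hrel]
    refine ⟨k1, ?_⟩
    push_cast
    rw [ve, vα, vb1, mul_neg, neg_mul, oo hss a sb1, oo hss b1 sa, neg_neg, neg_neg, hab1,
      add_sub_cancel_left]
  have d3 : φ (b1C * b1C) = φ 0 := by
    rw [hrel]
    refine ⟨-l, ?_⟩
    push_cast
    rw [vb1, neg_mul_neg, oo hss b1 sb1, hb1b1]
    noncomm_ring
  have d4 : φ (ρC * JC) = φ (1 - eC) := by
    rw [hrel]
    refine ⟨h1, ?_⟩
    push_cast
    rw [ve, vρ, vJ, hρJ, add_sub_cancel_left]
  have v1 : ((ioC * (ρC * bC) : C) : R) = io * (ρ * b) := by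
    push_cast
    rw [vio, vρ, vb]
    have e1 : io * s * (ρ * -(b * s)) = -(io * (s * ρ) * (b * s)) := by noncomm_ring
    rw [e1, sρ, ← mul_assoc io, oo hss (io * ρ) sb, neg_neg, mul_assoc]
  have d5 : φ (JC * ρC) = φ (eC + ioC * (ρC * bC)) := by
    rw [hrel]
    refine ⟨h2, ?_⟩
    rw [Subring.coe_add, v1, Subring.coe_mul, ve, vρ, vJ, hJρ, add_sub_cancel_left]
  have d6 : φ (ρC * bC * ioC) = φ (-(1 - eC)) := by
    rw [hrel]
    refine ⟨h3, ?_⟩
    push_cast
    rw [ve, vρ, vb, vio]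
    have e1 : ρ * -(b * s) * (io * s) = -(ρ * (b * s * (io * s))) := by noncomm_ring
    rw [e1, oo hss b sio]
    have e2 : -(ρ * -(b * io)) = ρ * b * io := by noncomm_ring
    rw [e2, hβio, add_sub_cancel_left]
  have dsw : ∀ h : R, (d * h - h * d) * s = d * (h * s) + h * s * d := by
    intro h
    have e1 : (d * h - h * d) * s = d * (h * s) - h * (d * s) := by noncomm_ring
    have e2 : d * s = -(s * d) := by rw [sd, neg_neg]
    rw [e1, e2]
    noncomm_ring
  have d7 : φ (ρC * αC) = φ (PC * ρC) := by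
    rw [hrel]
    refine ⟨h4 * s, ?_⟩
    push_cast
    rw [vρ, vα, vP, ← mul_assoc, hρa, ← dsw h4]
    have e1 : aP * s * ρ = aP * (s * ρ) := mul_assoc _ _ _
    rw [e1, sρ]
    noncomm_ring
  have d8 : φ (JC * PC) = φ (αC * JC + ioC) := by
    rw [hrel]
    refine ⟨h5 * s, ?_⟩
    push_cast
    rw [vJ, vP, vα, vio, ← mul_assoc, hJa, ← dsw h5]
    have e1 : a * s * J = a * (s * J) := mul_assoc _ _ _
    rw [e1, sJ]
    noncomm_ring
  -- nilpotence
  have gδ : g.Hm (-n) (J * (ρ * -(b * s)) - -(b1 * s)) := by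
    have e1 : J * (ρ * -(b * s)) - -(b1 * s) = -(J * (ρ * (b * s))) + b1 * s := by noncomm_ring
    have e2 := gmul _ _ _ _ (gmul _ _ _ _ (gms _ _ hgb) hgρ) hgJ
    rw [add_zero, add_zero] at e2
    rw [e1]
    exact gadd _ _ _ (gneg _ _ e2) (gms _ _ hgb1)
  have n0 : (n : ℤ) ≠ 0 := by
    rintro h
    rw [h] at hnZ
    exact absurd hnZ (by decide)
  have nil : ((JC * (ρC * bC) - b1C) * (JC * (ρC * bC) - b1C)) ^ N = 0 := by
    apply Subtype.ext
    push_cast
    rw [vJ, vρ, vb, vb1]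
    exact hGdN R N g _ _ (by omega) (gmul _ _ _ _ gδ gδ)
  -- the core
  have hcore := core hCmp (φ eC) (φ αC) (φ bC) (φ b1C) (φ PC) (φ ρC) (φ JC) (φ ioC)
    (by rw [← map_mul, c1]) (by rw [← map_mul, c2]) (by rw [← map_mul, c3])
    (by rw [← map_mul, c4]) (by rw [← map_mul, c5]) (by rw [← map_mul, c6])
    (by rw [← map_mul, c7, map_zero]) (by rw [← map_mul, c8]) (by rw [← map_mul, c9])
    (by rw [← map_mul, c10, map_zero])
    (by rw [← map_mul, ← map_mul, ← map_add, d1]) (by rw [← map_mul, ← map_mul, ← map_add, d2])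
    (by rw [← map_mul, d3, map_zero]) (by rw [← map_mul, d4, map_sub, map_one])
    (by rw [← map_mul, d5, map_add, map_mul, map_mul])
    (by rw [← map_mul, ← map_mul, d6, map_neg, map_sub, map_one])
    (by rw [← map_mul, d7, map_mul]) (by rw [← map_mul, d8, map_add, map_mul]) N
    (by
      rw [← map_mul, ← map_mul, ← map_sub, ← map_mul, ← map_pow, nil, map_zero])
  set rC : C := (ρC * bC) * αC * (b1C * αC) with hrC
  set jC : C := (∑ i ∈ Finset.range N,
    (-((JC * (ρC * bC) - b1C) * (JC * (ρC * bC) - b1C) * (αC * αC))) ^ i) * (b1C * αC) * JC with hjC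
  have k1 : φ (rC * jC) = φ (1 - eC) := by
    rw [map_sub, map_one, ← hcore.1, hrC, hjC]
    simp only [map_mul, map_sub, map_sum, map_pow, map_neg]
  have k2 : φ (jC * rC) = φ (b1C * αC) := by
    rw [map_mul φ b1C αC, ← hcore.2, hrC, hjC]
    simp only [map_mul, map_sub, map_sum, map_pow, map_neg]
  obtain ⟨h, hh⟩ := (hrel _ _).1 k1
  obtain ⟨t, ht⟩ := (hrel _ _).1 k2
  -- the representatives
  have vr : (rC : R) = ρ * -(b * s) * (a * s) * (-(b1 * s) * (a * s)) := rfl
  have vj : (jC : R) = (∑ i ∈ Finset.range N,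
      (-((J * (ρ * -(b * s)) - -(b1 * s)) * (J * (ρ * -(b * s)) - -(b1 * s)) *
        (a * s * (a * s)))) ^ i) * (-(b1 * s) * (a * s)) * J := by
    rw [hjC]
    push_cast
    rfl
  have gas : g.Hm n (a * s) := gms _ _ hga
  have gbs : g.Hm (-n) (-(b * s)) := gneg _ _ (gms _ _ hgb)
  have gb1s : g.Hm (-n) (-(b1 * s)) := gneg _ _ (gms _ _ hgb1)
  have gba : g.Hm 0 (-(b1 * s) * (a * s)) := by
    have := gmul _ _ _ _ gas gb1s
    rwa [show ((n : ℤ) + -n) = 0 by ring] at this
  refine ⟨rC, jC, h, t, ?_, ?_, ?_, ?_, ?_, ?_, ?_, ?_, ?_, ?_⟩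
  · rw [vr]
    have e1 := gmul _ _ _ _ gbs hgρ
    have e2 := gmul _ _ _ _ gas e1
    have e3 := gmul _ _ _ _ gba e2
    rwa [show ((0 : ℤ) + (n + (-n + 0))) = 0 by ring] at e3
  · rw [vj]
    have e1 := gmul _ _ _ _ gδ gδ
    have e2 := gmul _ _ _ _ (gmul _ _ _ _ gas gas) e1
    rw [show (((n : ℤ) + n) + (-n + -n)) = 0 by ring] at e2
    have e3 := hgeo hGdM g _ (gneg _ _ e2) N
    have e4 := gmul _ _ _ _ gba e3
    have e5 := gmul _ _ _ _ hgJ e4
    rwa [show ((0 : ℤ) + (0 + 0)) = 0 by ring] at e5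
  · exact ((hmem _).1 rC.2).symm
  · exact ((hmem _).1 jC.2).symm
  · have e1 : eC * rC = 0 := by
      rw [hrC]
      have e2 : eC * (ρC * bC * αC * (b1C * αC)) = eC * ρC * (bC * αC * (b1C * αC)) := by
        simp only [mul_assoc]
      rw [e2, c7, zero_mul]
    exact congrArg Subtype.val e1
  · have e1 : rC * eC = rC := by
      rw [hrC]
      have e2 : ρC * bC * αC * (b1C * αC) * eC = ρC * bC * αC * (b1C * (αC * eC)) := by
        simp only [mul_assoc]
      rw [e2, c3]
    exact congrArg Subtype.val e1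
  · have e0 : eC * (JC * (ρC * bC) - b1C) = JC * (ρC * bC) - b1C := by
      rw [mul_sub, c5, ← mul_assoc, c8]
    have e1 : eC * jC = jC := by
      rw [hjC, ← mul_assoc, geo (e := eC) (y := b1C * αC) ?_ ?_ N]
      · have e3 : eC * -((JC * (ρC * bC) - b1C) * (JC * (ρC * bC) - b1C) * (αC * αC)) =
            -(eC * (JC * (ρC * bC) - b1C) * (JC * (ρC * bC) - b1C) * (αC * αC)) := by
          simp only [mul_assoc, mul_neg]
        rw [e3, e0]
      · rw [← mul_assoc, c5]
    exact congrArg Subtype.val e1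
  · have e1 : jC * eC = 0 := by
      rw [hjC, mul_assoc, c10, mul_zero]
    exact congrArg Subtype.val e1
  · have e1 : (rC : R) * jC - (1 - e) = d * h + h * d := hh
    rw [← e1]
    abel
  · have e1 : (jC : R) * rC - (-(b1 * s) * (a * s)) = d * t + t * d := ht
    rw [← e1, neg_mul, oo hss b1 sa]
    abel

end HKx
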