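import Pool.Agent.Lib.MP_181146_gt.HP.DefsP
import Pool.Agent.Lib.MP_181146_gt.HE.DefsK

/-!
# Project HK: definitions

The class of a homotopy idempotent of a finite complex of projective modules in the reduced projective
class group.  `Flt`: filtered rings; `fR k`: the polynomial `3 x² - 2 x³`, iterated `k` times; `X0`: the
element of the endomorphism ring attached to a homotopy idempotent; `icl X`: the class of the image of an
idempotent `X`; `TR`: block triangular endomorphisms of a product of modules.
-/

set_option autoImplicit false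

namespace HKx

open HEp HPx

/-! ## A. Rings -/

/-- A ring with a decreasing filtration. -/
structure Flt (R : Type) [Ring R] (N : ℕ) where
  E : ℕ → AddSubgroup R
  one : (1 : R) ∈ E 0
  mul : ∀ i j x y, x ∈ E i → y ∈ E j → x * y ∈ E (i + j)
  anti : ∀ i, E (i + 1) ≤ E i
  top : ∀ x ∈ E N, x = 0

section

variable {R : Type} [Ring R]

/-- The polynomial `3 x² - 2 x³`, iterated. -/
def fR : ℕ → R → R
  | 0, x => x
  | k + 1, x => 3 * (fR k x * fR k x) - 2 * (fR k x * fR k x * fR k x)

/-- The element attached to `(d, p, K)`; `o` is the projection onto the odd part. -/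
def X0 (o d p K : R) : R := o + p * (1 - 2 * o) + d + K

variable {N : ℕ}

/-- The sign operator. -/
def sgn (g : Gd R N) : R := 1 - 2 * g.od

/-- The components of `u` of degree `< j` vanish. -/
def Ge (g : Gd R N) (j : ℤ) (u : R) : Prop :=
  ∀ i i' : Fin N, (i' : ℤ) < (i : ℤ) + j → g.e i' * u * g.e i = 0

/-- The graded commutator with `d`. -/
def dlt (g : Gd R N) (d u : R) : R := d * u - sgn g * u * sgn g * d

/-- The odd part of `u`. -/
def pod (g : Gd R N) (u : R) : R := g.od * u * (1 - g.od) + (1 - g.od) * u * g.od

/-- Elements of degree `≥ j` whose commutator with `d` is of degree `≥ j`. -/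
def Dj (g : Gd R N) (d : R) (j : ℤ) (u : R) : Prop := Ge g j u ∧ Ge g j (dlt g d u)

/-- The filtration `F` is compatible with the grading and with `d`. -/
def Cpt (g : Gd R N) (d : R) (F : Flt R N) : Prop :=
  (∀ (j : ℕ) u, Dj g d j u → u ∈ F.E j) ∧ d ∈ F.E 0 ∧ g.od ∈ F.E 0

/-- `g1` is the grading `g0` shifted by one. -/
def Shift (g0 g1 : Gd R N) : Prop :=
  (∀ m m' : Fin N, (m' : ℕ) = m + 1 → g1.e m' = g0.e m) ∧ ∀ m : Fin N, (m : ℕ) = 0 → g1.e m = 0

open Polynomial in
/-- The normalized second operator of a Clifford pair. -/
noncomputable def nb (P Q : ℤ[X]) (a b : R) : R :=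
  (b - aeval (a * a * (b * b)) P * (b * b) * a) * aeval (a * a * (b * b)) Q

end

/-! ## B. Idempotent endomorphisms -/

section

variable {L : Type} [CommRing L]

section

variable {V : Type} [AddCommGroup V] [Module L V] [Module.Finite L V] [Module.Projective L V]

lemma rangeProj (X : Module.End L V) (h : X * X = X) :
    Module.Projective L (LinearMap.range X) := by
  refine Module.Projective.of_split (LinearMap.range X).subtype (LinearMap.rangeRestrict X) ?_
  apply LinearMap.ext
  rintro ⟨_, y, rfl⟩
  apply Subtype.ext
  exact LinearMap.congr_fun h y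

open Classical in
/-- The class of the image of an idempotent. -/
noncomputable def icl (X : Module.End L V) : KT L :=
  if h : X * X = X then
    haveI := rangeProj X h
    cl L (LinearMap.range X)
  else 0

lemma icl_eq (X : Module.End L V) (h : X * X = X)
    [Module.Projective L (LinearMap.range X)] : icl X = cl L (LinearMap.range X) := by
  unfold icl
  rw [dif_pos h]

end

/-! ## C. Products of modules -/

section

variable {ι : Type} [Fintype ι] [DecidableEq ι] {V : ι → Type} [∀ x, AddCommGroup (V x)]
  [∀ x, Module L (V x)]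

/-- Block diagonal endomorphisms. -/
def bdg : (∀ x, Module.End L (V x)) →+* Module.End L (∀ x, V x) where
  toFun u := LinearMap.pi (fun x => u x ∘ₗ LinearMap.proj x)
  map_one' := rfl
  map_mul' _ _ := rfl
  map_zero' := rfl
  map_add' _ _ := rfl

/-- The component `V x → V y` of an endomorphism of the product. -/
def bc (u : Module.End L (∀ x, V x)) (x y : ι) : V x →ₗ[L] V y :=
  LinearMap.proj y ∘ₗ u ∘ₗ LinearMap.single L V x

lemma bc_apply (u : Module.End L (∀ x, V x)) (x y : ι) (z : V x) :
    bc u x y z = u (Pi.single x z) y := rfl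

lemma bc_mul (u v : Module.End L (∀ x, V x)) (x y : ι) (w : V x) :
    bc (u * v) x y w = ∑ z, bc u z y (bc v x z w) := by
  rw [bc_apply, Module.End.mul_apply]
  conv_lhs => rw [← Finset.univ_sum_single (v (Pi.single x w)), map_sum, Finset.sum_apply]
  rfl

/-- The ring of block triangular endomorphisms. -/
def TR (L : Type) [CommRing L] {ι : Type} [Fintype ι] [DecidableEq ι] (V : ι → Type)
    [∀ x, AddCommGroup (V x)] [∀ x, Module L (V x)] (lev : ι → ℕ) :
    Subring (Module.End L (∀ x, V x)) where
  carrier := {u | ∀ x y, x ≠ y → ¬ lev y < lev x → ∀ w, bc u x y w = 0}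
  mul_mem' := by
    intro u v hu hv x y hxy hl w
    rw [bc_mul]
    refine Finset.sum_eq_zero fun z _ => ?_
    by_cases h1 : x = z
    · subst h1
      exact hu x y hxy hl _
    · by_cases h2 : lev z < lev x
      · by_cases h3 : z = y
        · subst h3
          exact absurd h2 hl
        · rw [hu z y h3 (by omega)]
      · rw [hv x z h1 h2, map_zero]
  one_mem' := by
    intro x y hxy _ w
    rw [bc_apply, Module.End.one_apply, Pi.single_eq_of_ne (Ne.symm hxy)]
  add_mem' := by
    intro u v hu hv x y hxy hl w
    have h1 := hu x y hxy hl w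
    have h2 := hv x y hxy hl w
    rw [bc_apply] at h1 h2 ⊢
    rw [LinearMap.add_apply, Pi.add_apply, h1, h2, add_zero]
  zero_mem' := by
    intro x y _ _ w
    rfl
  neg_mem' := by
    intro u hu x y hxy hl w
    have h1 := hu x y hxy hl w
    rw [bc_apply] at h1 ⊢
    rw [LinearMap.neg_apply, Pi.neg_apply, h1, neg_zero]

/-- The diagonal block of a block triangular endomorphism. -/
def dgc (lev : ι → ℕ) (x : ι) : TR L V lev →+* Module.End L (V x) where
  toFun u := bc u.1 x x
  map_one' := by
    apply LinearMap.ext
    intro w
    rw [bc_apply]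
    change (Pi.single x w : ∀ x, V x) x = w
    rw [Pi.single_eq_same]
  map_mul' u v := by
    apply LinearMap.ext
    intro w
    change bc (u.1 * v.1) x x w = bc u.1 x x (bc v.1 x x w)
    rw [bc_mul, Finset.sum_eq_single x]
    · intro z _ hz
      by_cases h2 : lev z < lev x
      · exact u.2 z x hz (by omega) _
      · rw [v.2 x z (Ne.symm hz) h2, map_zero]
    · intro h
      exact absurd (Finset.mem_univ x) h
  map_zero' := rfl
  map_add' _ _ := rfl

/-- The grading of a product of graded modules. -/
def GdPi (N : ℕ) (g : ∀ x, Gd (Module.End L (V x)) N) : Gd (Module.End L (∀ x, V x)) N where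
  e m := bdg fun x => (g x).e m
  mul_self m := by
    rw [← map_mul]
    congr 1
    funext x
    exact (g x).mul_self m
  mul_ne m m' h := by
    rw [← map_mul]
    have e : (fun x => (g x).e m) * (fun x => (g x).e m') = 0 := funext fun x => (g x).mul_ne m m' h
    rw [e, map_zero]
  sum := by
    rw [← map_sum]
    have e : ∑ m, (fun x => (g x).e m) = (1 : ∀ x, Module.End L (V x)) := by
      funext x
      rw [Finset.sum_apply]
      exact (g x).sum
    rw [e, map_one]

end

section

variable {V W : Type} [AddCommGroup V] [Module L V] [AddCommGroup W] [Module L W]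

/-- Block diagonal endomorphisms of `V × W`. -/
def dg2 : Module.End L V × Module.End L W →+* Module.End L (V × W) where
  toFun u := LinearMap.prodMap u.1 u.2
  map_one' := rfl
  map_mul' _ _ := rfl
  map_zero' := rfl
  map_add' _ _ := rfl

/-- The grading of `V × W`. -/
def Gd2 (N : ℕ) (g : Gd (Module.End L V) N) (g' : Gd (Module.End L W) N) :
    Gd (Module.End L (V × W)) N where
  e m := dg2 (g.e m, g'.e m)
  mul_self m := by
    rw [← map_mul]
    congr 1
    exact Prod.ext (g.mul_self m) (g'.mul_self m)
  mul_ne m m' h := by
    rw [← map_mul]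
    have e : (g.e m, g'.e m) * (g.e m', g'.e m') = 0 :=
      Prod.ext (g.mul_ne m m' h) (g'.mul_ne m m' h)
    rw [e, map_zero]
  sum := by
    rw [← map_sum]
    have e : ∑ m, (g.e m, g'.e m) = (1 : Module.End L V × Module.End L W) := by
      refine Prod.ext ?_ ?_
      · rw [Prod.fst_sum]
        exact g.sum
      · rw [Prod.snd_sum]
        exact g'.sum
    rw [e, map_one]

end

end

end HKx
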