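import Pool.Agent.Lib.MP_181146_gt.HK.SpecH

/-!
# Project HK, statement Dia

Gradings of products: block diagonal idempotents and diagonal blocks of homogeneous elements.
-/

set_option autoImplicit false

namespace HKx

open HEp HPx

section

variable {L : Type} [CommRing L] {ι : Type} [Fintype ι] [DecidableEq ι] {V : ι → Type}
  [∀ x, AddCommGroup (V x)] [∀ x, Module L (V x)]

omit [Fintype ι] [DecidableEq ι] in
private lemma bdg_apply' (u : ∀ x, Module.End L (V x)) (v : ∀ x, V x) (x : ι) :
    (bdg u) v x = u x (v x) := rfl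

private lemma bdg_mem (lev : ι → ℕ) (u : ∀ x, Module.End L (V x)) : bdg u ∈ TR L V lev := by
  intro x y hxy _ w
  rw [bc_apply, bdg_apply', Pi.single_eq_of_ne (Ne.symm hxy), map_zero]

private lemma dgc_bdg (lev : ι → ℕ) (u : ∀ x, Module.End L (V x)) (h : bdg u ∈ TR L V lev)
    (x : ι) : dgc lev x ⟨bdg u, h⟩ = u x := by
  apply LinearMap.ext
  intro w
  change bc (bdg u) x x w = u x w
  rw [bc_apply, bdg_apply', Pi.single_eq_same]

omit [Fintype ι] [DecidableEq ι] in
private lemma od_bdg (N : ℕ) (g : ∀ x, Gd (Module.End L (V x)) N) :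
    (GdPi N g).od = bdg (fun x => (g x).od) := by
  have h1 : (fun x => (g x).od) =
      ∑ i : Fin N, if Odd (i : ℕ) then (fun x => (g x).e i) else 0 := by
    funext x
    rw [Finset.sum_apply]
    unfold Gd.od
    refine Finset.sum_congr rfl fun i _ => ?_
    by_cases h : Odd (i : ℕ)
    · rw [if_pos h, if_pos h]
    · rw [if_neg h, if_neg h]
      rfl
  rw [h1, map_sum]
  unfold Gd.od
  refine Finset.sum_congr rfl fun i _ => ?_
  by_cases h : Odd (i : ℕ)
  · rw [if_pos h, if_pos h]
    rfl
  · rw [if_neg h, if_neg h, map_zero]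

end

theorem sDia : S_Dia := by
  intro L _ ι _ _ V _ _ lev N g
  refine ⟨bdg_mem lev, dgc_bdg lev, od_bdg N g, ?_⟩
  intro m u x hu i j hij
  have h1 := hu i j hij
  have h2 : (⟨bdg (fun x => (g x).e j), bdg_mem lev _⟩ : TR L V lev) * u *
      ⟨bdg (fun x => (g x).e i), bdg_mem lev _⟩ = 0 := Subtype.ext h1
  have h3 := congrArg (dgc lev x) h2
  rw [map_mul, map_mul, dgc_bdg, dgc_bdg, map_zero] at h3
  exact h3

end HKx
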