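import Pool.Agent.Lib.MP_181146_gt.HK.SpecH

/-!
# Project HK, module DjF: properties of `Dj`
-/

set_option autoImplicit false

namespace HKx

open HEp HPx

section

variable {R : Type} [Ring R]

/-- `δ (u v) = (δ u) v + û (δ v)`. -/
private theorem DjF_mul {s d : R} (hss : s * s = 1) (u v : R) :
    d * (u * v) - s * (u * v) * s * d =
      (d * u - s * u * s * d) * v + s * u * s * (d * v - s * v * s * d) := by
  have e : s * u * s * (s * v * s * d) = s * (u * v) * s * d := by
    calc s * u * s * (s * v * s * d) = s * u * (s * s) * (v * s * d) := by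
          simp only [mul_assoc]
      _ = s * (u * v) * s * d := by rw [hss]; simp only [mul_assoc, one_mul]
  rw [sub_mul, mul_sub, e]
  simp only [mul_assoc]
  abel

/-- `δ û = - (δ u)^`. -/
private theorem DjF_hat {s d : R} (hss : s * s = 1) (hsd : s * d = -(d * s)) (u : R) :
    d * (s * u * s) - s * (s * u * s) * s * d = -(s * (d * u - s * u * s * d) * s) := by
  have e1 : s * (s * u * s) * s * d = u * d := by
    calc s * (s * u * s) * s * d = (s * s) * u * (s * s) * d := by simp only [mul_assoc]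
      _ = u * d := by rw [hss, one_mul, mul_one]
  have e2 : s * (d * u) * s = -(d * (s * u * s)) := by
    calc s * (d * u) * s = (s * d) * (u * s) := by simp only [mul_assoc]
      _ = -(d * (s * u * s)) := by rw [hsd, neg_mul]; simp only [mul_assoc]
  have e3 : s * (s * u * s * d) * s = -(u * d) := by
    calc s * (s * u * s * d) * s = (s * s) * u * (s * d) * s := by simp only [mul_assoc]
      _ = -(u * (d * (s * s))) := by
        rw [hsd, hss, one_mul, mul_neg, neg_mul]; simp only [mul_assoc, hss]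
      _ = -(u * d) := by rw [hss, mul_one]
  rw [e1, mul_sub, sub_mul, e2, e3]
  abel

/-- `δ (δ u) = 0`. -/
private theorem DjF_dd {s d : R} (hsd : s * d = -(d * s)) (hdd : d * d = 0)
    (u : R) :
    d * (d * u - s * u * s * d) - s * (d * u - s * u * s * d) * s * d = 0 := by
  have e1 : d * (d * u) = 0 := by rw [← mul_assoc, hdd, zero_mul]
  have e2 : s * (d * u) * s * d = -(d * (s * u * s * d)) := by
    calc s * (d * u) * s * d = (s * d) * (u * s * d) := by simp only [mul_assoc]
      _ = -(d * (s * u * s * d)) := by rw [hsd, neg_mul]; simp only [mul_assoc]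
  have e3 : s * (s * u * s * d) * s * d = 0 := by
    calc s * (s * u * s * d) * s * d = s * (s * u * s) * (d * (s * d)) := by
          simp only [mul_assoc]
      _ = 0 := by rw [hsd, mul_neg, ← mul_assoc d d s, hdd, zero_mul, neg_zero, mul_zero]
  rw [mul_sub, mul_sub, sub_mul, sub_mul, e1, e2, e3]
  abel

/-- `δ (pod u) = δ u - pod (δ u)`. -/
private theorem DjF_pod {o d : R} (hoo : o * o = o) (hod : o * d = d * (1 - o)) (u : R) :
    d * (o * u * (1 - o) + (1 - o) * u * o) -
        (1 - 2 * o) * (o * u * (1 - o) + (1 - o) * u * o) * (1 - 2 * o) * d =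
      (d * u - (1 - 2 * o) * u * (1 - 2 * o) * d) -
        (o * (d * u - (1 - 2 * o) * u * (1 - 2 * o) * d) * (1 - o) +
          (1 - o) * (d * u - (1 - 2 * o) * u * (1 - 2 * o) * d) * o) := by
  have hod' : o * d = d - d * o := by rw [hod, mul_sub, mul_one]
  have hodx : ∀ x, o * (d * x) = d * x - d * (o * x) := by
    intro x
    rw [← mul_assoc, hod', sub_mul, mul_assoc d o x]
  have hoox : ∀ x, o * (o * x) = o * x := by
    intro x
    rw [← mul_assoc, hoo]
  simp only [two_mul, mul_add, add_mul, mul_sub, sub_mul, one_mul, mul_one, mul_assoc, hoo, hoox,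
    hod', hodx]
  abel

end

/-- Properties of `Dj`. -/
theorem sDjF (hGeF : S_GeF) (hGdO : HPx.S_GdO) : S_DjF := by
  intro R _ N g d hd hdd
  obtain ⟨g0, gadd, gneg, gmul, gmono, ghm, gtop, ghat, gpod, hss⟩ := hGeF R N g
  obtain ⟨hoo, hodd⟩ := hGdO R N g
  have hod : g.od * d = d * (1 - g.od) := (hodd (-1) d hd).2 (by decide)
  have hsd : sgn g * d = -(d * sgn g) := by
    unfold sgn
    rw [sub_mul, one_mul, mul_assoc, hod]
    noncomm_ring
  have hgd : Ge g (-1) d := ghm _ _ hd
  have gsub : ∀ m u v, Ge g m u → Ge g m v → Ge g m (u - v) := by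
    intro m u v hu hv
    rw [sub_eq_add_neg]
    exact gadd m u (-v) hu (gneg m v hv)
  refine ⟨?_, ?_, ?_, ?_, ?_, ?_, ?_, ?_, ?_, ?_, ?_, ?_⟩
  · intro m
    refine ⟨g0 m, ?_⟩
    have e : dlt g d 0 = 0 := by unfold dlt; simp
    rw [e]
    exact g0 m
  · intro m u v hu hv
    refine ⟨gadd m u v hu.1 hv.1, ?_⟩
    have e : dlt g d (u + v) = dlt g d u + dlt g d v := by
      unfold dlt
      noncomm_ring
    rw [e]
    exact gadd m _ _ hu.2 hv.2
  · intro m u hu
    refine ⟨gneg m u hu.1, ?_⟩
    have e : dlt g d (-u) = -dlt g d u := by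
      unfold dlt
      noncomm_ring
    rw [e]
    exact gneg m _ hu.2
  · intro m m' u v hu hv
    refine ⟨gmul m m' u v hu.1 hv.1, ?_⟩
    have e : dlt g d (u * v) = dlt g d u * v + sgn g * u * sgn g * dlt g d v :=
      DjF_mul hss u v
    rw [e]
    exact gadd _ _ _ (gmul _ _ _ _ hu.2 hv.1) (gmul _ _ _ _ (ghat _ _ hu.1) hv.2)
  · intro m m' u hm hu
    exact ⟨gmono m m' u hm hu.1, gmono m m' _ hm hu.2⟩
  · intro m u hu
    refine ⟨gmono m (m + 1) u (by omega) hu, ?_⟩
    have h1 : Ge g m (d * u) := by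
      have := gmul _ _ _ _ hgd hu
      rwa [show -1 + (m + 1) = m by ring] at this
    have h2 : Ge g m (sgn g * u * sgn g * d) := by
      have := gmul _ _ _ _ (ghat _ _ hu) hgd
      rwa [show m + 1 + -1 = m by ring] at this
    exact gsub m _ _ h1 h2
  · intro m u hu h
    refine ⟨ghm m u hu, ?_⟩
    rw [h]
    exact g0 m
  · intro m u hu
    refine ⟨ghat m u hu.1, ?_⟩
    have e : dlt g d (sgn g * u * sgn g) = -(sgn g * dlt g d u * sgn g) := DjF_hat hss hsd u
    rw [e]
    exact gneg m _ (ghat m _ hu.2)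
  · intro m u hu
    refine ⟨hu.2, ?_⟩
    have e : dlt g d (dlt g d u) = 0 := DjF_dd hsd hdd u
    rw [e]
    exact g0 m
  · intro m u hu
    refine ⟨gpod m u hu.1, ?_⟩
    have e : dlt g d (pod g u) = dlt g d u - pod g (dlt g d u) := DjF_pod hoo hod u
    rw [e]
    exact gsub m _ _ hu.2 (gpod m _ hu.2)
  · refine ⟨ghm 0 1 ?_, ?_⟩
    · intro i j h
      rw [mul_one]
      refine g.mul_ne j i fun hji => h ?_
      rw [hji, add_zero]
    · have e : dlt g d 1 = 0 := by
        unfold dlt
        rw [mul_one, mul_one, hss, one_mul, sub_self]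
      rw [e]
      exact g0 0
  · intro m hm u hu
    exact gtop m hm u hu.1

end HKx
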