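import Pool.Agent.Lib.MP_181146_gt.HK.SpecH

/-!
# Project HK, statement EF: the filtration attached to a graded ring with a differential
-/

set_option autoImplicit false

namespace HKx

open HEp HPx

namespace EFAux

variable {R : Type} [Ring R]

/-- Closure properties of the levels `D m` used for the filtration. -/
private structure Lv (D : ℤ → R → Prop) (o d s : R) : Prop where
  zero : ∀ m, D m 0
  add : ∀ m u v, D m u → D m v → D m (u + v)
  neg : ∀ m u, D m u → D m (-u)
  mul : ∀ m m' u v, D m u → D m' v → D (m + m') (u * v)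
  mono : ∀ m m' u, m ≤ m' → D m' u → D m u
  hat : ∀ m u, D m u → D m (s * u * s)
  del : ∀ m u, D m u → D m (d * u - s * u * s * d)
  po : ∀ m u, D m u → D m (o * u * (1 - o) + (1 - o) * u * o)
  oo : o * o = o
  od : o * d = d * (1 - o)
  dd : d * d = 0
  sdef : s = 1 - 2 * o

private def G (D : ℤ → R → Prop) (d : R) (m : ℤ) (x : R) : Prop :=
  ∃ a b, D m a ∧ D m b ∧ x = a + d * b

private def EE (D : ℤ → R → Prop) (o d : R) (m : ℤ) (x : R) : Prop :=
  ∃ a b, G D d m a ∧ G D d m b ∧ x = a + b * o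

variable {D : ℤ → R → Prop} {o d s : R}

private lemma ss (h : Lv D o d s) : s * s = 1 := by
  have e : s * s = 1 - 4 * o + 4 * (o * o) := by
    rw [h.sdef]
    noncomm_ring
  rw [e, h.oo]
  noncomm_ring

private lemma G_zero (h : Lv D o d s) (m : ℤ) : G D d m 0 :=
  ⟨0, 0, h.zero m, h.zero m, by rw [mul_zero, add_zero]⟩

private lemma G_add (h : Lv D o d s) {m : ℤ} {x y : R} (hx : G D d m x) (hy : G D d m y) :
    G D d m (x + y) := by
  obtain ⟨a, b, ha, hb, rfl⟩ := hx
  obtain ⟨a', b', ha', hb', rfl⟩ := hy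
  exact ⟨a + a', b + b', h.add _ _ _ ha ha', h.add _ _ _ hb hb', by noncomm_ring⟩

private lemma G_neg (h : Lv D o d s) {m : ℤ} {x : R} (hx : G D d m x) : G D d m (-x) := by
  obtain ⟨a, b, ha, hb, rfl⟩ := hx
  exact ⟨-a, -b, h.neg _ _ ha, h.neg _ _ hb, by noncomm_ring⟩

private lemma G_mono (h : Lv D o d s) {m m' : ℤ} (hm : m ≤ m') {x : R} (hx : G D d m' x) :
    G D d m x := by
  obtain ⟨a, b, ha, hb, rfl⟩ := hx
  exact ⟨a, b, h.mono _ _ _ hm ha, h.mono _ _ _ hm hb, rfl⟩

/-- `u d = d û - δ û`. -/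
private lemma mul_d (h : Lv D o d s) (u : R) :
    u * d = d * (s * u * s) - (d * (s * u * s) - s * (s * u * s) * s * d) := by
  have e : s * (s * u * s) * s = u := by
    calc s * (s * u * s) * s = (s * s) * u * (s * s) := by noncomm_ring
      _ = u := by rw [ss h, one_mul, mul_one]
  rw [e]
  noncomm_ring

private lemma G_mul (h : Lv D o d s) {m m' : ℤ} {x y : R} (hx : G D d m x) (hy : G D d m' y) :
    G D d (m + m') (x * y) := by
  obtain ⟨a, b, ha, hb, rfl⟩ := hx
  obtain ⟨a', b', ha', hb', rfl⟩ := hy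
  set ah := s * a * s with hah
  set bh := s * b * s with hbh
  set ad := d * ah - s * ah * s * d with had
  set bd := d * bh - s * bh * s * d with hbd
  have e1 : a * d = d * ah - ad := mul_d h a
  have e2 : b * d = d * bh - bd := mul_d h b
  refine ⟨a * a' + -(ad * b'), ah * b' + (b * a' + -(bd * b')), ?_, ?_, ?_⟩
  · exact h.add _ _ _ (h.mul _ _ _ _ ha ha')
      (h.neg _ _ (h.mul _ _ _ _ (h.del _ _ (h.hat _ _ ha)) hb'))
  · exact h.add _ _ _ (h.mul _ _ _ _ (h.hat _ _ ha) hb') (h.add _ _ _ (h.mul _ _ _ _ hb ha')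
      (h.neg _ _ (h.mul _ _ _ _ (h.del _ _ (h.hat _ _ hb)) hb')))
  · calc (a + d * b) * (a' + d * b')
        = a * a' + (a * d) * b' + d * b * a' + d * (b * d) * b' := by noncomm_ring
      _ = a * a' + (d * ah - ad) * b' + d * b * a' + d * (d * bh - bd) * b' := by rw [e1, e2]
      _ = a * a' + -(ad * b') + d * (ah * b' + (b * a' + -(bd * b'))) + (d * d) * bh * b' := by
          noncomm_ring
      _ = _ := by rw [h.dd, zero_mul, zero_mul, add_zero]

/-- `o u = pod u + û o`. -/
private lemma o_mul (h : Lv D o d s) (u : R) :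
    o * u = o * u * (1 - o) + (1 - o) * u * o + s * u * s * o := by
  have e : s * u * s * o = u * o - 2 * (u * (o * o)) - 2 * (o * u * o) + 4 * (o * u * (o * o)) := by
    rw [h.sdef]
    noncomm_ring
  rw [e, h.oo]
  noncomm_ring

private lemma o_G (h : Lv D o d s) {m : ℤ} {x : R} (hx : G D d m x) :
    ∃ a b, G D d m a ∧ G D d m b ∧ o * x = a + b * o := by
  obtain ⟨u, v, hu, hv, rfl⟩ := hx
  set pu := o * u * (1 - o) + (1 - o) * u * o with hpu
  set pv := o * v * (1 - o) + (1 - o) * v * o with hpv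
  refine ⟨pu + d * (v + -pv), s * u * s + d * (-(s * v * s)), ?_, ?_, ?_⟩
  · exact ⟨pu, v + -pv, h.po _ _ hu, h.add _ _ _ hv (h.neg _ _ (h.po _ _ hv)), rfl⟩
  · exact ⟨s * u * s, -(s * v * s), h.hat _ _ hu, h.neg _ _ (h.hat _ _ hv), rfl⟩
  · have e1 : o * u = pu + s * u * s * o := o_mul h u
    have e2 : o * v = pv + s * v * s * o := o_mul h v
    calc o * (u + d * v) = o * u + (o * d) * v := by noncomm_ring
      _ = o * u + d * v - d * (o * v) := by
          rw [h.od]
          noncomm_ring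
      _ = pu + s * u * s * o + d * v - d * (pv + s * v * s * o) := by rw [e1, e2]
      _ = _ := by noncomm_ring

private lemma E_zero (h : Lv D o d s) (m : ℤ) : EE D o d m 0 :=
  ⟨0, 0, G_zero h m, G_zero h m, by rw [zero_mul, add_zero]⟩

private lemma E_add (h : Lv D o d s) {m : ℤ} {x y : R} (hx : EE D o d m x) (hy : EE D o d m y) :
    EE D o d m (x + y) := by
  obtain ⟨a, b, ha, hb, rfl⟩ := hx
  obtain ⟨a', b', ha', hb', rfl⟩ := hy
  exact ⟨a + a', b + b', G_add h ha ha', G_add h hb hb', by noncomm_ring⟩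

private lemma E_neg (h : Lv D o d s) {m : ℤ} {x : R} (hx : EE D o d m x) : EE D o d m (-x) := by
  obtain ⟨a, b, ha, hb, rfl⟩ := hx
  exact ⟨-a, -b, G_neg h ha, G_neg h hb, by noncomm_ring⟩

private lemma E_mono (h : Lv D o d s) {m m' : ℤ} (hm : m ≤ m') {x : R} (hx : EE D o d m' x) :
    EE D o d m x := by
  obtain ⟨a, b, ha, hb, rfl⟩ := hx
  exact ⟨a, b, G_mono h hm ha, G_mono h hm hb, rfl⟩

private lemma E_mul (h : Lv D o d s) {m m' : ℤ} {x y : R} (hx : EE D o d m x)
    (hy : EE D o d m' y) : EE D o d (m + m') (x * y) := by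
  obtain ⟨a, b, ha, hb, rfl⟩ := hx
  obtain ⟨a', b', ha', hb', rfl⟩ := hy
  obtain ⟨p, q, hp, hq, e1⟩ := o_G h ha'
  obtain ⟨p', q', hp', hq', e2⟩ := o_G h hb'
  refine ⟨a * a' + b * p, b * q + a * b' + b * p' + b * q',
    G_add h (G_mul h ha ha') (G_mul h hb hp),
    G_add h (G_add h (G_add h (G_mul h hb hq) (G_mul h ha hb')) (G_mul h hb hp'))
      (G_mul h hb hq'), ?_⟩
  calc (a + b * o) * (a' + b' * o)
      = a * a' + b * (o * a') + a * b' * o + b * (o * b') * o := by noncomm_ring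
    _ = a * a' + b * (p + q * o) + a * b' * o + b * (p' + q' * o) * o := by rw [e1, e2]
    _ = a * a' + b * p + b * q * o + a * b' * o + b * p' * o + b * q' * (o * o) := by
        noncomm_ring
    _ = _ := by
        rw [h.oo]
        noncomm_ring

end EFAux

open EFAux in
/-- **EF.** The filtration attached to a graded ring with a differential. -/
theorem sEF (hDjF : S_DjF) (hGeF : S_GeF) (hGdO : HPx.S_GdO) : S_EF := by
  intro R _ N g d hd hdd
  obtain ⟨h1, h2, h3, h4, h5, h6, h7, h8, h9, h10, h11, h12⟩ := hDjF R N g d hd hdd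
  obtain ⟨hoo, hH⟩ := hGdO R N g
  have hod : g.od * d = d * (1 - g.od) := (hH (-1) d hd).2 (by decide)
  have hL : Lv (fun m u => Dj g d m u) g.od d (sgn g) :=
    { zero := h1
      add := h2
      neg := h3
      mul := h4
      mono := h5
      hat := h8
      del := fun m u hu => h9 m u hu
      po := fun m u hu => h10 m u hu
      oo := hoo
      od := hod
      dd := hdd
      sdef := rfl }
  have hof : ∀ (m : ℤ) u, Dj g d m u → EE (fun m u => Dj g d m u) g.od d m u := by
    intro m u hu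
    exact ⟨u, 0, ⟨u, 0, hu, h1 m, by rw [mul_zero, add_zero]⟩, G_zero hL m,
      by rw [zero_mul, add_zero]⟩
  refine ⟨{ E := fun i =>
              { carrier := {x | EE (fun m u => Dj g d m u) g.od d (i : ℤ) x}
                add_mem' := fun hx hy => E_add hL hx hy
                zero_mem' := E_zero hL _
                neg_mem' := fun hx => E_neg hL hx }
            one := ?_
            mul := ?_
            anti := ?_
            top := ?_ }, ?_, ?_, ?_⟩
  · exact hof _ _ h11
  · intro i j x y hx hy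
    change EE (fun m u => Dj g d m u) g.od d ((i + j : ℕ) : ℤ) (x * y)
    rw [Nat.cast_add]
    exact E_mul hL hx hy
  · intro i x hx
    exact E_mono hL (by push_cast; omega) hx
  · rintro x ⟨a, b, ⟨a1, a2, ha1, ha2, rfl⟩, ⟨b1, b2, hb1, hb2, rfl⟩, rfl⟩
    rw [h12 _ le_rfl _ ha1, h12 _ le_rfl _ ha2, h12 _ le_rfl _ hb1, h12 _ le_rfl _ hb2]
    simp
  · intro j u hu
    exact hof _ _ hu
  · exact ⟨d, 0, ⟨0, 1, h1 _, h11, by rw [mul_one, zero_add]⟩, G_zero hL _,
      by rw [zero_mul, add_zero]⟩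
  · exact ⟨0, 1, G_zero hL _, ⟨1, 0, h11, h1 _, by rw [mul_zero, add_zero]⟩,
      by rw [one_mul, zero_add]⟩

end HKx
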