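import Pool.Agent.Lib.MP_181146_gt.HK.SpecH

/-!
# Project HK: a homotopy idempotent with a homotopy retraction (S_Eqv)
-/

set_option autoImplicit false

namespace HKx

open HEp HPx

private lemma sqz {R : Type} [Ring R] {j : R} (h : j * j = 0) :
    (1 - j) * (1 + j) = 1 ∧ (1 + j) * (1 - j) = 1 := by
  constructor
  · have e1 : (1 - j) * (1 + j) = 1 - j * j := by noncomm_ring
    rw [e1, h, sub_zero]
  · have e1 : (1 + j) * (1 - j) = 1 - j * j := by noncomm_ring
    rw [e1, h, sub_zero]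

private lemma uvz {R : Type} [Ring R] {r j : R} (hr : r * r = 0) (hj : j * j = 0) :
    (1 - j) * (1 + r) * (1 - j) * ((1 + j) * (1 - r) * (1 + j)) = 1 ∧
      (1 + j) * (1 - r) * (1 + j) * ((1 - j) * (1 + r) * (1 - j)) = 1 := by
  obtain ⟨j1, j2⟩ := sqz hj
  obtain ⟨r1, r2⟩ := sqz hr
  constructor
  · calc (1 - j) * (1 + r) * (1 - j) * ((1 + j) * (1 - r) * (1 + j))
        = (1 - j) * ((1 + r) * ((1 - j) * (1 + j)) * (1 - r)) * (1 + j) := by
          simp only [mul_assoc]
      _ = 1 := by rw [j1, mul_one, r2, mul_one, j1]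
  · calc (1 + j) * (1 - r) * (1 + j) * ((1 - j) * (1 + r) * (1 - j))
        = (1 + j) * ((1 - r) * ((1 + j) * (1 - j)) * (1 + r)) * (1 - j) := by
          simp only [mul_assoc]
      _ = 1 := by rw [j2, mul_one, r1, mul_one, j2]

private lemma cmm {R : Type} [Ring R] {r j d : R} (hr : Commute r d) (hj : Commute j d) :
    Commute ((1 - j) * (1 + r) * (1 - j)) d ∧ Commute ((1 + j) * (1 - r) * (1 + j)) d := by
  have h1 : Commute (1 : R) d := Commute.one_left d
  exact ⟨((h1.sub_left hj).mul_left (h1.add_left hr)).mul_left (h1.sub_left hj),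
    ((h1.add_left hj).mul_left (h1.sub_left hr)).mul_left (h1.add_left hj)⟩

private lemma key {R : Type} [Ring R] {d e p K r j h s : R} (hpd : p * d = d * p)
    (hep : e * p = p) (hpK : p - p * p = d * K + K * d)
    (hrd : r * d = d * r) (her : e * r = 0) (hej : e * j = j) (hje : j * e = 0)
    (hrj : r * j = (1 - e) + (d * h + h * d)) (hjr : j * r = p + (d * s + s * d)) :
    (1 - j) * (1 + r) * (1 - j) * p - (1 - e) * ((1 - j) * (1 + r) * (1 - j)) =
      d * (K + h * r - r * s - s * p + h) + (K + h * r - r * s - s * p + h) * d := by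
  have hjp : j * p = 0 := by rw [← hep, ← mul_assoc, hje, zero_mul]
  have a1 : (1 - j) * (1 + r) * (1 - j) * p = p + r * p - j * r * p := by
    have e1 : (1 - j) * (1 + r) * (1 - j) * p = p + r * p - j * r * p - 2 * (j * p) -
        r * (j * p) + j * r * (j * p) + j * (j * p) := by noncomm_ring
    rw [e1, hjp]
    simp only [mul_zero, sub_zero, add_zero]
  have a2 : (1 - e) * ((1 - j) * (1 + r) * (1 - j)) = (1 - e) + r - r * j := by
    have e1 : (1 - e) * ((1 - j) * (1 + r) * (1 - j)) = (1 - e) + r - r * j - e * r * (1 - j) -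
        (j - e * j) * ((1 + r) * (1 - j) + 1) := by noncomm_ring
    rw [e1, her, hej, sub_self, zero_mul, zero_mul, sub_zero, sub_zero]
  have a3 : r * p = r + (d * (h * r) + h * r * d) - (d * (r * s) + r * s * d) := by
    have e1 : r * p = r * j * r - r * (j * r - p) := by noncomm_ring
    have e2 : r * j * r = r + (d * (h * r) + h * r * d) := by
      have e3 : ((1 - e) + (d * h + h * d)) * r = r - e * r + (d * (h * r) + h * (d * r)) := by
        noncomm_ring
      rw [hrj, e3, her, sub_zero, ← hrd, ← mul_assoc h]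
    have e4 : j * r - p = d * s + s * d := by rw [hjr, add_sub_cancel_left]
    rw [e1, e2, e4, mul_add, ← mul_assoc r d, hrd, mul_assoc d r, ← mul_assoc r s]
  have a4 : j * r * p = p * p + (d * (s * p) + s * p * d) := by
    have e1 : (p + (d * s + s * d)) * p = p * p + (d * (s * p) + s * (d * p)) := by noncomm_ring
    rw [hjr, e1, ← hpd, ← mul_assoc s]
  rw [a1, a2, a3, a4, hrj]
  have a5 : p = p * p + (d * K + K * d) := by rw [← hpK, add_sub_cancel]
  have a6 : p + (r + (d * (h * r) + h * r * d) - (d * (r * s) + r * s * d)) -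
      (p * p + (d * (s * p) + s * p * d)) - (1 - e + r - (1 - e + (d * h + h * d))) =
      (p - p * p) + (d * (h * r - r * s - s * p + h) + (h * r - r * s - s * p + h) * d) := by
    noncomm_ring
  rw [a6, hpK]
  noncomm_ring

private lemma idm {R : Type} [Ring R] {o d q : R} (ho : o * o = o) (hd : d * d = 0)
    (hod : o * d = d * (1 - o)) (hqo : q * o = o * q) (hqd : q * d = d * q) (hq : q * q = q) :
    (o + q * (1 - 2 * o) + d) * (o + q * (1 - 2 * o) + d) = o + q * (1 - 2 * o) + d := by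
  obtain ⟨s, hs⟩ : ∃ s : R, s = 1 - 2 * o := ⟨_, rfl⟩
  have s1 : o * s = -o := by
    have e1 : o * (1 - 2 * o) = o - 2 * (o * o) := by noncomm_ring
    rw [hs, e1, ho]
    noncomm_ring
  have s2 : s * o = -o := by
    have e1 : (1 - 2 * o) * o = o - 2 * (o * o) := by noncomm_ring
    rw [hs, e1, ho]
    noncomm_ring
  have s3 : s * s = 1 := by
    have e1 : (1 - 2 * o) * (1 - 2 * o) = 1 - 4 * o + 4 * (o * o) := by noncomm_ring
    rw [hs, e1, ho, sub_add_cancel]
  have s4 : s * d = -(d * s) := by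
    have e1 : (1 - 2 * o) * d = d - 2 * (o * d) := by noncomm_ring
    rw [hs, e1, hod]
    noncomm_ring
  have s5 : q * s = s * q := by
    have e1 : q * (1 - 2 * o) = q - 2 * (q * o) := by noncomm_ring
    rw [hs, e1, hqo]
    noncomm_ring
  have t1 : o * (q * s) = -(q * o) := by rw [← mul_assoc, ← hqo, mul_assoc, s1, mul_neg]
  have t2 : q * s * o = -(q * o) := by rw [mul_assoc, s2, mul_neg]
  have t3 : q * s * (q * s) = q := by
    rw [← mul_assoc, mul_assoc q s q, ← s5, ← mul_assoc, hq, mul_assoc, s3, mul_one]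
  have t4 : q * s * d = -(d * (q * s)) := by
    rw [mul_assoc, s4, mul_neg, ← mul_assoc, hqd, mul_assoc]
  have t5 : o * d + d * o = d := by
    rw [hod]
    noncomm_ring
  have e1 : (o + q * s + d) * (o + q * s + d) = o * o + o * (q * s) + q * s * o +
      q * s * (q * s) + (q * s * d + d * (q * s)) + (o * d + d * o) + d * d := by noncomm_ring
  rw [← hs, e1, t1, t2, t3, t4, t5, ho, hd, hs]
  noncomm_ring

theorem sEqv (hHInv : S_HInv) (hfRP : S_fRP) (hGdM : HPx.S_GdM) (hGdO : HPx.S_GdO)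
    (hGdP : HPx.S_GdP) : S_Eqv := by
  intro R _ N g d hd hdd e p K r j h s he hge hed hp hpd hep hpe hK hpK hr hj hrd hjd her hre hej
    hje hrj hjr k hk
  obtain ⟨g1, g0, ga, gn, gm⟩ := hGdM R N g
  obtain ⟨ho, hev⟩ := hGdO R N g
  obtain ⟨-, hf2, hf3⟩ := hfRP.2 R k
  have m00 : ∀ u v : R, g.Hm 0 u → g.Hm 0 v → g.Hm 0 (u * v) := by
    intro u v hu hv
    have h1 := gm 0 0 v u hv hu
    rwa [add_zero] at h1
  have m01 : ∀ u v : R, g.Hm 0 u → g.Hm 1 v → g.Hm 1 (u * v) := by
    intro u v hu hv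
    have h1 := gm 1 0 v u hv hu
    rwa [add_zero] at h1
  have m10 : ∀ u v : R, g.Hm 1 u → g.Hm 0 v → g.Hm 1 (u * v) := by
    intro u v hu hv
    have h1 := gm 0 1 v u hv hu
    rwa [zero_add] at h1
  have sb : ∀ u v : R, g.Hm 0 u → g.Hm 0 v → g.Hm 0 (u - v) := by
    intro u v hu hv
    rw [sub_eq_add_neg]
    exact ga 0 u (-v) hu (gn 0 v hv)
  have hjj : j * j = 0 := by
    have h1 : j * j = j * e * j := by rw [mul_assoc, hej]
    rw [h1, hje, zero_mul]
  have hrr : r * r = 0 := by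
    have h1 : r * r = r * e * r := by rw [hre]
    rw [h1, mul_assoc, her, mul_zero]
  obtain ⟨hUV, hVU⟩ := uvz hrr hjj
  obtain ⟨hUd, hVd⟩ := cmm (show Commute r d from hrd) (show Commute j d from hjd)
  have hro : Commute r g.od := ((hev 0 r hr).1 (by decide)).symm
  have hjo : Commute j g.od := ((hev 0 j hj).1 (by decide)).symm
  obtain ⟨hUo, hVo⟩ := cmm hro hjo
  have hkey := key hpd hep hpK hrd her hej hje hrj hjr
  have hU0 : g.Hm 0 ((1 - j) * (1 + r) * (1 - j)) :=
    m00 _ _ (m00 _ _ (sb _ _ g1 hj) (ga 0 _ _ g1 hr)) (sb _ _ g1 hj)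
  have hV0 : g.Hm 0 ((1 + j) * (1 - r) * (1 + j)) :=
    m00 _ _ (m00 _ _ (ga 0 _ _ g1 hj) (sb _ _ g1 hr)) (ga 0 _ _ g1 hj)
  generalize (1 - j) * (1 + r) * (1 - j) = U at hUV hVU hUd hUo hkey hU0
  generalize (1 + j) * (1 - r) * (1 + j) = V at hUV hVU hVd hVo hV0
  generalize K + h * r - r * s - s * p + h = x at hkey
  have hc0 : (1 - e) - U * p * V = d * (-(x * V)) + (1 : ℤ) • (-(x * V) * d) := by
    have e1 : (U * p - (1 - e) * U) * V = (d * x + x * d) * V := by rw [hkey]
    have e2 : (U * p - (1 - e) * U) * V = U * p * V - (1 - e) * (U * V) := by noncomm_ring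
    have e3 : (d * x + x * d) * V = d * (x * V) + x * (d * V) := by noncomm_ring
    rw [e2, e3, hUV, mul_one, ← hVd.eq, ← mul_assoc x] at e1
    rw [one_smul, mul_neg, neg_mul, ← neg_add, ← e1, neg_sub]
  obtain ⟨c, hc, hcc⟩ := hGdP R N g 0 _ d _ 1 (sb _ _ (sb _ _ g1 hge)
    (m00 _ _ (m00 _ _ hU0 hp) hV0)) hd hc0
  rw [zero_add] at hc
  rw [one_smul] at hcc
  have hq : U * p * V + (d * c + c * d) = 1 - e := by rw [← hcc, add_sub_cancel]
  have hpd' : U * p * V * d = d * (U * p * V) := by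
    rw [mul_assoc, hVd.eq, ← mul_assoc, mul_assoc U p d, hpd, ← mul_assoc, hUd.eq, mul_assoc,
      mul_assoc, mul_assoc]
  have hh : U * p * V - U * p * V * (U * p * V) = d * (U * K * V) + U * K * V * d := by
    have e1 : U * p * V - U * p * V * (U * p * V) = U * (p - p * (V * U) * p) * V := by
      noncomm_ring
    have e2 : U * (d * K + K * d) * V = (U * d) * K * V + U * K * (d * V) := by noncomm_ring
    rw [e1, hVU, mul_one, hpK, e2, hUd.eq, ← hVd.eq]
    noncomm_ring
  have hee : (1 - e) * (1 - e) = 1 - e := by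
    have e1 : (1 - e) * (1 - e) = 1 - e - e + e * e := by noncomm_ring
    rw [e1, he, sub_add_cancel]
  have hh' : U * p * V + (d * c + c * d) -
      (U * p * V + (d * c + c * d)) * (U * p * V + (d * c + c * d)) = d * 0 + 0 * d := by
    rw [hq, hee, sub_self, mul_zero, zero_mul, add_zero]
  obtain ⟨-, u, v, huv, hvu, hu⟩ := hHInv R N g d hd hdd (U * p * V) (U * K * V) c 0
    (m00 _ _ (m00 _ _ hU0 hp) hV0) hpd' (m10 _ _ (m01 _ _ hU0 hK) hV0) (g0 1) hc hh hh' k hk
  rw [hq] at hu
  have heo : e * g.od = g.od * e := ((hev 0 e hge).1 (by decide)).symm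
  have hX1 : fR k (X0 g.od d (1 - e) 0) = g.od + (1 - e) * (1 - 2 * g.od) + d := by
    have e1 : X0 g.od d (1 - e) 0 = g.od + (1 - e) * (1 - 2 * g.od) + d := by
      unfold X0
      rw [add_zero]
    rw [e1]
    refine hf3 _ (idm ho hdd ((hev (-1) d hd).2 (by decide)) ?_ ?_ hee)
    · rw [sub_mul, mul_sub, one_mul, mul_one, heo]
    · rw [sub_mul, mul_sub, one_mul, mul_one, hed]
  have hX2 : X0 g.od d (U * p * V) (U * K * V) = U * X0 g.od d p K * V := by
    unfold X0
    have e1 : U * (g.od + p * (1 - 2 * g.od) + d + K) * V = U * g.od * V +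
        (U * p * V - 2 * (U * p * (g.od * V))) + U * d * V + U * K * V := by noncomm_ring
    have e2 : U * p * V * (1 - 2 * g.od) = U * p * V - 2 * (U * p * (V * g.od)) := by
      noncomm_ring
    have e3 : U * g.od * V = g.od := by rw [hUo.eq, mul_assoc, hUV, mul_one]
    have e4 : U * d * V = d := by rw [hUd.eq, mul_assoc, hUV, mul_one]
    rw [e1, e2, e3, e4, hVo.eq]
  refine ⟨u * U, V * v, ?_, ?_, ?_⟩
  · rw [mul_assoc, ← mul_assoc U, hUV, one_mul, huv]
  · rw [mul_assoc, ← mul_assoc v, hvu, one_mul, hVU]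
  · rw [hX1, hX2, hf2 U V _ hVU] at hu
    have e1 : u * U * fR k (X0 g.od d p K) = u * (U * fR k (X0 g.od d p K) * V) * U := by
      have e2 : u * (U * fR k (X0 g.od d p K) * V) * U =
          u * U * fR k (X0 g.od d p K) * (V * U) := by noncomm_ring
      rw [e2, hVU, mul_one]
    rw [e1, hu, mul_assoc]

end HKx
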