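import Pool.Agent.Lib.MP_181146_gt.HK.SpecH

/-!
# Project HK, module GeF: properties of `Ge`
-/

set_option autoImplicit false

namespace HKx

open HEp HPx

section

variable {R : Type} [Ring R] {N : ℕ} (g : Gd R N)

private theorem GeF_mul_od (j : Fin N) : g.e j * g.od = if Odd (j : ℕ) then g.e j else 0 := by
  unfold Gd.od
  rw [Finset.mul_sum, Finset.sum_eq_single j]
  · by_cases h : Odd (j : ℕ)
    · rw [if_pos h, g.mul_self]
    · rw [if_neg h, mul_zero]
  · intro i _ hi
    by_cases h : Odd (i : ℕ)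
    · rw [if_pos h, g.mul_ne j i (Ne.symm hi)]
    · rw [if_neg h, mul_zero]
  · exact fun h => absurd (Finset.mem_univ j) h

private theorem GeF_zero_of {x : R} (h : ∀ i j, g.e j * x * g.e i = 0) : x = 0 := by
  calc x = 1 * x * 1 := by rw [one_mul, mul_one]
    _ = (∑ j, g.e j) * x * ∑ i, g.e i := by rw [g.sum]
    _ = 0 := by
      rw [Finset.sum_mul, Finset.sum_mul_sum]
      exact Finset.sum_eq_zero fun j _ => Finset.sum_eq_zero fun i _ => h i j

private theorem GeF_od_od : g.od * g.od = g.od := by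
  have h1 : g.od * g.od = ∑ i : Fin N, (if Odd (i : ℕ) then g.e i else 0) * g.od := by
    conv_lhs => rw [Gd.od, Finset.sum_mul]
    rfl
  rw [h1]
  conv_rhs => rw [Gd.od]
  refine Finset.sum_congr rfl fun i _ => ?_
  by_cases h : Odd (i : ℕ)
  · rw [if_pos h, GeF_mul_od, if_pos h]
  · rw [if_neg h, zero_mul]

private theorem GeF_hm {m : ℤ} {u : R} (hu : g.Hm m u) : Ge g m u := fun i i' h => hu i i' h.ne

private theorem GeF_od : Ge g 0 g.od := by
  refine GeF_hm g fun i j h => ?_
  rw [GeF_mul_od]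
  by_cases h' : Odd (j : ℕ)
  · rw [if_pos h']
    refine g.mul_ne j i fun hji => h ?_
    rw [hji, add_zero]
  · rw [if_neg h', zero_mul]

private theorem GeF_one : Ge g 0 1 := by
  refine GeF_hm g fun i j h => ?_
  rw [mul_one]
  refine g.mul_ne j i fun hji => h ?_
  rw [hji, add_zero]

private theorem GeF_add {m : ℤ} {u v : R} (hu : Ge g m u) (hv : Ge g m v) : Ge g m (u + v) := by
  intro i i' h
  rw [mul_add, add_mul, hu i i' h, hv i i' h, add_zero]

private theorem GeF_neg {m : ℤ} {u : R} (hu : Ge g m u) : Ge g m (-u) := by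
  intro i i' h
  rw [mul_neg, neg_mul, hu i i' h, neg_zero]

private theorem GeF_mul {m m' : ℤ} {u v : R} (hu : Ge g m u) (hv : Ge g m' v) :
    Ge g (m + m') (u * v) := by
  intro i i' h
  have h1 : g.e i' * (u * v) * g.e i = ∑ l, (g.e i' * u * g.e l) * (g.e l * v * g.e i) := by
    have h2 : ∀ l, (g.e i' * u * g.e l) * (g.e l * v * g.e i) =
        g.e i' * u * g.e l * (v * g.e i) := by
      intro l
      calc (g.e i' * u * g.e l) * (g.e l * v * g.e i)
          = g.e i' * u * (g.e l * g.e l) * (v * g.e i) := by simp only [mul_assoc]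
        _ = g.e i' * u * g.e l * (v * g.e i) := by rw [g.mul_self]
    simp only [h2]
    rw [← Finset.sum_mul, ← Finset.mul_sum, g.sum, mul_one]
    simp only [mul_assoc]
  rw [h1]
  refine Finset.sum_eq_zero fun l _ => ?_
  by_cases hl : (l : ℤ) < (i : ℤ) + m'
  · rw [hv i l hl, mul_zero]
  · rw [hu l i' (by omega), zero_mul]

private theorem GeF_ooo {m : ℤ} {u v w : R} (hv : Ge g 0 v) (hu : Ge g m u) (hw : Ge g 0 w) :
    Ge g m (v * u * w) := by
  have h := GeF_mul g (GeF_mul g hv hu) hw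
  rwa [zero_add, add_zero] at h

private theorem GeF_sgn : Ge g 0 (sgn g) := by
  unfold sgn
  rw [sub_eq_add_neg, two_mul]
  exact GeF_add g (GeF_one g) (GeF_neg g (GeF_add g (GeF_od g) (GeF_od g)))

private theorem GeF_ev : Ge g 0 (1 - g.od) := by
  rw [sub_eq_add_neg]
  exact GeF_add g (GeF_one g) (GeF_neg g (GeF_od g))

end

/-- Properties of `Ge`. -/
theorem sGeF : S_GeF := by
  intro R _ N g
  refine ⟨?_, fun m u v => GeF_add g, fun m u => GeF_neg g, fun m m' u v => GeF_mul g, ?_,
    fun m u => GeF_hm g, ?_, ?_, ?_, ?_⟩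
  · intro m i i' _
    rw [mul_zero, zero_mul]
  · intro m m' u hm hu i i' h
    exact hu i i' (by omega)
  · intro m hm u hu
    refine GeF_zero_of g fun i j => hu i j ?_
    have := j.2
    omega
  · intro m u hu
    exact GeF_ooo g (GeF_sgn g) hu (GeF_sgn g)
  · intro m u hu
    exact GeF_add g (GeF_ooo g (GeF_od g) hu (GeF_ev g)) (GeF_ooo g (GeF_ev g) hu (GeF_od g))
  · have h := GeF_od_od g
    unfold sgn
    have e : (1 - 2 * g.od) * (1 - 2 * g.od) = 1 - 4 * g.od + 4 * (g.od * g.od) := by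
      noncomm_ring
    rw [e, h]
    abel

end HKx
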