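import Pool.Agent.Lib.MP_181146_gt.HK.SpecH

/-! # HK: gradings of `V × W` -/

set_option autoImplicit false

namespace HKx

open HEp HPx

theorem sGr2 : S_Gr2 := by
  intro L _ V W _ _ _ _ N g g'
  refine ⟨?_, ?_, ?_, ?_⟩
  · unfold Gd.od
    have e : ∀ i : Fin N, (if Odd (i : ℕ) then (Gd2 N g g').e i else 0) =
        dg2 (L := L) (V := V) (W := W)
          (if Odd (i : ℕ) then g.e i else 0, if Odd (i : ℕ) then g'.e i else 0) := by
      intro i
      by_cases h : Odd (i : ℕ)
      · rw [if_pos h, if_pos h, if_pos h]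
        rfl
      · rw [if_neg h, if_neg h, if_neg h]
        exact (map_zero (dg2 (L := L) (V := V) (W := W))).symm
    rw [Finset.sum_congr rfl (fun i _ => e i), ← map_sum]
    refine congrArg _ ?_
    refine Prod.ext ?_ ?_
    · rw [Prod.fst_sum]
    · rw [Prod.snd_sum]
  · intro m x y hx hy i j hij
    change dg2 (L := L) (g.e j, g'.e j) * dg2 (x, y) * dg2 (g.e i, g'.e i) = 0
    rw [← map_mul, ← map_mul]
    have e : (g.e j, g'.e j) * (x, y) * (g.e i, g'.e i) =
        (0 : Module.End L V × Module.End L W) := Prod.ext (hx i j hij) (hy i j hij)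
    rw [e, map_zero]
  · intro m f hf i j hij
    apply LinearMap.ext
    rintro ⟨v, w⟩
    have h := LinearMap.congr_fun (hf i j hij) v
    refine Prod.ext ?_ ?_
    · change g.e j (0 : V) = 0
      exact map_zero _
    · exact h
  · intro m f hf i j hij
    apply LinearMap.ext
    rintro ⟨v, w⟩
    have h := LinearMap.congr_fun (hf i j hij) w
    refine Prod.ext ?_ ?_
    · exact h
    · change g'.e j (0 : W) = 0
      exact map_zero _

end HKx
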