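import Pool.Agent.Lib.MP_181146_gt.HK.SpecH
import Pool.Agent.Lib.MP_181146_gt.HP.GdM

/-!
# Project HK: the idempotent of a homotopy idempotent depends only on the homotopy class

`fR k (X0 ..)` with `N ≤ 2 ^ k` is idempotent, and up to conjugation it depends only on the homotopy
class of `p` and not on the homotopy `K`.
-/

set_option autoImplicit false

namespace HKx

open HEp HPx

private lemma hinvY {R : Type} [Ring R] {N : ℕ} (F : Flt R N) (Y Z : R) (hZ : Z ∈ F.E 0)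
    (hZZ : Z * Z - Z ∈ F.E 1) (hYZ : Y - Z ∈ F.E 1) : Y ∈ F.E 0 ∧ Y * Y - Y ∈ F.E 1 := by
  have h0 : Y - Z ∈ F.E 0 := F.anti 0 hYZ
  have hY : Y ∈ F.E 0 := by
    have h1 := (F.E 0).add_mem h0 hZ
    rwa [sub_add_cancel] at h1
  refine ⟨hY, ?_⟩
  have h1 : (Y - Z) * Y ∈ F.E 1 := F.mul 1 0 _ _ hYZ hY
  have h2 : Z * (Y - Z) ∈ F.E 1 := by
    have h3 := F.mul 0 1 _ _ hZ hYZ
    rwa [zero_add] at h3
  have h4 : Y * Y - Y = (Y - Z) * Y + Z * (Y - Z) + (Z * Z - Z) - (Y - Z) := by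
    noncomm_ring
  rw [h4]
  exact (F.E 1).sub_mem ((F.E 1).add_mem ((F.E 1).add_mem h1 h2) hZZ) hYZ

/-- **HInv.** The idempotent attached to a homotopy idempotent. -/
theorem sHInv (hEF : S_EF) (hfRP : S_fRP) (hfRF : S_fRF) (hCj : S_Cj) (hX0F : S_X0F)
    (hHinF : S_HinF) : S_HInv := by
  intro R _ N g d hd hdd p K c K' hp hpd hK hK' hc h h' k hk
  obtain ⟨F, hF⟩ := hEF R N g d hd hdd
  obtain ⟨-, -, hAdd, -, hMul⟩ := HPx.sGdM R N g
  obtain ⟨K2, u1, v1, hK2, h2, huv, hvu, hX⟩ := hHinF R N g d hd hdd F hF p K c hp hpd hK h hc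
  -- the element `q`
  have hdc : g.Hm 0 (d * c) := by
    have := hMul 1 (-1) c d hc hd
    rwa [show (1 : ℤ) + -1 = 0 by norm_num] at this
  have hcd : g.Hm 0 (c * d) := by
    have := hMul (-1) 1 d c hd hc
    rwa [show (-1 : ℤ) + 1 = 0 by norm_num] at this
  have hq : g.Hm 0 (p + (d * c + c * d)) := hAdd 0 _ _ hp (hAdd 0 _ _ hdc hcd)
  have hqd : (p + (d * c + c * d)) * d = d * (p + (d * c + c * d)) := by
    have e1 : (p + (d * c + c * d)) * d = p * d + d * c * d + c * (d * d) := by noncomm_ring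
    have e2 : d * (p + (d * c + c * d)) = d * p + d * d * c + d * c * d := by noncomm_ring
    rw [e1, e2, hdd, hpd]
    simp only [mul_zero, zero_mul, add_zero]
  -- the elements `X0`
  obtain ⟨hA0, hA1, -⟩ := hX0F R N g d hd hdd F hF p K K hp hpd hK hK h h
  obtain ⟨-, -, hB⟩ := hX0F R N g d hd hdd F hF _ K2 K' hq hqd hK2 hK' h2 h'
  obtain ⟨hC0, hC1, -⟩ := hX0F R N g d hd hdd F hF _ K' K' hq hqd hK' hK' h' h'
  generalize X0 g.od d p K = X at hA0 hA1 hX ⊢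
  generalize X0 g.od d (p + (d * c + c * d)) K2 = Z2 at hB hX
  generalize X0 g.od d (p + (d * c + c * d)) K' = Z at hB hC0 hC1 ⊢
  have hYZ : u1 * X * v1 - Z ∈ F.E 1 := by
    have := (F.E 1).add_mem hX hB
    rwa [sub_add_sub_cancel] at this
  obtain ⟨hY0, hY1⟩ := hinvY F (u1 * X * v1) Z hC0 hC1 hYZ
  obtain ⟨-, -, -, hXi⟩ := hfRF R N F X hA0 hA1 k
  obtain ⟨-, hYc, -, hYi⟩ := hfRF R N F _ hY0 hY1 k
  obtain ⟨hZ0, hZc, -, hZi⟩ := hfRF R N F Z hC0 hC1 k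
  refine ⟨hXi hk, ?_⟩
  have hfYZ : fR k (u1 * X * v1) - fR k Z ∈ F.E 1 := by
    have e : fR k (u1 * X * v1) - fR k Z =
        (fR k (u1 * X * v1) - u1 * X * v1) + (u1 * X * v1 - Z) - (fR k Z - Z) := by abel
    rw [e]
    exact (F.E 1).sub_mem ((F.E 1).add_mem hYc hYZ) hZc
  obtain ⟨u, v, huv', hvu', huY⟩ := hCj R N F _ _ (hYi hk) (hZi hk) hZ0 hfYZ
  rw [(hfRP.2 R k).2.1 u1 v1 X hvu] at huY
  refine ⟨u * u1, v1 * v, ?_, ?_, ?_⟩
  · rw [mul_assoc, ← mul_assoc u1, huv, one_mul, huv']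
  · rw [mul_assoc, ← mul_assoc v, hvu', one_mul, hvu]
  · have e : u * (u1 * fR k X * v1) * u1 = u * u1 * fR k X := by
      rw [mul_assoc u, mul_assoc (u1 * fR k X), hvu, mul_one, mul_assoc u]
    rw [← e, huY, mul_assoc]

end HKx
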