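import Pool.Agent.Lib.MP_181146_gt.HK.SpecH

/-!
# Homotopy invariance (HinF)

Conjugation by `1 - c s` carries the element of `(p, K)` to the element of `(q, K')`, modulo `E 1`.
-/

set_option autoImplicit false

namespace HKx

open HEp HPx

/-- The homotopy of `q = p + (d c + c d)`. -/
private lemma hinHt {R : Type} [Ring R] (d p K c : R) (hdd : d * d = 0) (hpd : p * d = d * p)
    (h : p - p * p = d * K + K * d) :
    (p + (d * c + c * d)) - (p + (d * c + c * d)) * (p + (d * c + c * d)) =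
      d * (K + c - p * c - c * (p + (d * c + c * d))) +
        (K + c - p * c - c * (p + (d * c + c * d))) * d := by
  have r1 : ∀ x : R, d * (d * x) = 0 := fun x => by rw [← mul_assoc, hdd, zero_mul]
  have r2 : ∀ x : R, p * (d * x) = d * (p * x) := fun x => by
    rw [← mul_assoc, hpd, mul_assoc]
  have h' : d * K = p - p * p - K * d := by rw [h]; abel
  simp only [mul_add, add_mul, mul_sub, sub_mul, mul_assoc, hdd, hpd, r1, r2, h', mul_zero]
  abel

/-- The conjugate of the element of `(p, K)`. -/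
private lemma hinCj {R : Type} [Ring R] (o d p K c : R) (hoo : o * o = o)
    (hod : o * d = d * (1 - o)) (hoK : o * K = K * (1 - o)) (hoc : o * c = c * (1 - o))
    (hop : o * p = p * o) :
    (1 - c * (1 - 2 * o)) * X0 o d p K * (1 + c * (1 - 2 * o)) -
      X0 o d (p + (d * c + c * d)) (K + c - p * c - c * (p + (d * c + c * d))) =
    (K * c + c * K) * (1 - 2 * o) + c * c * (1 - o) - c * p * c * (1 - 2 * o) + c * c * d -
      c * K * c := by
  have hod' : o * d = d - d * o := by rw [hod, mul_sub, mul_one]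
  have hoK' : o * K = K - K * o := by rw [hoK, mul_sub, mul_one]
  have hoc' : o * c = c - c * o := by rw [hoc, mul_sub, mul_one]
  have r3 : ∀ x : R, o * (c * x) = c * x - c * (o * x) := fun x => by
    rw [← mul_assoc, hoc', sub_mul, mul_assoc]
  have r4 : ∀ x : R, o * (p * x) = p * (o * x) := fun x => by
    rw [← mul_assoc, hop, mul_assoc]
  unfold X0
  simp only [two_mul, mul_add, add_mul, mul_sub, sub_mul, mul_one, one_mul, mul_assoc, hoo, hod',
    hoK', hoc', hop, r3, r4]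
  abel

theorem sHinF (hDjF : S_DjF) (hGeF : S_GeF) (hGdO : HPx.S_GdO) (hGdM : HPx.S_GdM)
    (hGdN : HPx.S_GdN) : S_HinF := by
  intro R _ N g d hd hdd F hF p K c hp hpd hK h hc
  obtain ⟨hoo, hO⟩ := hGdO R N g
  obtain ⟨-, hZero, hAdd, hNeg, hMul⟩ := hGdM R N g
  obtain ⟨-, hGadd, -, -, hGanti, hGHm, -, -, -, hss⟩ := hGeF R N g
  obtain ⟨-, -, -, -, -, hDGe, -, -, -, -, -, -⟩ := hDjF R N g d hd hdd
  obtain ⟨hF1, hF2, hF3⟩ := hF
  have hod : g.od * d = d * (1 - g.od) := (hO (-1) d hd).2 (by decide)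
  have hoK : g.od * K = K * (1 - g.od) := (hO 1 K hK).2 (by decide)
  have hoc : g.od * c = c * (1 - g.od) := (hO 1 c hc).2 (by decide)
  have hop : g.od * p = p * g.od := (hO 0 p hp).1 (by decide)
  -- degrees
  have hdc : g.Hm 0 (d * c) := by
    have := hMul 1 (-1) c d hc hd
    simpa using this
  have hcd : g.Hm 0 (c * d) := by
    have := hMul (-1) 1 d c hd hc
    simpa using this
  have hq : g.Hm 0 (p + (d * c + c * d)) := hAdd 0 _ _ hp (hAdd 0 _ _ hdc hcd)
  have hpc : g.Hm 1 (p * c) := by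
    have := hMul 1 0 c p hc hp
    simpa using this
  have hcq : g.Hm 1 (c * (p + (d * c + c * d))) := by
    have := hMul 0 1 _ c hq hc
    simpa using this
  have hK' : g.Hm 1 (K + c - p * c - c * (p + (d * c + c * d))) := by
    rw [sub_eq_add_neg, sub_eq_add_neg]
    exact hAdd 1 _ _ (hAdd 1 _ _ (hAdd 1 _ _ hK hc) (hNeg 1 _ hpc)) (hNeg 1 _ hcq)
  have hE1 : ∀ x, g.Hm 2 x → x ∈ F.E 1 := fun x hx => by
    apply hF1 1 x
    apply hDGe
    have := hGHm 2 x hx
    simpa using this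
  have hcc : c * c ∈ F.E 1 := hE1 _ (hMul 1 1 c c hc hc)
  have hKc : K * c ∈ F.E 1 := hE1 _ (hMul 1 1 c K hc hK)
  have hcK : c * K ∈ F.E 1 := hE1 _ (hMul 1 1 K c hK hc)
  have hcpc : c * p * c ∈ F.E 1 := by
    have h1 : g.Hm 1 (c * p) := by
      have := hMul 0 1 p c hp hc
      simpa using this
    exact hE1 _ (hMul 1 1 c (c * p) hc h1)
  -- elements of `E 0`
  have hscs : sgn g * c * sgn g = -c := by
    have h1 : sgn g * c = -(c * sgn g) := by
      unfold sgn
      rw [sub_mul, mul_assoc, hoc]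
      noncomm_ring
    rw [h1, neg_mul, mul_assoc, hss, mul_one]
  have hc0 : c ∈ F.E 0 := by
    apply hF1 0 c
    constructor
    · exact hGanti _ 1 c (by norm_num) (hGHm 1 c hc)
    · have h1 : dlt g d c = d * c + c * d := by
        unfold dlt
        rw [hscs, neg_mul, sub_neg_eq_add]
      rw [h1]
      have := hGHm 0 _ (hAdd 0 _ _ hdc hcd)
      simpa using this
  have hone := F.one
  have m00 : ∀ x y, x ∈ F.E 0 → y ∈ F.E 0 → x * y ∈ F.E 0 := fun x y hx hy => F.mul 0 0 x y hx hy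
  have m01 : ∀ x y, x ∈ F.E 0 → y ∈ F.E 1 → x * y ∈ F.E 1 := fun x y hx hy => F.mul 0 1 x y hx hy
  have m10 : ∀ x y, x ∈ F.E 1 → y ∈ F.E 0 → x * y ∈ F.E 1 := fun x y hx hy => F.mul 1 0 x y hx hy
  have hs0 : 1 - 2 * g.od ∈ F.E 0 := by
    rw [two_mul]
    exact (F.E 0).sub_mem hone ((F.E 0).add_mem hF3 hF3)
  have hcs0 : c * (1 - 2 * g.od) ∈ F.E 0 := m00 _ _ hc0 hs0
  have hp0 : p ∈ F.E 0 := by
    apply hF1 0 p
    constructor
    · have := hGHm 0 p hp
      simpa using this
    · have h1 : dlt g d p = 0 := by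
        have h2 : sgn g * p = p * sgn g := by
          unfold sgn
          rw [sub_mul, mul_assoc, hop]
          noncomm_ring
        unfold dlt
        rw [h2, mul_assoc p, hss, mul_one, hpd, sub_self]
      rw [h1]
      have := hGHm 0 _ (hZero 0)
      simpa using this
  have hK0 : K ∈ F.E 0 := by
    apply hF1 0 K
    constructor
    · exact hGanti _ 1 K (by norm_num) (hGHm 1 K hK)
    · have h1 : dlt g d K = d * K + K * d := by
        have h2 : sgn g * K = -(K * sgn g) := by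
          unfold sgn
          rw [sub_mul, mul_assoc, hoK]
          noncomm_ring
        unfold dlt
        rw [h2, neg_mul, mul_assoc K, hss, mul_one, neg_mul, sub_neg_eq_add]
      rw [h1, ← h, sub_eq_add_neg]
      have h3 : g.Hm 0 (p * p) := by
        have := hMul 0 0 p p hp hp
        simpa using this
      have := hGHm 0 _ (hAdd 0 _ _ hp (hNeg 0 _ h3))
      simpa using this
  have hX0 : X0 g.od d p K ∈ F.E 0 :=
    (F.E 0).add_mem ((F.E 0).add_mem ((F.E 0).add_mem hF3 (m00 _ _ hp0 hs0)) hF2) hK0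
  -- the unit
  have hsq : c * (1 - 2 * g.od) * (c * (1 - 2 * g.od)) = -(c * c) := by
    have h1 : c * (1 - 2 * g.od) * (c * (1 - 2 * g.od)) = c * (sgn g * c * sgn g) := by
      unfold sgn
      noncomm_ring
    rw [h1, hscs, mul_neg]
  have hnil : (c * (1 - 2 * g.od)) ^ (2 * N) = 0 := by
    have h1 : (c * c) ^ N = 0 := hGdN R N g 2 (c * c) (by norm_num) (hMul 1 1 c c hc hc)
    rw [pow_mul, pow_two, hsq, neg_pow, h1, mul_zero]
  have hpow : ∀ i : ℕ, (c * (1 - 2 * g.od)) ^ i ∈ F.E 0 := by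
    intro i
    induction i with
    | zero => rw [pow_zero]; exact hone
    | succ i ih => rw [pow_succ]; exact m00 _ _ ih hcs0
  obtain ⟨v, hv⟩ : ∃ v, v = ∑ i ∈ Finset.range (2 * N), (c * (1 - 2 * g.od)) ^ i := ⟨_, rfl⟩
  have huv : (1 - c * (1 - 2 * g.od)) * v = 1 := by
    rw [hv, mul_neg_geom_sum, hnil, sub_zero]
  have hvu : v * (1 - c * (1 - 2 * g.od)) = 1 := by
    rw [hv, geom_sum_mul_neg, hnil, sub_zero]
  have hv0 : v ∈ F.E 0 := by
    rw [hv]
    exact (F.E 0).sum_mem fun i _ => hpow i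
  have hv1 : v = 1 + c * (1 - 2 * g.od) - c * c * v := by
    have h1 : v = 1 + c * (1 - 2 * g.od) * v := by
      have h0 := huv
      rw [sub_mul, one_mul] at h0
      exact sub_eq_iff_eq_add.mp h0
    have h2 : c * (1 - 2 * g.od) * v =
        c * (1 - 2 * g.od) + c * (1 - 2 * g.od) * (c * (1 - 2 * g.od)) * v := by
      conv_lhs => rw [h1]
      rw [mul_add, mul_one, mul_assoc (c * (1 - 2 * g.od)) (c * (1 - 2 * g.od)) v]
    rw [hsq, neg_mul] at h2
    calc v = 1 + c * (1 - 2 * g.od) * v := h1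
      _ = 1 + c * (1 - 2 * g.od) - c * c * v := by rw [h2]; abel
  refine ⟨K + c - p * c - c * (p + (d * c + c * d)), 1 - c * (1 - 2 * g.od), v, hK',
    hinHt d p K c hdd hpd h, huv, hvu, ?_⟩
  have e1 : (1 - c * (1 - 2 * g.od)) * X0 g.od d p K * v =
      (1 - c * (1 - 2 * g.od)) * X0 g.od d p K * (1 + c * (1 - 2 * g.od)) -
        (1 - c * (1 - 2 * g.od)) * X0 g.od d p K * (c * c * v) := by
    rw [← mul_sub, ← hv1]
  have e2 := hinCj g.od d p K c hoo hod hoK hoc hop
  have e3 : (1 - c * (1 - 2 * g.od)) * X0 g.od d p K * v -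
      X0 g.od d (p + (d * c + c * d)) (K + c - p * c - c * (p + (d * c + c * d))) =
      ((K * c + c * K) * (1 - 2 * g.od) + c * c * (1 - g.od) - c * p * c * (1 - 2 * g.od) +
        c * c * d - c * K * c) -
      (1 - c * (1 - 2 * g.od)) * X0 g.od d p K * (c * c * v) := by
    rw [e1, ← e2]
    abel
  rw [e3]
  have ho1 : 1 - g.od ∈ F.E 0 := (F.E 0).sub_mem hone hF3
  refine (F.E 1).sub_mem ((F.E 1).sub_mem ((F.E 1).add_mem ((F.E 1).sub_mem ((F.E 1).add_mem
    ?_ ?_) ?_) ?_) ?_) ?_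
  · exact m10 _ _ ((F.E 1).add_mem hKc hcK) hs0
  · exact m10 _ _ hcc ho1
  · exact m10 _ _ hcpc hs0
  · exact m10 _ _ hcc hF2
  · exact m10 _ _ hcK hc0
  · exact m01 _ _ (m00 _ _ ((F.E 0).sub_mem hone hcs0) hX0) (m10 _ _ hcc hv0)

end HKx
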