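import Pool.Agent.Lib.MP_181146_gt.HK.SpecH

/-!
# Project HK, statement IclA

Conjugate idempotents have isomorphic images; `V` is the sum of the images of `x` and `1 - x`.
-/

set_option autoImplicit false

namespace HKx

open HEp HPx

section

variable {L : Type} [CommRing L] {V : Type} [AddCommGroup V] [Module L V]

/-- The image of `x` is isomorphic to the image of a conjugate `y` of `x`. -/
private def rangeEquiv (x y u v : Module.End L V) (h1 : u * v = 1) (h2 : v * u = 1)
    (h : u * x = y * u) : LinearMap.range x ≃ₗ[L] LinearMap.range y := by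
  have a1 : ∀ z, u (v z) = z := fun z => LinearMap.congr_fun h1 z
  have a2 : ∀ z, v (u z) = z := fun z => LinearMap.congr_fun h2 z
  have a3 : ∀ z, u (x z) = y (u z) := fun z => LinearMap.congr_fun h z
  have b1 : ∀ z : LinearMap.range x, u z.1 ∈ LinearMap.range y := by
    rintro ⟨_, w, rfl⟩
    exact ⟨u w, (a3 w).symm⟩
  have b2 : ∀ z : LinearMap.range y, v z.1 ∈ LinearMap.range x := by
    rintro ⟨_, w, rfl⟩
    refine ⟨v w, ?_⟩
    rw [← a2 (x (v w)), a3, a1]
  refine LinearEquiv.ofLinearMap
    (LinearMap.codRestrict (LinearMap.range y) (u ∘ₗ (LinearMap.range x).subtype) b1)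
    (LinearMap.codRestrict (LinearMap.range x) (v ∘ₗ (LinearMap.range y).subtype) b2) ?_ ?_
  · apply LinearMap.ext
    intro z
    exact Subtype.ext (a1 z.1)
  · apply LinearMap.ext
    intro z
    exact Subtype.ext (a2 z.1)

/-- `V` is the product of the images of `x` and `1 - x`. -/
private def splitEquiv (x : Module.End L V) (hx : x * x = x) :
    (LinearMap.range x × LinearMap.range (1 - x)) ≃ₗ[L] V := by
  have a1 : ∀ z, x (x z) = x z := fun z => LinearMap.congr_fun hx z
  refine LinearEquiv.ofLinearMap
    (LinearMap.coprod (LinearMap.range x).subtype (LinearMap.range (1 - x)).subtype)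
    (LinearMap.prod (LinearMap.rangeRestrict x) (LinearMap.rangeRestrict (1 - x))) ?_ ?_
  · apply LinearMap.ext
    intro z
    change x z + (z - x z) = z
    abel
  · apply LinearMap.ext
    rintro ⟨⟨_, w, rfl⟩, ⟨_, w', rfl⟩⟩
    refine Prod.ext (Subtype.ext ?_) (Subtype.ext ?_)
    · change x (x w + (w' - x w')) = x w
      rw [map_add, map_sub, a1, a1, sub_self, add_zero]
    · change (x w + (w' - x w')) - x (x w + (w' - x w')) = w' - x w'
      rw [map_add, map_sub, a1, a1, sub_self, add_zero]
      abel

end

theorem sIclA : S_IclA := by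
  intro L _ V _ _ _ _
  refine ⟨fun x y u v hx h1 h2 h => ?_, fun x hx => ?_⟩
  · have hy0 : y = u * x * v := by rw [h, mul_assoc, h1, mul_one]
    have hy : y * y = y := by
      calc y * y = u * x * v * (u * x * v) := by rw [← hy0]
        _ = u * (x * (v * u * x)) * v := by simp only [mul_assoc]
        _ = y := by rw [h2, one_mul, hx, ← hy0]
    have := rangeProj x hx
    have := rangeProj y hy
    rw [icl_eq x hx, icl_eq y hy]
    exact cl_congr (rangeEquiv x y u v h1 h2 h)
  · have hx' : (1 - x) * (1 - x) = 1 - x := by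
      rw [mul_sub, mul_one, sub_mul, one_mul, hx, sub_self, sub_zero]
    have := rangeProj x hx
    have := rangeProj (1 - x) hx'
    rw [icl_eq x hx, icl_eq (1 - x) hx', ← cl_prod]
    exact cl_congr (splitEquiv x hx)

end HKx
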