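import Pool.Agent.Lib.MP_181146_gt.HK.SpecH

/-!
# Project HK: block triangular idempotents
-/

set_option autoImplicit false

namespace HKx

open HEp HPx

section

variable {L : Type} [CommRing L] {ι : Type} [Fintype ι] [DecidableEq ι] {V : ι → Type}
  [∀ x, AddCommGroup (V x)] [∀ x, Module L (V x)]

private lemma bc_add' (u v : Module.End L (∀ x, V x)) (x y : ι) (w : V x) :
    bc (u + v) x y w = bc u x y w + bc v x y w := rfl

private lemma bc_neg' (u : Module.End L (∀ x, V x)) (x y : ι) (w : V x) :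
    bc (-u) x y w = -bc u x y w := rfl

private lemma bc_sub' (u v : Module.End L (∀ x, V x)) (x y : ι) (w : V x) :
    bc (u - v) x y w = bc u x y w - bc v x y w := rfl

private lemma eq_zero_of_bc (u : Module.End L (∀ x, V x))
    (h : ∀ x y w, bc u x y w = 0) : u = 0 := by
  apply LinearMap.ext
  intro w
  rw [LinearMap.zero_apply, ← Finset.univ_sum_single w, map_sum]
  refine Finset.sum_eq_zero fun x _ => ?_
  funext y
  exact h x y (w x)

private lemma bc_bdg (u : ∀ x, Module.End L (V x)) (x y : ι) (w : V x) (hxy : x ≠ y) :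
    bc (bdg u) x y w = 0 := by
  have h1 : bc (bdg u) x y w = u y ((Pi.single x w : ∀ x, V x) y) := rfl
  rw [h1, Pi.single_eq_of_ne (Ne.symm hxy), map_zero]

private lemma bc_bdg_self (u : ∀ x, Module.End L (V x)) (x : ι) (w : V x) :
    bc (bdg u) x x w = u x w := by
  have h1 : bc (bdg u) x x w = u x ((Pi.single x w : ∀ x, V x) x) := rfl
  rw [h1, Pi.single_eq_same]

/-- The positions allowed in level `m`. -/
private def cnd (lev : ι → ℕ) (m : ℕ) (x y : ι) : Prop :=
  (x = y ∧ m = 0) ∨ (lev y + m ≤ lev x ∧ lev y < lev x)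

/-- The filtration by the levels. -/
private def FE (lev : ι → ℕ) (m : ℕ) : AddSubgroup (Module.End L (∀ x, V x)) where
  carrier := {u | ∀ x y, ¬ cnd lev m x y → ∀ w, bc u x y w = 0}
  add_mem' := by
    intro u v hu hv x y hxy w
    rw [bc_add', hu x y hxy w, hv x y hxy w, add_zero]
  zero_mem' := by
    intro x y _ w
    rfl
  neg_mem' := by
    intro u hu x y hxy w
    rw [bc_neg', hu x y hxy w, neg_zero]

private def FF (lev : ι → ℕ) (N : ℕ) (hN : ∀ x, lev x < N) :
    Flt (Module.End L (∀ x, V x)) N where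
  E := FE lev
  one := by
    intro x y hxy w
    have h1 : x ≠ y := fun h => hxy (Or.inl ⟨h, rfl⟩)
    have h2 : bc (1 : Module.End L (∀ x, V x)) x y w = (Pi.single x w : ∀ x, V x) y := rfl
    rw [h2, Pi.single_eq_of_ne (Ne.symm h1)]
  mul := by
    intro i j u v hu hv x y hxy w
    rw [bc_mul]
    refine Finset.sum_eq_zero fun z _ => ?_
    by_cases h1 : cnd lev j x z
    · by_cases h2 : cnd lev i z y
      · exfalso
        apply hxy
        rcases h1 with ⟨h1, h1'⟩ | ⟨h1, h1'⟩
        · subst h1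
          rcases h2 with ⟨h2, h2'⟩ | ⟨h2, h2'⟩
          · exact Or.inl ⟨h2, by omega⟩
          · exact Or.inr ⟨by omega, h2'⟩
        · rcases h2 with ⟨h2, h2'⟩ | ⟨h2, h2'⟩
          · subst h2
            exact Or.inr ⟨by omega, h1'⟩
          · exact Or.inr ⟨by omega, by omega⟩
      · exact hu z y h2 _
    · rw [hv x z h1 w, map_zero]
  anti := by
    intro i u hu x y hxy w
    refine hu x y (fun h => hxy ?_) w
    rcases h with ⟨_, h⟩ | ⟨h, h'⟩
    · omega
    · exact Or.inr ⟨by omega, h'⟩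
  top := by
    intro u hu
    apply eq_zero_of_bc
    intro x y w
    refine hu x y (fun h => ?_) w
    have h0 := hN x
    rcases h with ⟨_, h⟩ | ⟨h, _⟩
    · omega
    · omega

private lemma range_bdg_equiv (u : ∀ x, Module.End L (V x)) :
    Nonempty (LinearMap.range (bdg u) ≃ₗ[L] ∀ x, LinearMap.range (u x)) := by
  refine ⟨⟨⟨⟨fun z => fun x => ⟨z.1 x, ?_⟩, ?_⟩, ?_⟩, fun w => ⟨fun x => (w x).1, ?_⟩, ?_, ?_⟩⟩
  · obtain ⟨y, hy⟩ := z.2
    exact ⟨y x, congrFun hy x⟩
  · intro a b
    rfl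
  · intro c a
    rfl
  · have h : ∀ x, ∃ y, u x y = (w x).1 := fun x => (w x).2
    choose y hy using h
    exact ⟨y, funext hy⟩
  · intro z
    rfl
  · intro w
    rfl

end

theorem sIclC (hCj : S_Cj) (hIclA : S_IclA) (hKPi : HEp.S_KPi) : S_IclC := by
  intro L _ ι _ _ V _ _ _ _ lev X hX
  obtain ⟨N, hN⟩ : ∃ N, ∀ x, lev x < N :=
    ⟨1 + Finset.univ.sup lev, fun x => by
      have := Finset.le_sup (f := lev) (Finset.mem_univ x)
      omega⟩
  let u : ∀ x, Module.End L (V x) := fun x => dgc lev x X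
  have hu : ∀ x, u x * u x = u x := by
    intro x
    change dgc lev x X * dgc lev x X = dgc lev x X
    rw [← map_mul, hX]
  have hX1 : X.1 * X.1 = X.1 := congrArg Subtype.val hX
  have hD : bdg u * bdg u = bdg u := by
    rw [← map_mul]
    congr 1
    funext x
    exact hu x
  have hD0 : bdg u ∈ (FF (L := L) (V := V) lev N hN).E 0 := by
    intro x y hxy w
    exact bc_bdg u x y w (fun h => hxy (Or.inl ⟨h, rfl⟩))
  have hXD : X.1 - bdg u ∈ (FF (L := L) (V := V) lev N hN).E 1 := by
    intro x y hxy w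
    rw [bc_sub']
    by_cases h : x = y
    · subst h
      rw [bc_bdg_self]
      exact sub_self _
    · rw [bc_bdg u x y w h, sub_zero]
      refine X.2 x y h (fun h2 => hxy (Or.inr ⟨by omega, h2⟩)) w
  obtain ⟨a, b, hab, hba, hc⟩ := hCj (Module.End L (∀ x, V x)) N (FF lev N hN) X.1 (bdg u)
    hX1 hD hD0 hXD
  have h1 : icl X.1 = icl (bdg u) := (hIclA L (∀ x, V x)).1 X.1 (bdg u) a b hX1 hab hba hc
  haveI := rangeProj (bdg u) hD
  haveI : ∀ x, Module.Projective L (LinearMap.range (u x)) := fun x => rangeProj (u x) (hu x)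
  obtain ⟨e⟩ := range_bdg_equiv u
  rw [h1, icl_eq (bdg u) hD, cl_congr e, hKPi L ι (fun x => LinearMap.range (u x))]
  refine Finset.sum_congr rfl fun x _ => ?_
  exact (icl_eq (u x) (hu x)).symm

end HKx
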