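import Pool.Agent.Lib.MP_181146_gt.HK.SpecH

/-!
# Project HK, statement IclD

The image of the block diagonal idempotent `dg2 (x, y)` is the product of the images of `x` and `y`.
-/

set_option autoImplicit false

namespace HKx

open HEp HPx

section

variable {L : Type} [CommRing L] {V W : Type} [AddCommGroup V] [Module L V] [AddCommGroup W]
  [Module L W]

/-- The image of `dg2 (x, y)` is the product of the images. -/
private def rangeProdEquiv (x : Module.End L V) (y : Module.End L W) :
    LinearMap.range (dg2 (x, y)) ≃ₗ[L] (LinearMap.range x × LinearMap.range y) := by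
  have b1 : ∀ z : LinearMap.range (dg2 (x, y)), z.1.1 ∈ LinearMap.range x := by
    rintro ⟨_, w, rfl⟩
    exact ⟨w.1, rfl⟩
  have b2 : ∀ z : LinearMap.range (dg2 (x, y)), z.1.2 ∈ LinearMap.range y := by
    rintro ⟨_, w, rfl⟩
    exact ⟨w.2, rfl⟩
  have b3 : ∀ z : LinearMap.range x × LinearMap.range y,
      (z.1.1, z.2.1) ∈ LinearMap.range (dg2 (x, y)) := by
    rintro ⟨⟨_, w, rfl⟩, ⟨_, w', rfl⟩⟩
    exact ⟨(w, w'), rfl⟩
  exact
    { toFun := fun z => (⟨z.1.1, b1 z⟩, ⟨z.1.2, b2 z⟩)
      map_add' := fun _ _ => rfl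
      map_smul' := fun _ _ => rfl
      invFun := fun z => ⟨(z.1.1, z.2.1), b3 z⟩
      left_inv := fun _ => rfl
      right_inv := fun _ => rfl }

end

theorem sIclD : S_IclD := by
  intro L _ V W _ _ _ _ _ _ _ _ x y hx hy
  have h : dg2 (x, y) * dg2 (x, y) = dg2 (x, y) := by
    rw [← map_mul]
    congr 1
    exact Prod.ext hx hy
  have := rangeProj x hx
  have := rangeProj y hy
  have := rangeProj (dg2 (x, y)) h
  rw [icl_eq x hx, icl_eq y hy, icl_eq (dg2 (x, y)) h, ← cl_prod]
  exact cl_congr (rangeProdEquiv x y)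

end HKx
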