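import Pool.Agent.Lib.MP_181146_gt.HK.SpecH

/-!
# Project HK: the theorem of the K-theory part (S_KFin)
-/

set_option autoImplicit false

namespace HKx

open HEp HPx

section

variable {L : Type} [CommRing L] {V W : Type} [AddCommGroup V] [Module L V] [AddCommGroup W]
  [Module L W]

/-- `V → W` as an endomorphism of `V × W` -/
private def up (f : V →ₗ[L] W) : Module.End L (V × W) :=
  LinearMap.inr L V W ∘ₗ f ∘ₗ LinearMap.fst L V W

/-- `W → V` as an endomorphism of `V × W` -/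
private def dn (f : W →ₗ[L] V) : Module.End L (V × W) :=
  LinearMap.inl L V W ∘ₗ f ∘ₗ LinearMap.snd L V W

private lemma dg2_mul (a a' : Module.End L V) (b b' : Module.End L W) :
    dg2 (a, b) * dg2 (a', b') = dg2 (a * a', b * b') := rfl

private lemma dg2_add (a a' : Module.End L V) (b b' : Module.End L W) :
    dg2 (a, b) + dg2 (a', b') = dg2 (a + a', b + b') := rfl

private lemma dg2_neg (a : Module.End L V) (b : Module.End L W) :
    -dg2 (a, b) = dg2 (-a, -b) := (map_neg dg2 (a, b)).symm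

private lemma dg2_sub (a a' : Module.End L V) (b b' : Module.End L W) :
    dg2 (a, b) - dg2 (a', b') = dg2 (a - a', b - b') := (map_sub dg2 (a, b) (a', b')).symm

private lemma dg2_one : (1 : Module.End L (V × W)) = dg2 (1, 1) := rfl

private lemma dg2_zero : dg2 (0, 0) = (0 : Module.End L (V × W)) := rfl

end

private lemma anti2 {R : Type} [Ring R] {b a d : R} (h1 : a * d = -(d * a))
    (h2 : b * d = -(d * b)) : b * a * d = d * (b * a) := by
  rw [mul_assoc, h1, mul_neg, ← mul_assoc, h2, neg_mul, neg_neg, mul_assoc]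

private lemma odq {R : Type} [Ring R] (o d : R) : o + 1 * (1 - 2 * o) + d = 1 - o + d := by
  rw [one_mul, two_mul]
  abel

theorem sKFin (hCC : S_CC) (hCmpG : S_CmpG) (hEqv : S_Eqv) (hIclA : S_IclA) (hIclD : S_IclD)
    (hOdD : S_OdD) (hPar : S_Par) (hGr2 : S_Gr2) (hfRP : S_fRP) (hTotD : HPx.S_TotD)
    (hGdM : HPx.S_GdM) : S_KFin := by
  intro L _ B _ _ U _ _ _ _ lev N g n hn c M _ _ _ _ K hN hM dM ddM r
  obtain ⟨b1, k1, l1, K0, gb1, gK0, b1D, ab1, b1b1, pK, hk⟩ := hCC L B U lev N g n hn c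
  obtain ⟨hidC, hclC⟩ := hk N (Nat.lt_two_pow_self.le)
  obtain ⟨gdP, ddP⟩ := hTotD L M N dM ddM
  set gC : Gd (Module.End L (∀ x : B × Fin 2, U x.1)) N := GdPi N g with hgC
  set gP : Gd (Module.End L (TV M N)) N := stG L M N with hgP
  set dP : Module.End L (TV M N) := totd N dM with hdP
  obtain ⟨q1, q2, q3, q4⟩ := hGr2 L (∀ x : B × Fin 2, U x.1) (TV M N) N gC gP
  obtain ⟨m1, m0, madd, mneg, mmul⟩ := hGdM _ N gC
  have z0P : ∀ m, gP.Hm m 0 := (hGdM _ N gP).2.1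
  have DD : c.D.1 * c.D.1 = 0 := congrArg Subtype.val c.DD
  have aD : c.a.1 * c.D.1 = -(c.D.1 * c.a.1) := congrArg Subtype.val c.aD
  have bD : c.b.1 * c.D.1 = -(c.D.1 * c.b.1) := congrArg Subtype.val c.bD
  have ab : c.a.1 * c.b.1 + c.b.1 * c.a.1 = 1 + (c.D.1 * c.k.1 + c.k.1 * c.D.1) :=
    congrArg Subtype.val c.ab
  have g1P : gP.Hm 0 1 := (hGdM _ N gP).1
  -- the operators
  set G : Gd (Module.End L ((∀ x : B × Fin 2, U x.1) × TV M N)) N := Gd2 N gC gP with hG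
  set d : Module.End L ((∀ x : B × Fin 2, U x.1) × TV M N) := dg2 (c.D.1, dP) with hd
  set e : Module.End L ((∀ x : B × Fin 2, U x.1) × TV M N) := dg2 (1, 0) with he
  have hGd : G.Hm (-1) d := q2 _ _ _ c.gD gdP
  have hdd : d * d = 0 := by
    rw [hd, dg2_mul, DD, ddP]
    rfl
  have hee : e * e = e := by rw [he, dg2_mul, mul_one, mul_zero]
  have hGe : G.Hm 0 e := q2 _ _ _ m1 (z0P 0)
  have hed : e * d = d * e := by
    rw [he, hd, dg2_mul, dg2_mul, mul_one, one_mul, mul_zero, zero_mul]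
  have e1 : (1 : Module.End L ((∀ x : B × Fin 2, U x.1) × TV M N)) - e = dg2 (0, 1) := by
    rw [he, dg2_one, dg2_sub, sub_self, sub_zero]
  have lft : ∀ x : Module.End L (∀ x : B × Fin 2, U x.1), e * dg2 (x, 0) = dg2 (x, 0) ∧
      dg2 (x, 0) * e = dg2 (x, 0) := by
    intro x
    rw [he, dg2_mul, dg2_mul, mul_one, one_mul, mul_zero]
    exact ⟨rfl, rfl⟩
  have lfd : ∀ x : Module.End L (∀ x : B × Fin 2, U x.1), x * c.D.1 = -(c.D.1 * x) →
      dg2 (x, 0) * d = -(d * dg2 (x, 0)) := by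
    intro x hx
    rw [hd, dg2_mul, dg2_mul, dg2_neg, hx, zero_mul, mul_zero, neg_zero]
  obtain ⟨r', j', h', s', gr', gj', rd', jd', er', re', ej', je', rj', jr'⟩ := hCmpG _ N G n hn d
    hGd hdd e (dg2 (c.a.1, 0)) (dg2 (c.b.1, 0)) (dg2 (b1, 0)) (dg2 (0, r.aP)) (up r.ρ) (dn r.J)
    (dn r.io) hee hGe hed (q2 _ _ _ c.ga (z0P _)) (q2 _ _ _ c.gb (z0P _)) (q2 _ _ _ gb1 (z0P _))
    (q2 _ _ _ (m0 _) r.gaP)
    (q3 0 r.ρ (fun i j hij => r.gρ i j (by rwa [add_zero] at hij)))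
    (q4 0 r.J (fun i j hij => r.gJ i j (by rwa [add_zero] at hij)))
    (q4 n r.io r.gio) (lft _).1 (lft _).2 (lft _).1 (lft _).2 (lft _).1 (lft _).2
    (by rw [he, dg2_mul, mul_zero, zero_mul, dg2_zero])
    (by rw [he, dg2_mul, mul_zero, zero_mul, dg2_zero])
    (by
      apply LinearMap.ext
      rintro ⟨v, w⟩
      rfl)
    (by
      apply LinearMap.ext
      rintro ⟨v, w⟩
      rfl)
    (by
      apply LinearMap.ext
      rintro ⟨v, w⟩
      rfl)
    (by
      apply LinearMap.ext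
      rintro ⟨v, w⟩
      refine Prod.ext ?_ rfl
      exact map_zero r.J)
    (by
      apply LinearMap.ext
      rintro ⟨v, w⟩
      rfl)
    (by
      apply LinearMap.ext
      rintro ⟨v, w⟩
      refine Prod.ext ?_ rfl
      exact map_zero r.io)
    (lfd _ aD) (lfd _ bD) (lfd _ b1D)
    (by
      rw [hd, dg2_mul, dg2_mul, dg2_neg, zero_mul, mul_zero, neg_zero]
      refine congrArg (fun t => dg2 ((0 : Module.End L (∀ x : B × Fin 2, U x.1)), t)) ?_
      apply LinearMap.ext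
      intro x
      exact r.aPd x)
    (by
      apply LinearMap.ext
      rintro ⟨v, w⟩
      refine Prod.ext ?_ ?_
      · exact (map_zero c.D.1).symm
      · exact r.ρd v)
    (by
      apply LinearMap.ext
      rintro ⟨v, w⟩
      refine Prod.ext ?_ ?_
      · exact r.Jd w
      · exact (map_zero dP).symm)
    (by
      apply LinearMap.ext
      rintro ⟨v, w⟩
      refine Prod.ext ?_ ?_
      · exact r.iod w
      · change (0 : TV M N) = -(dP 0)
        rw [map_zero, neg_zero])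
    (dg2 (c.k.1, 0)) (dg2 (k1, 0)) (dg2 (l1, 0)) (dg2 (0, r.h1)) (dg2 (r.h2, 0)) (dg2 (0, r.h3))
    (up r.h4) (dn r.h5)
    (by
      rw [hd, he, dg2_mul, dg2_mul, dg2_add, dg2_mul, dg2_mul, dg2_add, dg2_add, ab]
      simp only [mul_zero, zero_mul, add_zero])
    (by
      rw [hd, he, dg2_mul, dg2_mul, dg2_add, dg2_mul, dg2_mul, dg2_add, dg2_add, ab1]
      simp only [mul_zero, zero_mul, add_zero])
    (by
      rw [hd, dg2_mul, dg2_mul, dg2_mul, dg2_add, b1b1]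
      simp only [mul_zero, zero_mul, add_zero])
    (by
      rw [e1, hd, dg2_mul, dg2_mul, dg2_add, dg2_add]
      apply LinearMap.ext
      rintro ⟨v, w⟩
      refine Prod.ext ?_ ?_
      · change (0 : ∀ x : B × Fin 2, U x.1) = ((0 : Module.End L (∀ x : B × Fin 2, U x.1)) +
          (c.D.1 * 0 + 0 * c.D.1)) v
        rw [mul_zero, zero_mul, add_zero, add_zero]
        rfl
      · exact r.ρJ w)
    (by
      rw [he, hd, dg2_mul, dg2_mul, dg2_add]
      apply LinearMap.ext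
      rintro ⟨v, w⟩
      refine Prod.ext ?_ ?_
      · exact r.Jρ v
      · change (0 : TV M N) = (0 : TV M N) + 0 + ((dP * 0 + 0 * dP : Module.End L (TV M N)) w)
        rw [mul_zero, zero_mul, add_zero, add_zero]
        exact (add_zero (0 : TV M N)).symm)
    (by
      rw [e1, hd, dg2_mul, dg2_mul, dg2_add, dg2_neg, dg2_add]
      apply LinearMap.ext
      rintro ⟨v, w⟩
      refine Prod.ext ?_ ?_
      · change (0 : ∀ x : B × Fin 2, U x.1) = ((-0 : Module.End L (∀ x : B × Fin 2, U x.1)) +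
          (c.D.1 * 0 + 0 * c.D.1)) v
        rw [mul_zero, zero_mul, add_zero, add_zero, neg_zero]
        rfl
      · exact r.βio w)
    (by
      apply LinearMap.ext
      rintro ⟨v, w⟩
      refine Prod.ext ?_ ?_
      · change (0 : ∀ x : B × Fin 2, U x.1) = 0 + (c.D.1 0 - 0)
        rw [map_zero, sub_zero, add_zero]
      · exact r.ρa v)
    (by
      apply LinearMap.ext
      rintro ⟨v, w⟩
      refine Prod.ext ?_ ?_
      · exact r.Ja w
      · change (0 : TV M N) = 0 + 0 + (dP 0 - 0)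
        rw [map_zero, sub_zero, add_zero, add_zero])
  -- the homotopy idempotent
  have hp : dg2 (b1, 0) * dg2 (c.a.1, 0) =
      (dg2 (b1 * c.a.1, 0) : Module.End L ((∀ x : B × Fin 2, U x.1) × TV M N)) := by
    rw [dg2_mul, mul_zero]
  rw [hp] at jr'
  have pD : b1 * c.a.1 * c.D.1 = c.D.1 * (b1 * c.a.1) := anti2 aD b1D
  have gp : gC.Hm 0 (b1 * c.a.1) := by
    have := mmul _ _ _ _ c.ga gb1
    rwa [show ((n : ℤ) + -n) = 0 by ring] at this
  obtain ⟨u, v, huv, hvu, hu⟩ := hEqv _ N G d hGd hdd e (dg2 (b1 * c.a.1, 0)) (dg2 (K0, 0)) r' j'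
    h' s' hee hGe hed (q2 _ _ _ gp (z0P _))
    (by rw [hd, dg2_mul, dg2_mul, zero_mul, mul_zero, pD])
    (lft _).1 (lft _).2 (q2 _ _ _ gK0 (z0P _))
    (by
      rw [hd, dg2_mul, dg2_mul, dg2_mul, dg2_add, dg2_sub, pK]
      simp only [mul_zero, zero_mul, add_zero, sub_zero])
    gr' gj' rd' jd' er' re' ej' je' rj' jr' N (Nat.lt_two_pow_self.le)
  -- block form
  have odG : G.od = dg2 (gC.od, gP.od) := q1
  have hX0 : X0 G.od d (dg2 (b1 * c.a.1, 0)) (dg2 (K0, 0)) =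
      dg2 (X0 gC.od c.D.1 (b1 * c.a.1) K0, gP.od + dP) := by
    have e2 : (gP.od + dP : Module.End L (TV M N)) = gP.od + 0 * (1 - 2 * gP.od) + dP + 0 := by
      rw [zero_mul, add_zero, add_zero]
    rw [e2]
    unfold X0
    rw [odG, hd]
    rfl
  obtain ⟨⟨oP1, uP, vP, oP2, oP3, oP4⟩, oP5, uQ, vQ, oP6, oP7, oP8⟩ := hOdD _ N gP dP gdP ddP
  obtain ⟨⟨oC1, uC, vC, oC2, oC3, oC4⟩, _⟩ := hOdD _ N gC c.D.1 c.gD DD
  have hfR : fR N (X0 G.od d (dg2 (b1 * c.a.1, 0)) (dg2 (K0, 0))) =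
      dg2 (fR N (X0 gC.od c.D.1 (b1 * c.a.1) K0), gP.od + dP) := by
    rw [hX0]
    refine (hfRP.1 (Module.End L (∀ x : B × Fin 2, U x.1) × Module.End L (TV M N))
      (Module.End L ((∀ x : B × Fin 2, U x.1) × TV M N)) dg2 N _).symm.trans ?_
    refine congrArg _ ?_
    refine Prod.ext ?_ ?_
    · exact hfRP.1 _ _ (RingHom.fst (Module.End L (∀ x : B × Fin 2, U x.1))
        (Module.End L (TV M N))) N _
    · have e3 := hfRP.1 _ _ (RingHom.snd (Module.End L (∀ x : B × Fin 2, U x.1))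
        (Module.End L (TV M N))) N (X0 gC.od c.D.1 (b1 * c.a.1) K0, gP.od + dP)
      exact e3.trans ((hfRP.2 _ N).2.2 _ oP1)
  have hrhs : G.od + (1 - e) * (1 - 2 * G.od) + d = dg2 (gC.od + c.D.1, 1 - gP.od + dP) := by
    have e2 : (1 : Module.End L ((∀ x : B × Fin 2, U x.1) × TV M N)) - 2 * G.od =
        dg2 (1 - 2 * gC.od, 1 - 2 * gP.od) := by
      rw [odG, two_mul, dg2_add, dg2_one, dg2_sub, two_mul, two_mul]
    rw [e2, e1, odG, hd, dg2_mul, dg2_add, dg2_add]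
    have e3 : gC.od + 0 * (1 - 2 * gC.od) + c.D.1 = gC.od + c.D.1 := by
      rw [zero_mul, add_zero]
    have e4 : gP.od + 1 * (1 - 2 * gP.od) + dP = 1 - gP.od + dP := odq gP.od dP
    rw [e3, e4]
  rw [hfR, hrhs] at hu
  -- classes
  have hx : dg2 (fR N (X0 gC.od c.D.1 (b1 * c.a.1) K0), gP.od + dP) *
      dg2 (fR N (X0 gC.od c.D.1 (b1 * c.a.1) K0), gP.od + dP) =
      (dg2 (fR N (X0 gC.od c.D.1 (b1 * c.a.1) K0), gP.od + dP) :
        Module.End L ((∀ x : B × Fin 2, U x.1) × TV M N)) := by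
    rw [dg2_mul, hidC, oP1]
  have h1 := (hIclA L ((∀ x : B × Fin 2, U x.1) × TV M N)).1 _ _ u v hx huv hvu hu
  rw [hIclD L (∀ x : B × Fin 2, U x.1) (TV M N) _ _ hidC oP1,
    hIclD L (∀ x : B × Fin 2, U x.1) (TV M N) _ _ oC1 oP5, hclC,
    (hIclA L (TV M N)).1 _ _ uP vP oP1 oP2 oP3 oP4,
    (hIclA L (TV M N)).1 _ _ uQ vQ oP5 oP6 oP7 oP8,
    (hIclA L (∀ x : B × Fin 2, U x.1)).1 _ _ uC vC oC1 oC2 oC3 oC4] at h1
  have h2 : icl gP.od = icl (1 - gP.od) := add_left_cancel h1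
  obtain ⟨p1, p2⟩ := hPar L M K N hN hM
  rw [p1, p2] at h2
  exact cl_eq_iff.1 h2.symm

end HKx
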