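import Pool.Agent.Lib.MP_181146_gt.HK.SpecH

/-!
# Project HK: the normalized partner (S_Nrm)
-/

set_option autoImplicit false

namespace HKx

open HEp HPx Polynomial

section

variable {R : Type} [Ring R]

/-- homotopy classes -/
private def con (d : R) : RingCon (Subring.centralizer ({d} : Set R)) where
  r x y := ∃ h : R, (x : R) - y = d * h + h * d
  iseqv := by
    refine ⟨fun x => ⟨0, by simp⟩, ?_, ?_⟩
    · rintro x y ⟨h, hh⟩
      refine ⟨-h, ?_⟩
      rw [← neg_sub, hh]
      noncomm_ring
    · rintro x y z ⟨h, hh⟩ ⟨g, hg⟩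
      refine ⟨h + g, ?_⟩
      rw [← sub_add_sub_cancel (x : R) y z, hh, hg]
      noncomm_ring
  add' := by
    rintro x y z w ⟨h, hh⟩ ⟨g, hg⟩
    refine ⟨h + g, ?_⟩
    have h1 : ((x + z : Subring.centralizer ({d} : Set R)) : R) -
        ((y + w : Subring.centralizer ({d} : Set R)) : R) = ((x : R) - y) + ((z : R) - w) := by
      push_cast
      abel
    rw [h1, hh, hg]
    noncomm_ring
  mul' := by
    rintro x y z w ⟨h, hh⟩ ⟨g, hg⟩
    have hx : d * (x : R) = x * d := Subring.mem_centralizer_iff.1 x.2 d rfl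
    have hw : d * (w : R) = w * d := Subring.mem_centralizer_iff.1 w.2 d rfl
    refine ⟨(x : R) * g + h * w, ?_⟩
    have h1 : ((x * z : Subring.centralizer ({d} : Set R)) : R) -
        ((y * w : Subring.centralizer ({d} : Set R)) : R) =
        (x : R) * ((z : R) - w) + ((x : R) - y) * w := by
      push_cast
      noncomm_ring
    rw [h1, hh, hg, mul_add, add_mul, mul_add, add_mul]
    have h2 : (x : R) * (d * g) = d * (x * g) := by rw [← mul_assoc, ← hx, mul_assoc]
    have h3 : h * d * (w : R) = h * w * d := by rw [mul_assoc, hw, mul_assoc]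
    rw [h2, h3]
    noncomm_ring

private theorem hom_aeval {A B : Type} [Ring A] [Ring B] (ψ : A →+* B) (x : A) (f : ℤ[X]) :
    ψ (aeval x f) = aeval (ψ x) f :=
  (Polynomial.aeval_algHom_apply ψ.toIntAlgHom x f).symm

private theorem aeval_mem (C : Subring R) (t : R) (ht : t ∈ C) (q : ℤ[X]) : aeval t q ∈ C := by
  have h := hom_aeval C.subtype (⟨t, ht⟩ : C) q
  have h1 : C.subtype (⟨t, ht⟩ : C) = t := rfl
  rw [h1] at h
  rw [← h]
  exact Subtype.prop _

private theorem comm_aeval {t x : R} (h : Commute t x) (f : ℤ[X]) : Commute (aeval t f) x := by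
  have h1 := aeval_mem (Subring.centralizer ({x} : Set R)) t
    (Subring.mem_centralizer_iff.2 fun g hg => by rw [Set.mem_singleton_iff.1 hg]; exact h.eq.symm) f
  exact (Subring.mem_centralizer_iff.1 h1 x rfl).symm

/-- the normalized partner in a ring -/
private theorem rngN (hRng : HPx.S_Rng) (α β t : R) (M : ℕ) (p q r r' : ℤ[X])
    (hp : p = 1 + X * p ^ 2 + X ^ M * r) (hq : (1 - 2 * X * p) * q = 1 + X ^ M * r')
    (h : α * β + β * α = 1) (hβ : (β * β) ^ M = 0) (ht : t = α * α * (β * β)) :
    (β - aeval t p * (β * β) * α) * aeval t q * ((β - aeval t p * (β * β) * α) * aeval t q) = 0 ∧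
    α * ((β - aeval t p * (β * β) * α) * aeval t q) +
      (β - aeval t p * (β * β) * α) * aeval t q * α = 1 := by
  obtain ⟨h4, h5⟩ := hRng R α β t M p q r r' hp hq h hβ ht
  have cAβ : Commute (α * α) β := by
    have h1 : (α * α) * β - β * (α * α) = α * (α * β + β * α) - (α * β + β * α) * α := by
      noncomm_ring
    rw [h, mul_one, one_mul, sub_self] at h1
    exact sub_eq_zero.1 h1
  have cBα : Commute (β * β) α := by
    have h1 : (β * β) * α - α * (β * β) = β * (α * β + β * α) - (α * β + β * α) * β := by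
      noncomm_ring
    rw [h, mul_one, one_mul, sub_self] at h1
    exact sub_eq_zero.1 h1
  have cAα : Commute (α * α) α := (Commute.refl α).mul_left (Commute.refl α)
  have cBβ : Commute (β * β) β := (Commute.refl β).mul_left (Commute.refl β)
  have ctα : Commute t α := by
    rw [ht]
    exact cAα.mul_left cBα
  have ctβ : Commute t β := by
    rw [ht]
    exact cAβ.mul_left cBβ
  have cQα : Commute (aeval t q) α := comm_aeval ctα q
  have cQβ : Commute (aeval t q) β := comm_aeval ctβ q
  have cQP : Commute (aeval t q) (aeval t p) := comm_aeval (comm_aeval (Commute.refl t) p).symm q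
  have cQb : Commute (aeval t q) (β - aeval t p * (β * β) * α) :=
    cQβ.sub_right ((cQP.mul_right (cQβ.mul_right cQβ)).mul_right cQα)
  generalize aeval t q = Q at *
  generalize β - aeval t p * (β * β) * α = B at *
  constructor
  · calc B * Q * (B * Q) = B * (Q * B) * Q := by noncomm_ring
      _ = B * B * (Q * Q) := by rw [cQb.eq]; noncomm_ring
      _ = 0 := by rw [h4, zero_mul]
  · rw [← h5, ← cQb.eq, ← mul_assoc α Q B, cQb.eq, mul_assoc B Q α, cQα.eq]

private theorem aux (hRng : HPx.S_Rng) {C Ω : Type} [Ring C] [Ring Ω] (φ : C →+* Ω) (α β t : C)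
    (M : ℕ) (p q r r' : ℤ[X]) (hp : p = 1 + X * p ^ 2 + X ^ M * r)
    (hq : (1 - 2 * X * p) * q = 1 + X ^ M * r') (h1 : φ (α * β + β * α) = 1)
    (h2 : (β * β) ^ M = 0) (h3 : t = α * α * (β * β)) :
    φ ((β - aeval t p * (β * β) * α) * aeval t q *
      ((β - aeval t p * (β * β) * α) * aeval t q)) = 0 ∧
    φ (α * ((β - aeval t p * (β * β) * α) * aeval t q) +
      (β - aeval t p * (β * β) * α) * aeval t q * α) = 1 := by
  obtain ⟨h4, h5⟩ := rngN hRng (φ α) (φ β) (φ t) M p q r r' hp hq
    (by rw [← map_mul, ← map_mul, ← map_add, h1])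
    (by rw [← map_mul, ← map_pow, h2, map_zero])
    (by rw [← map_mul, ← map_mul, ← map_mul, ← h3])
  rw [← hom_aeval φ, ← hom_aeval φ] at h4 h5
  constructor
  · rw [← h4]
    simp only [map_mul, map_sub]
  · rw [← h5]
    simp only [map_mul, map_sub, map_add]

end

theorem sNrm (hRng : HPx.S_Rng) : S_Nrm := by
  intro R _ d sg a b k hd hs hsd had hbd has hbs hab M hM p q r r' hp hq
  obtain ⟨t, ht⟩ : ∃ t : R, t = a * a * (b * b) := ⟨_, rfl⟩
  have hnb : nb p q a b = (b - aeval t p * (b * b) * a) * aeval t q := by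
    rw [ht]
    rfl
  rw [hnb]
  set C : Subring R := Subring.centralizer ({d} : Set R) with hC
  have hmem : ∀ x : R, x ∈ C ↔ d * x = x * d := by
    intro x
    rw [hC, Subring.mem_centralizer_iff]
    constructor
    · intro h
      exact h d rfl
    · intro h g hg
      rw [Set.mem_singleton_iff.1 hg]
      exact h
  -- squares
  have haad : d * (a * a) = a * a * d := by
    have h : a * a * d = d * (a * a) := by
      rw [mul_assoc, had, mul_neg, ← mul_assoc, had, neg_mul, neg_neg, mul_assoc]
    exact h.symm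
  have hbbd : d * (b * b) = b * b * d := by
    have h : b * b * d = d * (b * b) := by
      rw [mul_assoc, hbd, mul_neg, ← mul_assoc, hbd, neg_mul, neg_neg, mul_assoc]
    exact h.symm
  have haas : sg * (a * a) = a * a * sg := by
    rw [← mul_assoc, has, neg_mul, mul_assoc, has, mul_neg, neg_neg, ← mul_assoc]
  have hbbs : sg * (b * b) = b * b * sg := by
    rw [← mul_assoc, hbs, neg_mul, mul_assoc, hbs, mul_neg, neg_neg, ← mul_assoc]
  have htd : d * t = t * d := by
    rw [ht, ← mul_assoc, haad, mul_assoc, hbbd, ← mul_assoc]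
  have hts : sg * t = t * sg := by
    rw [ht, ← mul_assoc, haas, mul_assoc, hbbs, ← mul_assoc]
  have hcs : ∀ f : ℤ[X], sg * aeval t f = aeval t f * sg := fun f =>
    ((comm_aeval (show Commute t sg from hts.symm) f).eq).symm
  have hcd : ∀ f : ℤ[X], d * aeval t f = aeval t f * d := fun f =>
    ((comm_aeval (show Commute t d from htd.symm) f).eq).symm
  -- the elements
  have hα : a * sg ∈ C := by
    have h : a * sg * d = d * (a * sg) := by
      rw [mul_assoc, hsd, mul_neg, ← mul_assoc, had, neg_mul, neg_neg, mul_assoc]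
    rw [hmem, h]
  have hβ : -(b * sg) ∈ C := by
    have h : b * sg * d = d * (b * sg) := by
      rw [mul_assoc, hsd, mul_neg, ← mul_assoc, hbd, neg_mul, neg_neg, mul_assoc]
    rw [hmem, mul_neg, neg_mul, h]
  set α : C := ⟨a * sg, hα⟩ with hαd
  set β : C := ⟨-(b * sg), hβ⟩ with hβd
  set tC : C := ⟨t, (hmem t).2 htd⟩ with htC
  have hαα : a * sg * (a * sg) = -(a * a) := by
    rw [mul_assoc, ← mul_assoc sg, has, neg_mul, mul_neg, mul_assoc, hs, mul_one]
  have hββ : -(b * sg) * -(b * sg) = -(b * b) := by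
    rw [neg_mul_neg, mul_assoc, ← mul_assoc sg, hbs, neg_mul, mul_neg, mul_assoc, hs, mul_one]
  have hαβ : a * sg * -(b * sg) = a * b := by
    rw [mul_neg, mul_assoc, ← mul_assoc sg, hbs, neg_mul, mul_neg, neg_neg, mul_assoc, hs, mul_one]
  have hβα : -(b * sg) * (a * sg) = b * a := by
    rw [neg_mul, mul_assoc, ← mul_assoc sg, has, neg_mul, mul_neg, neg_neg, mul_assoc, hs, mul_one]
  set φ : C →+* (con d).Quotient := (con d).mk' with hφ
  have hrel : ∀ x y : C, φ x = φ y ↔ ∃ h : R, (x : R) - y = d * h + h * d := by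
    intro x y
    exact (con d).eq
  have h1 : φ (α * β + β * α) = 1 := by
    rw [← map_one φ, hrel]
    refine ⟨k, ?_⟩
    have : ((α * β + β * α : C) : R) = a * b + b * a := by
      push_cast
      rw [hαd, hβd]
      simp only
      rw [hαβ, hβα]
    rw [this, hab]
    push_cast
    noncomm_ring
  have h2 : (β * β : C) ^ M = 0 := by
    apply Subtype.ext
    push_cast
    rw [hβd]
    simp only
    rw [hββ, neg_pow, hM, mul_zero]
  have h3 : tC = α * α * (β * β) := by
    apply Subtype.ext
    push_cast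
    rw [hαd, hβd, htC]
    simp only
    rw [hαα, hββ, neg_mul_neg, ht]
  obtain ⟨h4, h5⟩ := aux hRng φ α β tC M p q r r' hp hq h1 h2 h3
  have hcoe := fun f : ℤ[X] => hom_aeval C.subtype tC f
  simp only [Subring.subtype_apply] at hcoe
  rw [← map_one φ, hrel] at h5
  rw [← map_zero φ, hrel] at h4
  -- the new elements
  set P := aeval t p with hP
  set Q := aeval t q with hQ
  set b' := b - P * (b * b) * a with hb'
  have hβ' : -(b * sg) - P * (-(b * sg) * -(b * sg)) * (a * sg) = -(b' * sg) := by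
    rw [hββ, hb']
    noncomm_ring
  have hsb' : sg * b' = -(b' * sg) := by
    rw [hb', mul_sub, hbs]
    have : sg * (P * (b * b) * a) = -(P * (b * b) * a * sg) := by
      rw [← mul_assoc, ← mul_assoc, hcs p, mul_assoc P sg, hbbs, mul_assoc, mul_assoc (b * b) sg, has]
      noncomm_ring
    rw [this]
    noncomm_ring
  have hbQ : -(b' * sg) * Q = -(b' * Q * sg) := by
    rw [neg_mul, mul_assoc, hcs q, ← mul_assoc]
  have hsbQ : sg * (b' * Q) = -(b' * Q * sg) := by
    rw [← mul_assoc, hsb', hbQ]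
  have hb'd : b' * d = -(d * b') := by
    rw [hb', sub_mul, hbd, mul_assoc (P * (b * b)) a d, had]
    have : P * (b * b) * -(d * a) = -(d * (P * (b * b) * a)) := by
      have h6 : P * (b * b) * d = d * (P * (b * b)) := by
        rw [mul_assoc, ← hbbd, ← mul_assoc, ← hcd p, mul_assoc]
      rw [mul_neg, ← mul_assoc, h6]
      noncomm_ring
    rw [this]
    noncomm_ring
  refine ⟨?_, ?_, ?_⟩
  · rw [mul_assoc, ← hcd q, ← mul_assoc, hb'd]
    noncomm_ring
  · obtain ⟨h, hh⟩ := h5
    refine ⟨h, ?_⟩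
    push_cast at hh
    rw [hcoe, hcoe] at hh
    rw [hαd, hβd] at hh
    simp only at hh
    rw [← hP, ← hQ, hβ', hbQ] at hh
    have h6 : a * sg * -(b' * Q * sg) = a * (b' * Q) := by
      rw [mul_neg, mul_assoc, ← mul_assoc sg, hsbQ, neg_mul, mul_neg, neg_neg, mul_assoc (b' * Q) sg,
        hs, mul_one]
    have h7 : -(b' * Q * sg) * (a * sg) = b' * Q * a := by
      rw [neg_mul, mul_assoc, ← mul_assoc sg, has, neg_mul, mul_neg, neg_neg, mul_assoc a sg,
        hs, mul_one]
    rw [h6, h7] at hh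
    rw [← hh]
    noncomm_ring
  · obtain ⟨h, hh⟩ := h4
    refine ⟨-h, ?_⟩
    push_cast at hh
    rw [hcoe, hcoe] at hh
    rw [hαd, hβd] at hh
    simp only at hh
    rw [← hP, ← hQ, hβ', hbQ] at hh
    have h6 : -(b' * Q * sg) * -(b' * Q * sg) = -(b' * Q * (b' * Q)) := by
      rw [neg_mul_neg, mul_assoc, ← mul_assoc sg, hsbQ, neg_mul, mul_neg, mul_assoc (b' * Q) sg, hs,
        mul_one]
    rw [h6] at hh
    have h8 : b' * Q * (b' * Q) = -(d * h + h * d) := by
      rw [← hh]
      noncomm_ring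
    rw [h8]
    noncomm_ring

end HKx
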