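import Pool.Agent.Lib.MP_181146_gt.HK.SpecH

set_option autoImplicit false

/-! `OdD`: `o + d` is conjugate to `o`. -/

namespace HKx

open HEp HPx

private lemma OdD_core {R : Type} [Ring R] (o d : R) (ho : o * o = o) (hod : o * d = d * (1 - o))
    (hdd : d * d = 0) :
    (o + d) * (o + d) = o + d ∧ ∃ u v : R, u * v = 1 ∧ v * u = 1 ∧ u * (o + d) = o * u := by
  have h1 : d * o = d - o * d := by
    rw [hod, mul_sub, mul_one]; abel
  have hsq : ((2 * o - 1) * d) * ((2 * o - 1) * d) = 0 := by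
    have : d * ((2 * o - 1) * d) = 0 := by
      have e1 : d * ((2 * o - 1) * d) = 2 * ((d * o) * d) - d * d := by noncomm_ring
      rw [e1, h1, sub_mul, hdd, mul_assoc o d d, hdd]; simp
    rw [mul_assoc, this, mul_zero]
  have hdo : (2 * o - 1) * (d * o) = o * d - d := by
    rw [h1]
    have e2 : (2 * o - 1) * (d - o * d) = 2 * (o * d) - d - 2 * ((o * o) * d) + o * d := by
      noncomm_ring
    rw [e2, ho]; noncomm_ring
  refine ⟨?_, 1 + (2 * o - 1) * d, 1 - (2 * o - 1) * d, ?_, ?_, ?_⟩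
  · have e3 : (o + d) * (o + d) = o * o + o * d + d * o + d * d := by noncomm_ring
    rw [e3, ho, hdd, h1]; abel
  · have e4 : (1 + (2 * o - 1) * d) * (1 - (2 * o - 1) * d) =
      1 - ((2 * o - 1) * d) * ((2 * o - 1) * d) := by noncomm_ring
    rw [e4, hsq, sub_zero]
  · have e5 : (1 - (2 * o - 1) * d) * (1 + (2 * o - 1) * d) =
      1 - ((2 * o - 1) * d) * ((2 * o - 1) * d) := by noncomm_ring
    rw [e5, hsq, sub_zero]
  · have e6 : (1 + (2 * o - 1) * d) * (o + d) =
      o + d + (2 * o - 1) * (d * o) + (2 * o - 1) * (d * d) := by noncomm_ring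
    have e7 : o * (1 + (2 * o - 1) * d) = o + 2 * ((o * o) * d) - o * d := by noncomm_ring
    rw [e6, e7, hdo, hdd, ho]; noncomm_ring

theorem sOdD (hGdO : HPx.S_GdO) : S_OdD := by
  intro R _ N g d hd hdd
  obtain ⟨ho, hp⟩ := hGdO R N g
  have hod : g.od * d = d * (1 - g.od) := (hp (-1) d hd).2 (by decide)
  refine ⟨OdD_core g.od d ho hod hdd, ?_⟩
  refine OdD_core (1 - g.od) d ?_ ?_ hdd
  · have e1 : (1 - g.od) * (1 - g.od) = 1 - g.od - g.od + g.od * g.od := by noncomm_ring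
    rw [e1, ho]; abel
  · rw [sub_mul, hod]; noncomm_ring

end HKx
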