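import Pool.Agent.Lib.MP_181146_gt.HK.SpecH

/-!
# Project HK: blocks in matched pairs (S_Pair)
-/

set_option autoImplicit false

namespace HKx

open HEp HPx

theorem sPair (hShf : S_Shf) (hHInv : S_HInv) (hfRP : S_fRP) : S_Pair := by
  intro R _ N g0 g1 hs d hd hdd p K0 K1 hp hpd hK0 hK1 h0 h1 k hk
  obtain ⟨ho, hHm⟩ := hShf R N g0 g1 hs
  obtain ⟨hf1, -, -⟩ := hfRP.2 R k
  have hz : g0.Hm 1 0 := by
    intro i j _
    rw [mul_zero, zero_mul]
  have hK1' : g0.Hm 1 (-K1) := by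
    intro i j hij
    have h2 := hHm 1 K1 hK1 i j hij
    rw [mul_neg, neg_mul, h2, neg_zero]
  have hp0 : p + (d * 0 + 0 * d) = p := by
    rw [mul_zero, zero_mul, add_zero, add_zero]
  have h0' : p + (d * 0 + 0 * d) - (p + (d * 0 + 0 * d)) * (p + (d * 0 + 0 * d)) =
      d * K0 + K0 * d := by
    rw [hp0]
    exact h0
  have h1' : p - p * p = d * (-K1) + (-K1) * d := by
    rw [h1, mul_neg, neg_mul, mul_neg, neg_mul]
  have hA := hHInv R N g0 d hd hdd p K0 0 K0 hp hpd hK0 hK0 hz h0 h0' k hk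
  obtain ⟨-, u, v, huv, hvu, hu⟩ :=
    hHInv R N g0 d hd hdd p (-K1) 0 K0 hp hpd hK1' hK0 hz h1' h0' k hk
  refine ⟨hA.1, u, v, huv, hvu, ?_⟩
  have hX : X0 g1.od (-d) p K1 = 1 - X0 g0.od d p (-K1) := by
    unfold X0
    rw [ho]
    noncomm_ring
  rw [hp0] at hu
  rw [hX, hf1, mul_sub, hu, mul_one, sub_mul, one_mul]

end HKx
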