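import Pool.Agent.Lib.MP_181146_gt.HK.SpecH

/-!
# Project HK, module Par: the even and odd parts of the total module
-/

set_option autoImplicit false

namespace HKx

open HEp HPx

section ParAux

variable {L : Type} [CommRing L] {M : ℕ → Type} [∀ i, AddCommGroup (M i)] [∀ i, Module L (M i)]

private theorem Par_od (N : ℕ) (x : TV M N) (j : Fin N) :
    (stG L M N).od x j = if Odd (j : ℕ) then x j else 0 := by
  have h0 : (stG L M N).od = ∑ i : Fin N, if Odd (i : ℕ) then ePr L M N i else 0 := rfl
  rw [h0, LinearMap.sum_apply, Finset.sum_apply, Finset.sum_eq_single j]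
  · by_cases h : Odd (j : ℕ)
    · rw [if_pos h, if_pos h, ePr_apply, Pi.single_eq_same]
    · rw [if_neg h, if_neg h]
      rfl
  · intro i _ hij
    by_cases h : Odd (i : ℕ)
    · rw [if_pos h, ePr_apply, Pi.single_eq_of_ne hij.symm]
    · rw [if_neg h]
      rfl
  · intro h
    exact absurd (Finset.mem_univ j) h

private theorem Par_ev (N : ℕ) (x : TV M N) (j : Fin N) :
    ((1 : Module.End L (TV M N)) - (stG L M N).od) x j = if Odd (j : ℕ) then 0 else x j := by
  rw [LinearMap.sub_apply, Module.End.one_apply, Pi.sub_apply, Par_od]
  by_cases h : Odd (j : ℕ)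
  · rw [if_pos h, if_pos h, sub_self]
  · rw [if_neg h, if_neg h, sub_zero]

private theorem Par_main {N K : ℕ} (q : Fin K → Fin N) (hq : Function.Injective q)
    (W : Submodule L (TV M N))
    (hW : ∀ x : TV M N, x ∈ W ↔ ∀ i, (∀ j, q j ≠ i) → x i = 0) :
    Nonempty (W ≃ₗ[L] ∀ j : Fin K, M (q j)) := by
  let f : W →ₗ[L] ∀ j : Fin K, M (q j) :=
    LinearMap.pi fun j => (LinearMap.proj (q j) : TV M N →ₗ[L] M (q j)) ∘ₗ W.subtype
  have hf : ∀ (x : W) (j : Fin K), f x j = x.1 (q j) := fun _ _ => rfl
  refine ⟨LinearEquiv.ofBijective f ⟨?_, ?_⟩⟩
  · intro x y hxy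
    apply Subtype.ext
    funext i
    by_cases h : ∃ j, q j = i
    · obtain ⟨j, rfl⟩ := h
      have := congrFun hxy j
      rwa [hf, hf] at this
    · have h' : ∀ j, q j ≠ i := fun j hj => h ⟨j, hj⟩
      rw [(hW x.1).1 x.2 i h', (hW y.1).1 y.2 i h']
  · intro y
    refine ⟨⟨∑ j, Pi.single (q j) (y j), (hW _).2 fun i hi => ?_⟩, ?_⟩
    · rw [Finset.sum_apply]
      refine Finset.sum_eq_zero fun j _ => ?_
      exact Pi.single_eq_of_ne (hi j).symm _
    · funext j
      rw [hf]
      change (∑ j, Pi.single (q j) (y j) : TV M N) (q j) = y j
      rw [Finset.sum_apply, Finset.sum_eq_single j]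
      · exact Pi.single_eq_same _ _
      · intro b _ hb
        exact Pi.single_eq_of_ne (fun h => hb (hq h).symm) _
      · intro h
        exact absurd (Finset.mem_univ j) h

end ParAux

theorem sPar : S_Par := by
  intro L _ M _ _ _ _ K N hN hM
  constructor
  · have hid : (stG L M N).od * (stG L M N).od = (stG L M N).od := by
      apply LinearMap.ext
      intro x
      funext j
      rw [Module.End.mul_apply, Par_od, Par_od]
      split_ifs <;> rfl
    have := rangeProj (stG L M N).od hid
    rw [icl_eq _ hid]
    have key : Nonempty (LinearMap.range (stG L M N).od ≃ₗ[L] ∀ j : Fin K, M (2 * j + 1)) := by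
      refine Par_main (fun j : Fin K => (⟨2 * j + 1, by omega⟩ : Fin N)) ?_ _ ?_
      · intro i j h
        have := congrArg Fin.val h
        simp only at this
        exact Fin.ext (by omega)
      · intro x
        rw [LinearMap.mem_range]
        constructor
        · rintro ⟨y, rfl⟩ i hi
          rw [Par_od]
          split_ifs with ho
          · obtain ⟨k, hk⟩ := ho
            by_cases hkK : k < K
            · exact absurd (Fin.ext (by simp only; omega)) (hi ⟨k, hkK⟩)
            · have := hM (i : ℕ) (by omega)
              exact Subsingleton.elim _ _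
          · rfl
        · intro h
          refine ⟨x, ?_⟩
          funext i
          rw [Par_od]
          split_ifs with ho
          · rfl
          · refine (h i fun j hj => ho ?_).symm
            have := congrArg Fin.val hj
            simp only at this
            exact ⟨j, by omega⟩
    obtain ⟨e⟩ := key
    exact cl_congr e
  · have hid : ((1 : Module.End L (TV M N)) - (stG L M N).od) *
        ((1 : Module.End L (TV M N)) - (stG L M N).od) =
        ((1 : Module.End L (TV M N)) - (stG L M N).od) := by
      apply LinearMap.ext
      intro x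
      funext j
      rw [Module.End.mul_apply, Par_ev, Par_ev]
      split_ifs <;> rfl
    have := rangeProj ((1 : Module.End L (TV M N)) - (stG L M N).od) hid
    rw [icl_eq _ hid]
    have key : Nonempty (LinearMap.range ((1 : Module.End L (TV M N)) - (stG L M N).od) ≃ₗ[L]
        ∀ j : Fin K, M (2 * j)) := by
      refine Par_main (fun j : Fin K => (⟨2 * j, by omega⟩ : Fin N)) ?_ _ ?_
      · intro i j h
        have := congrArg Fin.val h
        simp only at this
        exact Fin.ext (by omega)
      · intro x
        rw [LinearMap.mem_range]
        constructor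
        · rintro ⟨y, rfl⟩ i hi
          rw [Par_ev]
          split_ifs with ho
          · rfl
          · rw [Nat.not_odd_iff_even] at ho
            obtain ⟨k, hk⟩ := ho
            by_cases hkK : k < K
            · exact absurd (Fin.ext (by simp only; omega)) (hi ⟨k, hkK⟩)
            · have := hM (i : ℕ) (by omega)
              exact Subsingleton.elim _ _
        · intro h
          refine ⟨x, ?_⟩
          funext i
          rw [Par_ev]
          split_ifs with ho
          · refine (h i fun j hj => ?_).symm
            have := congrArg Fin.val hj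
            simp only at this
            obtain ⟨k, hk⟩ := ho
            omega
          · rfl
    obtain ⟨e⟩ := key
    exact cl_congr e

end HKx
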