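import Pool.Agent.Lib.MP_181146_gt.HK.SpecH

/-!
# Project HK: shifted gradings (S_Shf)
-/

set_option autoImplicit false

namespace HKx

open HEp HPx

theorem sShf : S_Shf := by
  intro R _ N g0 g1 hs
  obtain ⟨hs1, hs0⟩ := hs
  cases N with
  | zero =>
    have h1 := g0.sum
    rw [Fin.sum_univ_zero] at h1
    refine ⟨?_, fun m u _ i => i.elim0⟩
    unfold Gd.od
    rw [Fin.sum_univ_zero, Fin.sum_univ_zero, ← h1, sub_zero]
  | succ n =>
    have e1 : ∀ i : Fin n, g1.e i.succ = g0.e i.castSucc := by
      intro i
      refine hs1 i.castSucc i.succ ?_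
      rw [Fin.val_succ, Fin.val_castSucc]
    have e0 : g1.e 0 = 0 := hs0 0 rfl
    have hS : ∑ i : Fin n, g0.e i.castSucc = 1 := by
      have h := g1.sum
      rw [Fin.sum_univ_succ, e0, zero_add] at h
      rw [← h]
      exact Finset.sum_congr rfl fun i _ => (e1 i).symm
    have hl : g0.e (Fin.last n) = 0 := by
      have h := g0.sum
      rw [Fin.sum_univ_castSucc, hS] at h
      exact left_eq_add.1 h.symm
    constructor
    · have h1 : g1.od = ∑ i : Fin n, if Odd (i : ℕ) then 0 else g0.e i.castSucc := by
        unfold Gd.od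
        rw [Fin.sum_univ_succ, e0, ite_self, zero_add]
        refine Finset.sum_congr rfl fun i _ => ?_
        rw [e1 i, Fin.val_succ]
        by_cases h : Odd (i : ℕ)
        · rw [if_pos h, if_neg]
          rw [Nat.not_odd_iff_even]
          exact h.add_one
        · rw [if_neg h, if_pos]
          rw [Nat.not_odd_iff_even] at h
          exact h.add_one
      have h0 : g0.od = ∑ i : Fin n, if Odd (i : ℕ) then g0.e i.castSucc else 0 := by
        unfold Gd.od
        rw [Fin.sum_univ_castSucc, hl, ite_self, add_zero]
        rfl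
      rw [eq_sub_iff_add_eq, h1, h0, ← Finset.sum_add_distrib, ← hS]
      refine Finset.sum_congr rfl fun i _ => ?_
      by_cases h : Odd (i : ℕ)
      · rw [if_pos h, if_pos h, zero_add]
      · rw [if_neg h, if_neg h, add_zero]
    · intro m u hu i j hij
      refine Fin.lastCases ?_ (fun i' => ?_) i (motive := fun i =>
        (j : ℤ) ≠ (i : ℤ) + m → g0.e j * u * g0.e i = 0) hij
      · intro _
        rw [hl, mul_zero]
      · intro hij
        refine Fin.lastCases ?_ (fun j' => ?_) j (motive := fun j =>
          (j : ℤ) ≠ ((i'.castSucc : Fin (n + 1)) : ℤ) + m → g0.e j * u * g0.e i'.castSucc = 0) hij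
        · intro _
          rw [hl, zero_mul, zero_mul]
        · intro hij
          rw [← e1 i', ← e1 j']
          refine hu i'.succ j'.succ ?_
          rw [Fin.val_castSucc, Fin.val_castSucc] at hij
          rw [Fin.val_succ, Fin.val_succ]
          push_cast
          omega

end HKx
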