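import Pool.Agent.Lib.MP_181146_gt.HK.DefsH
import Pool.Agent.Lib.MP_181146_gt.HP.SpecP
import Pool.Agent.Lib.MP_181146_gt.HE.SpecG

/-!
# Project HK: the class of a homotopy idempotent.  Every statement is a separate task; the proof of
each is in the docstring.

Notation: `g : Gd R N` a graded ring, `o = g.od`, `s = sgn g = 1 - 2 o`, `û = s u s`.
-/

set_option linter.unusedVariables false
set_option autoImplicit false

namespace HKx

open HEp HPx Polynomial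

/-! ## A. Filtrations -/

/-- **GeF** (from HPx.GdO for the last but one item if convenient).  Properties of `Ge`.
Proof of the product: `e_i' u v e_i = ∑_l (e_i' u e_l) (e_l v e_i)` (`∑ e_l = 1`, `e_l = e_l e_l`); if
`i' < i + (m + m')` then for every `l` one factor vanishes.  `Ge N u`: all `e_i' u e_i = 0`.  `s` and `o` are sums
of `± e_l`, so `e_i' s = ± e_i'`, `s e_i = ± e_i`, `e_i' o = e_i'` or `0`, etc.  `s s = 1`. -/
def S_GeF : Prop :=
  ∀ (R : Type) [Ring R] (N : ℕ) (g : Gd R N),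
    (∀ m, Ge g m 0) ∧ (∀ m u v, Ge g m u → Ge g m v → Ge g m (u + v)) ∧
    (∀ m u, Ge g m u → Ge g m (-u)) ∧
    (∀ m m' u v, Ge g m u → Ge g m' v → Ge g (m + m') (u * v)) ∧
    (∀ m m' u, m ≤ m' → Ge g m' u → Ge g m u) ∧ (∀ m u, g.Hm m u → Ge g m u) ∧
    (∀ m : ℤ, (N : ℤ) ≤ m → ∀ u, Ge g m u → u = 0) ∧
    (∀ m u, Ge g m u → Ge g m (sgn g * u * sgn g)) ∧
    (∀ m u, Ge g m u → Ge g m (pod g u)) ∧ sgn g * sgn g = 1

/-- **DjF** (from GeF, HPx.GdO).  Properties of `Dj`.  `s d = - d s` (GdO), `δ u = d u - û d`.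
Proof: `δ (u v) = (δ u) v + û (δ v)`; `δ û = - (δ u)^`; `δ (δ u) = 0` (`d d = 0`); the odd part `pod u` of `u`
satisfies `δ (pod u) = δ u - pod (δ u)` (write `u = pod u + (u - pod u)`; `o` commutes with `u - pod u`
and `o (pod u) = (pod u) (1 - o)`); `Ge (m+1) u` implies `Ge m (δ u)` as `d` has degree `-1`. -/
def S_DjF : Prop :=
  ∀ (R : Type) [Ring R] (N : ℕ) (g : Gd R N) (d : R) (hd : g.Hm (-1) d) (hdd : d * d = 0),
    (∀ m, Dj g d m 0) ∧ (∀ m u v, Dj g d m u → Dj g d m v → Dj g d m (u + v)) ∧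
    (∀ m u, Dj g d m u → Dj g d m (-u)) ∧
    (∀ m m' u v, Dj g d m u → Dj g d m' v → Dj g d (m + m') (u * v)) ∧
    (∀ m m' u, m ≤ m' → Dj g d m' u → Dj g d m u) ∧
    (∀ m u, Ge g (m + 1) u → Dj g d m u) ∧
    (∀ m u, g.Hm m u → dlt g d u = 0 → Dj g d m u) ∧
    (∀ m u, Dj g d m u → Dj g d m (sgn g * u * sgn g)) ∧
    (∀ m u, Dj g d m u → Dj g d m (dlt g d u)) ∧
    (∀ m u, Dj g d m u → Dj g d m (pod g u)) ∧ Dj g d 0 1 ∧
    ∀ m : ℤ, (N : ℤ) ≤ m → ∀ u, Dj g d m u → u = 0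

/-- **EF** (from DjF, GeF, HPx.GdO).  The filtration.
Proof: `E m = {u0 + d u1 + u2 o + d u3 o | u_i ∈ D_m}`.  Let `G m = D_m + d D_m`.  `G m G m' ⊆ G (m + m')`:
`u d = d û - δ û`, so `u (d v) = d (û v) - (δ û) v`, `(d u) (d v) = - d ((δ û) v)` (`d d = 0`).
`o u = pod u + û o` and `o (d u) = d (1 - o) u = d u - d (pod u) - d û o`, so `o G m ⊆ G m + G m o`.
Hence `(x + y o) (x' + y' o) = x x' + y (o x') + x y' o + y (o y') o ∈ E (m + m')` (`o o = o`). -/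
def S_EF : Prop :=
  ∀ (R : Type) [Ring R] (N : ℕ) (g : Gd R N) (d : R) (hd : g.Hm (-1) d) (hdd : d * d = 0),
    ∃ F : Flt R N, Cpt g d F

/-- **fRP.** Formal properties of `fR` (inductions on `k`). -/
def S_fRP : Prop :=
  (∀ (R S : Type) [Ring R] [Ring S] (φ : R →+* S) (k : ℕ) (x : R), φ (fR k x) = fR k (φ x)) ∧
  ∀ (R : Type) [Ring R] (k : ℕ),
    (∀ x : R, fR k (1 - x) = 1 - fR k x) ∧
    (∀ u v x : R, v * u = 1 → fR k (u * x * v) = u * fR k x * v) ∧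
    ∀ x : R, x * x = x → fR k x = x

/-- **fRF.** Lifting of idempotents.
Proof: with `y = fR k x`, `z = y y - y`, `y' = 3 y² - 2 y³`: `y' - y = (1 - 2 y) z`,
`y' y' - y' = z z (4 z - 3)`.  Induction on `k`; `F.E 0` is a subring. -/
def S_fRF : Prop :=
  ∀ (R : Type) [Ring R] (N : ℕ) (F : Flt R N) (x : R), x ∈ F.E 0 → x * x - x ∈ F.E 1 →
    ∀ k : ℕ, fR k x ∈ F.E 0 ∧ fR k x - x ∈ F.E 1 ∧
      fR k x * fR k x - fR k x ∈ F.E (2 ^ k) ∧ (N ≤ 2 ^ k → fR k x * fR k x = fR k x)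

/-- **Cj.** Idempotents congruent modulo `E 1` are conjugate.
Proof: `w = x - y`, `u = y x + (1 - y) (1 - x) = 1 + (2 y - 1) w`, `u x = y x = y u`;
`((2 y - 1) w)^N ∈ E N`, so `u` is a unit. -/
def S_Cj : Prop :=
  ∀ (R : Type) [Ring R] (N : ℕ) (F : Flt R N) (x y : R), x * x = x → y * y = y → y ∈ F.E 0 →
    x - y ∈ F.E 1 → ∃ u v : R, u * v = 1 ∧ v * u = 1 ∧ u * x = y * u

/-! ## B. Homotopy idempotents -/

/-- **X0F** (from DjF, GeF, HPx.GdO, HPx.GdM).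
Proof: `δ K = d K + K d = p - p p` has degree `0`, so `K ∈ D_0`; `δ p = 0`, `p ∈ D_0`; so `X0 ∈ E 0`.
`X0² - X0 = (K p - p K) s + K K` (use `o o = o`, `o s = - o`, `o d + d o = d`, `o K + K o = K`, `s d = - d s`,
`s K = - K s`, `p` commutes with `o`, `d`); `K p - p K` has degree `1` and `δ (K p - p K) = 0`,
`K K` has degree `2`.  If `K'` is another homotopy, `K - K'` has degree `1` and `δ (K - K') = 0`. -/
def S_X0F : Prop :=
  ∀ (R : Type) [Ring R] (N : ℕ) (g : Gd R N) (d : R) (hd : g.Hm (-1) d) (hdd : d * d = 0)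
    (F : Flt R N) (hF : Cpt g d F) (p K K' : R) (hp : g.Hm 0 p) (hpd : p * d = d * p)
    (hK : g.Hm 1 K) (hK' : g.Hm 1 K') (h : p - p * p = d * K + K * d)
    (h' : p - p * p = d * K' + K' * d),
    X0 g.od d p K ∈ F.E 0 ∧ X0 g.od d p K * X0 g.od d p K - X0 g.od d p K ∈ F.E 1 ∧
    X0 g.od d p K - X0 g.od d p K' ∈ F.E 1

/-- **HinF** (from DjF, GeF, HPx.GdO, HPx.GdM, HPx.GdN).  Homotopy invariance.
Proof: `c` has degree `1`, `q = p + (d c + c d)`, `K' = K + c - p c - c q`.  `u = 1 - c s`; `(c s)² = - c²`;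
`c` is nilpotent (GdN), so `c s` is nilpotent, `u` is a unit, with inverse `v = 1 + c s - c² v`.  `c ∈ D_0`
(`δ c = q - p`), `c² ∈ D_1` (degree `2`), so `u, v ∈ E 0`, `v - (1 + c s) ∈ E 1`.  Modulo `E 1`:
`u X0 v = X0 + X0 c s - c s X0 - c s X0 c s`, and (terms of degree `≥ 2` in `D_1`; `c c d ∈ E 1`)
`o c s - c s o = c`, `p s c s - c s p s = - p c - c p`, `d c s - c s d = (d c + c d) s = (q - p) s`,
`- c s d c s = - c d c = - c (q - p) + c c d`.  Sum: `o + q s + d + K + c - p c - c q`. -/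
def S_HinF : Prop :=
  ∀ (R : Type) [Ring R] (N : ℕ) (g : Gd R N) (d : R) (hd : g.Hm (-1) d) (hdd : d * d = 0)
    (F : Flt R N) (hF : Cpt g d F) (p K c : R) (hp : g.Hm 0 p) (hpd : p * d = d * p)
    (hK : g.Hm 1 K) (h : p - p * p = d * K + K * d) (hc : g.Hm 1 c),
    ∃ K' u v : R, g.Hm 1 K' ∧
      (p + (d * c + c * d)) - (p + (d * c + c * d)) * (p + (d * c + c * d)) = d * K' + K' * d ∧
      u * v = 1 ∧ v * u = 1 ∧
      u * X0 g.od d p K * v - X0 g.od d (p + (d * c + c * d)) K' ∈ F.E 1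

/-- **HInv** (from EF, fRP, fRF, Cj, X0F, HinF).  The idempotent `fR k (X0 ..)`, `N ≤ 2^k`, depends up to
conjugation only on the homotopy class of `p`.
Proof: EF gives `F`.  HinF: `u1 X0(p, K) v1 ≡ X0(q, K'') ≡ X0(q, K')` modulo `E 1` (X0F).  `fR k` of both are
idempotent (for the first: conjugate of an idempotent, fRP) and congruent to each other modulo `E 1` (fRF for
`u1 X0 v1`, which is in `E 0`, as it is congruent to `X0(q, K'')`; its square minus itself is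
`u1 (X0² - X0) v1`, and it is congruent to `X0(q,K'')² - X0(q,K'')`, in `E 1`).  Cj. -/
def S_HInv : Prop :=
  ∀ (R : Type) [Ring R] (N : ℕ) (g : Gd R N) (d : R) (hd : g.Hm (-1) d) (hdd : d * d = 0)
    (p K c K' : R) (hp : g.Hm 0 p) (hpd : p * d = d * p) (hK : g.Hm 1 K) (hK' : g.Hm 1 K')
    (hc : g.Hm 1 c) (h : p - p * p = d * K + K * d)
    (h' : (p + (d * c + c * d)) - (p + (d * c + c * d)) * (p + (d * c + c * d)) =
      d * K' + K' * d) (k : ℕ) (hk : N ≤ 2 ^ k),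
    fR k (X0 g.od d p K) * fR k (X0 g.od d p K) = fR k (X0 g.od d p K) ∧
    ∃ u v : R, u * v = 1 ∧ v * u = 1 ∧
      u * fR k (X0 g.od d p K) = fR k (X0 g.od d (p + (d * c + c * d)) K') * u

/-- **Eqv** (from HInv, fRP, HPx.GdM, HPx.GdO, HPx.GdP).  Let `e` be the projection onto `C` in `C ⊕ P`, `p` a
homotopy idempotent of `C`, `r : C → P`, `j : P → C` with `r j ~ 1`, `j r ~ p`.
Proof: the homotopies may be chosen homogeneous (GdP, `s = 1`).  `U = (1 - j) (1 + r) (1 - j)`,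
`V = (1 + j) (1 - r) (1 + j)` (`j j = 0`, `r r = 0`), `U V = V U = 1`, both commute with `d`, `o`, `s`.
`U = 1 - 2 j + r - r j - j r + j r j`; modulo homotopy `U = e - p + r - j`, `U p = r p = r = (1 - e) U`
(`j p = 0`, `r p ~ r j r ~ r`, `(1 - e) r = r`, `(1 - e) j = 0`; precisely: `U p - (1 - e) U = d x + x d` with an
explicit `x`, or compute in the quotient of the centralizer of `d` by the ideal `{d x + x d}`), so
`1 - e = U p V + (d c + c d)`.  HInv for `U p V`, `U K V` and `q = 1 - e`, `K' = 0`; `X0 (U p V) (U K V) =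
U X0 V`; `X0 o d (1 - e) 0` is idempotent. -/
def S_Eqv : Prop :=
  ∀ (R : Type) [Ring R] (N : ℕ) (g : Gd R N) (d : R) (hd : g.Hm (-1) d) (hdd : d * d = 0)
    (e p K r j h s : R) (he : e * e = e) (hge : g.Hm 0 e) (hed : e * d = d * e)
    (hp : g.Hm 0 p) (hpd : p * d = d * p) (hep : e * p = p) (hpe : p * e = p)
    (hK : g.Hm 1 K) (hpK : p - p * p = d * K + K * d)
    (hr : g.Hm 0 r) (hj : g.Hm 0 j) (hrd : r * d = d * r) (hjd : j * d = d * j)
    (her : e * r = 0) (hre : r * e = r) (hej : e * j = j) (hje : j * e = 0)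
    (hrj : r * j = (1 - e) + (d * h + h * d)) (hjr : j * r = p + (d * s + s * d))
    (k : ℕ) (hk : N ≤ 2 ^ k),
    ∃ u v : R, u * v = 1 ∧ v * u = 1 ∧
      u * fR k (X0 g.od d p K) = (g.od + (1 - e) * (1 - 2 * g.od) + d) * u

/-! ## C. Clifford pairs -/

/-- **Nrm** (from HPx.Rng; compare `HP/Omg.lean`).  The normalized partner of `a`.
Proof.  `Ω` = centralizer of `d` modulo the ideal `{d h + h d}`; `α = a sg`, `β = - b sg`; `α β + β α = 1`,
`t = α² β² = a² b²`, `(β²)^M = 0`.  HPx.Rng: `β' = β - p(t) β² α`, `β' β' = 0`, `(α q(t)) β' + β' (α q(t)) = 1`.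
`t` is central for `α`, `β`, so `β1 = β' q(t)` satisfies `β1 β1 = 0`, `α β1 + β1 α = 1`; and
`β1 = - (nb p q a b) sg`. -/
def S_Nrm : Prop :=
  ∀ (R : Type) [Ring R] (d sg a b k : R) (hd : d * d = 0) (hs : sg * sg = 1)
    (hsd : sg * d = -(d * sg)) (had : a * d = -(d * a)) (hbd : b * d = -(d * b))
    (has : sg * a = -(a * sg)) (hbs : sg * b = -(b * sg))
    (hab : a * b + b * a = 1 + (d * k + k * d)) (M : ℕ) (hM : (b * b) ^ M = 0)
    (p q r r' : ℤ[X]) (hp : p = 1 + X * p ^ 2 + X ^ M * r)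
    (hq : (1 - 2 * X * p) * q = 1 + X ^ M * r'),
    nb p q a b * d = -(d * nb p q a b) ∧
    (∃ k', a * nb p q a b + nb p q a b * a = 1 + (d * k' + k' * d)) ∧
    ∃ l', nb p q a b * nb p q a b = d * l' + l' * d

/-- **Cmp.** Two normalized partners of `α`.
Proof.  `A = α²` commutes with `b1`, `b2`: `A b1 = α (e - b1 α) = α - (e - b1 α) α = b1 A`.  `δ = b2 - b1`,
`δ α = - α δ`, `δ δ = - (b1 b2 + b2 b1)` commutes with `b1`, `b2`, `α`; `w = δ² A`, `u = 1 + w`, `v = ∑ (-w)^i`,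
`u v = v u = 1` (`w^M = (δ²)^M A^M = 0`).  `p1 = b1 α`, `p2 = b2 α = J r2` with `r2 = β α`, `r2 J = 1 - e`.
`p1 p2 p1 = u p1` (`b1 α b1 = b1`, so `p1 p1 = p1`, and `b1 α δ α b1 α = - A b1 δ b1 α = - A b1 b2 b1 α = A δ² p1`),
by symmetry `p2 p1 p2 = u p2`.  Put `r = r2 p1`, `j = v p1 J`.  `j r = v p1 J r2 p1 = v p1 p2 p1 = p1`.
`r j = r2 p1 v p1 J = r2 v p1 J = r2 J r2 v p1 J r2 J = r2 (p2 v p1 p2) J = r2 v p2 p1 p2 J = r2 p2 J = 1 - e`. -/
def S_Cmp : Prop :=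
  ∀ (R : Type) [Ring R] (e α b1 J β : R) (he : e * e = e) (heα : e * α = α) (hαe : α * e = α)
    (heb : e * b1 = b1) (hbe : b1 * e = b1) (heJ : e * J = J) (hJe : J * e = 0)
    (hβe : β * e = β) (heβ : e * β = 0) (h1 : α * b1 + b1 * α = e) (h1' : b1 * b1 = 0)
    (h2 : α * (J * β) + J * β * α = e) (h2' : J * β * (J * β) = 0)
    (hr : β * α * J = 1 - e) (M : ℕ)
    (hM : ((J * β - b1) * (J * β - b1)) ^ M = 0),
    β * α * (b1 * α) *
        ((∑ i ∈ Finset.range M, (-((J * β - b1) * (J * β - b1) * (α * α))) ^ i) * (b1 * α) * J) =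
      1 - e ∧
    ((∑ i ∈ Finset.range M, (-((J * β - b1) * (J * β - b1) * (α * α))) ^ i) * (b1 * α) * J) *
      (β * α * (b1 * α)) = b1 * α

/-- **CmpG** (from Cmp, HPx.GdM, HPx.GdN, HPx.GdO, HPx.GdP).  The homotopy retraction.
Proof.  `Ω` = centralizer of `d` modulo the ideal `{d x + x d}` (compare `HP/Omg.lean`).  `s = sgn g`.  In `Ω`:
`α = a s`, `b1 := - b1 s`, `β := - ρ b s`, `J`; `J β = - b2 s` with `b2 = J ρ b`.  Note `x s y s = - x y` for odd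
`y`.  Relations in `Ω` (written for the unsigned operators, `β = ρ b`):
`β J = 0` (`J ρ = e + io β`; multiply by `β` on the left, `β io = -(1-e)`: `β J ρ = 0`; then by `J` on the right);
`β a = ρ - aP β` (`ρ (a b + b a) = ρ`); `b2 b2 = J β J β = 0`;
`a b2 + b2 a = a J β + J β a = (J aP - io) β + J (ρ - aP β) = J ρ - io β = e`;
`β a J = (ρ - aP β) J = 1 - e`.
The homotopies of odd operators have the form `d h - h d`; multiplied by `s` they become `d (h s) + (h s) d`.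
`(b2 - b1)²` has degree `-2n < 0`, so is nilpotent.  `r = ρ b a (b1 a)`, `j = ∑_i (-(b2 - b1)² a²)^i (b1 a) J`
(the signs cancel: `((J β - b1)^)² α² = (b2 - b1)² a²`) are homogeneous of degree `0`.  Cmp. -/
def S_CmpG : Prop :=
  ∀ (R : Type) [Ring R] (N : ℕ) (g : Gd R N) (n : ℕ) (hn : Odd n) (d : R) (hd : g.Hm (-1) d)
    (hdd : d * d = 0) (e a b b1 aP ρ J io : R) (he : e * e = e) (hge : g.Hm 0 e)
    (hed : e * d = d * e) (hga : g.Hm n a) (hgb : g.Hm (-n) b) (hgb1 : g.Hm (-n) b1)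
    (hgaP : g.Hm n aP) (hgρ : g.Hm 0 ρ) (hgJ : g.Hm 0 J) (hgio : g.Hm n io)
    (hea : e * a = a) (hae : a * e = a) (heb : e * b = b) (hbe : b * e = b)
    (heb1 : e * b1 = b1) (hb1e : b1 * e = b1) (heaP : e * aP = 0) (haPe : aP * e = 0)
    (heρ : e * ρ = 0) (hρe : ρ * e = ρ) (heJ : e * J = J) (hJe : J * e = 0)
    (heio : e * io = io) (hioe : io * e = 0)
    (had : a * d = -(d * a)) (hbd : b * d = -(d * b)) (hb1d : b1 * d = -(d * b1))
    (haPd : aP * d = -(d * aP)) (hρd : ρ * d = d * ρ) (hJd : J * d = d * J)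
    (hiod : io * d = -(d * io)) (k k1 l h1 h2 h3 h4 h5 : R)
    (hab : a * b + b * a = e + (d * k + k * d)) (hab1 : a * b1 + b1 * a = e + (d * k1 + k1 * d))
    (hb1b1 : b1 * b1 = d * l + l * d) (hρJ : ρ * J = (1 - e) + (d * h1 + h1 * d))
    (hJρ : J * ρ = e + io * (ρ * b) + (d * h2 + h2 * d))
    (hβio : ρ * b * io = -(1 - e) + (d * h3 + h3 * d))
    (hρa : ρ * a = aP * ρ + (d * h4 - h4 * d))
    (hJa : J * aP = a * J + io + (d * h5 - h5 * d)),
    ∃ r j h s : R, g.Hm 0 r ∧ g.Hm 0 j ∧ r * d = d * r ∧ j * d = d * j ∧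
      e * r = 0 ∧ r * e = r ∧ e * j = j ∧ j * e = 0 ∧
      r * j = (1 - e) + (d * h + h * d) ∧ j * r = b1 * a + (d * s + s * d)

/-! ## D. Classes -/

/-- **Shf.** Shifted gradings.
Proof: `g1.e m' = g0.e m` for `m' = m + 1`, `g1.e 0 = 0`; so `g0.e (N-1) = 0` (`∑ g1.e = 1`), and
`g1.od = ∑_(m even) g0.e m = 1 - g0.od`.  (`N = 0`: then `1 = 0` in `R`.) -/
def S_Shf : Prop :=
  ∀ (R : Type) [Ring R] (N : ℕ) (g0 g1 : Gd R N), Shift g0 g1 →
    g1.od = 1 - g0.od ∧ ∀ m u, g1.Hm m u → g0.Hm m u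

/-- **Pair** (from Shf, HInv, fRP).  Blocks in matched pairs.
Proof: with `o1 = 1 - o0`, `X0 o1 (-d) p K1 = 1 - X0 o0 d p (-K1)`; `fR k (1 - x) = 1 - fR k x`; HInv with
`c = 0` for `K = -K1`, `K' = K0`. -/
def S_Pair : Prop :=
  ∀ (R : Type) [Ring R] (N : ℕ) (g0 g1 : Gd R N) (hs : Shift g0 g1) (d : R) (hd : g0.Hm (-1) d)
    (hdd : d * d = 0) (p K0 K1 : R) (hp : g0.Hm 0 p) (hpd : p * d = d * p) (hK0 : g0.Hm 1 K0)
    (hK1 : g1.Hm 1 K1) (h0 : p - p * p = d * K0 + K0 * d)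
    (h1 : p - p * p = -d * K1 + K1 * -d) (k : ℕ) (hk : N ≤ 2 ^ k),
    fR k (X0 g0.od d p K0) * fR k (X0 g0.od d p K0) = fR k (X0 g0.od d p K0) ∧
    ∃ u v : R, u * v = 1 ∧ v * u = 1 ∧
      u * fR k (X0 g1.od (-d) p K1) = (1 - fR k (X0 g0.od d p K0)) * u

/-- **OdD** (from HPx.GdO).  `o + d` is conjugate to `o`, `1 - o + d` to `1 - o`.
Proof: `u = 1 + (2 y - 1) d` for `y = o`, `1 - o` (compare Cj); `((2 y - 1) d)² = 0` as `s d = - d s`. -/
def S_OdD : Prop :=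
  ∀ (R : Type) [Ring R] (N : ℕ) (g : Gd R N) (d : R) (hd : g.Hm (-1) d) (hdd : d * d = 0),
    ((g.od + d) * (g.od + d) = g.od + d ∧
      ∃ u v : R, u * v = 1 ∧ v * u = 1 ∧ u * (g.od + d) = g.od * u) ∧
    (1 - g.od + d) * (1 - g.od + d) = 1 - g.od + d ∧
      ∃ u v : R, u * v = 1 ∧ v * u = 1 ∧ u * (1 - g.od + d) = (1 - g.od) * u

/-- **IclA.** Conjugate idempotents have the same class; complementary idempotents.
(`range x ≃ range y` by `u`; `V ≃ range x × range (1 - x)`; `icl_eq`, `cl_congr`, `cl_prod`.) -/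
def S_IclA : Prop :=
  ∀ (L : Type) [CommRing L] (V : Type) [AddCommGroup V] [Module L V] [Module.Finite L V]
    [Module.Projective L V],
    (∀ x y u v : Module.End L V, x * x = x → u * v = 1 → v * u = 1 → u * x = y * u →
      icl x = icl y) ∧
    ∀ x : Module.End L V, x * x = x → icl x + icl (1 - x) = cl L V

/-- **IclD.** Classes on `V × W`.  (`range (dg2 (x, y)) ≃ range x × range y`.) -/
def S_IclD : Prop :=
  ∀ (L : Type) [CommRing L] (V W : Type) [AddCommGroup V] [Module L V] [Module.Finite L V]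
    [Module.Projective L V] [AddCommGroup W] [Module L W] [Module.Finite L W]
    [Module.Projective L W] (x : Module.End L V) (y : Module.End L W), x * x = x → y * y = y →
    icl (dg2 (x, y)) = icl x + icl y

/-- **IclC** (from Cj, IclA, HEp.KPi).  Block triangular idempotents.
Proof: `F.E 0 = TR`, `F.E m` (`m ≥ 1`) = all `u` with `bc u x y = 0` unless `lev y + m ≤ lev x`;
`N = 1 + sup lev`.  `Δ = bdg (fun x => dgc lev x X)` is idempotent, `X - Δ ∈ F.E 1`, so `X`, `Δ` are conjugate;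
`range Δ ≃ ∏ range (dgc lev x X)`; KPi. -/
def S_IclC : Prop :=
  ∀ (L : Type) [CommRing L] (ι : Type) [Fintype ι] [DecidableEq ι] (V : ι → Type)
    [∀ x, AddCommGroup (V x)] [∀ x, Module L (V x)] [∀ x, Module.Finite L (V x)]
    [∀ x, Module.Projective L (V x)] (lev : ι → ℕ) (X : TR L V lev), X * X = X →
    icl X.1 = ∑ x, icl (dgc lev x X)

/-- **Dia.** Gradings of products: `e m` is block diagonal with blocks `(g x).e m`; the same for `od`;
the diagonal blocks of a homogeneous element are homogeneous. -/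
def S_Dia : Prop :=
  ∀ (L : Type) [CommRing L] (ι : Type) [Fintype ι] [DecidableEq ι] (V : ι → Type)
    [∀ x, AddCommGroup (V x)] [∀ x, Module L (V x)] (lev : ι → ℕ) (N : ℕ)
    (g : ∀ x, Gd (Module.End L (V x)) N),
    (∀ u : ∀ x, Module.End L (V x), bdg u ∈ TR L V lev) ∧
    (∀ (u : ∀ x, Module.End L (V x)) (h : bdg u ∈ TR L V lev) (x : ι),
      dgc lev x ⟨bdg u, h⟩ = u x) ∧
    (GdPi N g).od = bdg (fun x => (g x).od) ∧
    ∀ (m : ℤ) (u : TR L V lev) (x : ι), (GdPi N g).Hm m u.1 → (g x).Hm m (dgc lev x u)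

/-- The operators `D`, `a`, `b`, `k` of a complex `C = ∏ U y × U y` in matched blocks: all are block
triangular; `n` odd; the diagonal blocks of `D`, `a`, `b` on the two blocks `(y, 0)`, `(y, 1)` are
opposite. -/
structure CD (L : Type) [CommRing L] (B : Type) [Fintype B] [DecidableEq B] (U : B → Type)
    [∀ y, AddCommGroup (U y)] [∀ y, Module L (U y)] (lev : B × Fin 2 → ℕ) (N : ℕ)
    (g : ∀ x : B × Fin 2, Gd (Module.End L (U x.1)) N) (n : ℕ) where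
  D : TR L (fun x : B × Fin 2 => U x.1) lev
  a : TR L (fun x : B × Fin 2 => U x.1) lev
  b : TR L (fun x : B × Fin 2 => U x.1) lev
  k : TR L (fun x : B × Fin 2 => U x.1) lev
  shift : ∀ y : B, Shift (g (y, 0)) (g (y, 1))
  gD : (GdPi N g).Hm (-1) D.1
  ga : (GdPi N g).Hm n a.1
  gb : (GdPi N g).Hm (-n) b.1
  DD : D * D = 0
  aD : a * D = -(D * a)
  bD : b * D = -(D * b)
  ab : a * b + b * a = 1 + (D * k + k * D)
  oD : ∀ y : B, dgc lev (y, 1) D = -dgc lev (y, 0) D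
  oa : ∀ y : B, dgc lev (y, 1) a = -dgc lev (y, 0) a
  ob : ∀ y : B, dgc lev (y, 1) b = -dgc lev (y, 0) b

/-- **CC** (from Nrm, Pair, Dia, IclA, IclC, fRP, HInv, HPx.Pol, HPx.GdM, HPx.GdN, HPx.GdO, HPx.GdP).
The complex `C`.
Proof.  The grading `GdPi N g` restricts to the ring `TR` (Dia).  `b²` is nilpotent (GdN), Pol gives `p`, `q`;
Nrm in the ring `TR` gives `b1 = nb p q a b`, `k1`, `l1 ∈ TR` (homogeneous by GdP, of degrees `1`, `1 - 2n`).
`K = l1 a a + b1 k1 a`: `p1 - p1 p1 = D K + K D`, `p1 = b1 a` (`p1 p1 = b1 (1 - b1 a + D k1 + k1 D) a`).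
`X = fR k (X0 ..) ∈ TR` is idempotent (HInv).  Diagonal blocks: `dgc (y,1) b1 = - dgc (y,0) b1` (`nb` is odd in
`(a, b)`), so `p1` has equal diagonal blocks on `(y,0)`, `(y,1)`; `dgc x X = fR k (X0 (g x).od D_x p_x K_x)`
(fRP for the ring homomorphism `dgc x`).  IclC: `icl X = ∑ icl (dgc x X)`; Pair, IclA:
`icl (dgc (y,0) X) + icl (dgc (y,1) X) = cl (U y)`.  The same for `od` (IclC for `od ∈ TR`,
`(g (y,1)).od = 1 - (g (y,0)).od`, Shf).  Sum over `B × Fin 2` (`Fintype.sum_prod_type`). -/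
def S_CC : Prop :=
  ∀ (L : Type) [CommRing L] (B : Type) [Fintype B] [DecidableEq B] (U : B → Type)
    [∀ y, AddCommGroup (U y)] [∀ y, Module L (U y)] [∀ y, Module.Finite L (U y)]
    [∀ y, Module.Projective L (U y)] (lev : B × Fin 2 → ℕ) (N : ℕ)
    (g : ∀ x : B × Fin 2, Gd (Module.End L (U x.1)) N) (n : ℕ) (hn : Odd n)
    (c : CD L B U lev N g n),
    ∃ b1 k1 l1 K : Module.End L (∀ x : B × Fin 2, U x.1), (GdPi N g).Hm (-n) b1 ∧
      (GdPi N g).Hm 1 K ∧ b1 * c.D.1 = -(c.D.1 * b1) ∧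
      c.a.1 * b1 + b1 * c.a.1 = 1 + (c.D.1 * k1 + k1 * c.D.1) ∧
      b1 * b1 = c.D.1 * l1 + l1 * c.D.1 ∧
      b1 * c.a.1 - b1 * c.a.1 * (b1 * c.a.1) = c.D.1 * K + K * c.D.1 ∧
      ∀ k, N ≤ 2 ^ k →
        fR k (X0 (GdPi N g).od c.D.1 (b1 * c.a.1) K) * fR k (X0 (GdPi N g).od c.D.1 (b1 * c.a.1) K) =
          fR k (X0 (GdPi N g).od c.D.1 (b1 * c.a.1) K) ∧
        icl (fR k (X0 (GdPi N g).od c.D.1 (b1 * c.a.1) K)) = icl (GdPi N g).od

/-- **Par.** The even and odd parts of the total module of a complex which vanishes in degrees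
`≥ 2 K ≤ N` (compare `HP/VPar.lean`; `icl_eq`, `cl_congr`). -/
def S_Par : Prop :=
  ∀ (L : Type) [CommRing L] (M : ℕ → Type) [∀ i, AddCommGroup (M i)] [∀ i, Module L (M i)]
    [∀ i, Module.Finite L (M i)] [∀ i, Module.Projective L (M i)] (K N : ℕ) (hN : 2 * K ≤ N)
    (hM : ∀ i, 2 * K ≤ i → Subsingleton (M i)),
    icl (stG L M N).od = cl L (∀ j : Fin K, M (2 * j + 1)) ∧
    icl ((1 : Module.End L (TV M N)) - (stG L M N).od) = cl L (∀ j : Fin K, M (2 * j))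

/-- **Gr2.** Gradings of `V × W`: `od`; homogeneous elements from their four blocks. -/
def S_Gr2 : Prop :=
  ∀ (L : Type) [CommRing L] (V W : Type) [AddCommGroup V] [Module L V] [AddCommGroup W]
    [Module L W] (N : ℕ) (g : Gd (Module.End L V) N) (g' : Gd (Module.End L W) N),
    (Gd2 N g g').od = dg2 (g.od, g'.od) ∧
    (∀ (m : ℤ) (x : Module.End L V) (y : Module.End L W), g.Hm m x → g'.Hm m y →
      (Gd2 N g g').Hm m (dg2 (x, y))) ∧
    (∀ (m : ℤ) (f : V →ₗ[L] W), (∀ i j : Fin N, (j : ℤ) ≠ (i : ℤ) + m →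
        g'.e j ∘ₗ f ∘ₗ g.e i = 0) →
      (Gd2 N g g').Hm m (LinearMap.inr L V W ∘ₗ f ∘ₗ LinearMap.fst L V W)) ∧
    ∀ (m : ℤ) (f : W →ₗ[L] V), (∀ i j : Fin N, (j : ℤ) ≠ (i : ℤ) + m →
        g.e j ∘ₗ f ∘ₗ g'.e i = 0) →
      (Gd2 N g g').Hm m (LinearMap.inl L V W ∘ₗ f ∘ₗ LinearMap.snd L V W)

/-- The maps between `C` (operators `D`, `a`, `b`) and the complex `P` (operators `dP`, `aP`). -/
structure RD (L : Type) [CommRing L] {V W : Type} [AddCommGroup V] [Module L V] [AddCommGroup W]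
    [Module L W] (N : ℕ) (g : Gd (Module.End L V) N) (g' : Gd (Module.End L W) N) (n : ℕ)
    (D a b : Module.End L V) (dP : Module.End L W) where
  aP : Module.End L W
  ρ : V →ₗ[L] W
  J : W →ₗ[L] V
  io : W →ₗ[L] V
  h1 : W →ₗ[L] W
  h2 : V →ₗ[L] V
  h3 : W →ₗ[L] W
  h4 : V →ₗ[L] W
  h5 : W →ₗ[L] V
  gaP : g'.Hm n aP
  gρ : ∀ i j : Fin N, (j : ℤ) ≠ i → g'.e j ∘ₗ ρ ∘ₗ g.e i = 0
  gJ : ∀ i j : Fin N, (j : ℤ) ≠ i → g.e j ∘ₗ J ∘ₗ g'.e i = 0
  gio : ∀ i j : Fin N, (j : ℤ) ≠ (i : ℤ) + n → g.e j ∘ₗ io ∘ₗ g'.e i = 0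
  aPd : ∀ x, aP (dP x) = -dP (aP x)
  ρd : ∀ x, ρ (D x) = dP (ρ x)
  Jd : ∀ x, J (dP x) = D (J x)
  iod : ∀ x, io (dP x) = -D (io x)
  ρJ : ∀ x, ρ (J x) = x + (dP (h1 x) + h1 (dP x))
  Jρ : ∀ x, J (ρ x) = x + io (ρ (b x)) + (D (h2 x) + h2 (D x))
  βio : ∀ x, ρ (b (io x)) = -x + (dP (h3 x) + h3 (dP x))
  ρa : ∀ x, ρ (a x) = aP (ρ x) + (dP (h4 x) - h4 (D x))
  Ja : ∀ x, J (aP x) = a (J x) + io x + (D (h5 x) - h5 (dP x))

/-- **KFin** (from CC, CmpG, Eqv, IclA, IclD, OdD, Par, Gr2, fRP, HPx.TotD, HPx.GdM).  The theorem of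
the K-theory part.
Proof.  `V = C × P`, `R = End V`, `Gd2`, `d = dg2 (D, dP)`, `e = dg2 (1, 0)`, `a = dg2 (a, 0)`, ...,
`aP = dg2 (0, aP)`, `ρ = inr ∘ ρ ∘ fst`, `J = inl ∘ J ∘ snd`, ....  CC gives `b1`, `k1`, `l1`, `K`; CmpG gives
`r`, `j`; Eqv (with `dg2 (b1 a, 0)`, `dg2 (K, 0)`; `k = N`) gives
`icl (fR k (X0 od d p K)) = icl (od + (1 - e) (1 - 2 od) + d)`.  The left side is
`dg2 (fR k (X0 od_C D (b1 a) K), fR k (od_P + dP))`, of class `icl od_C + icl od_P` (CC, fRP, OdD, IclD);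
the right side is `dg2 (od_C + D, 1 - od_P + dP)`, of class `icl od_C + icl (1 - od_P)` (OdD, IclD).
So `icl od_P = icl (1 - od_P)`; Par; `cl_eq_iff`. -/
def S_KFin : Prop :=
  ∀ (L : Type) [CommRing L] (B : Type) [Fintype B] [DecidableEq B] (U : B → Type)
    [∀ y, AddCommGroup (U y)] [∀ y, Module L (U y)] [∀ y, Module.Finite L (U y)]
    [∀ y, Module.Projective L (U y)] (lev : B × Fin 2 → ℕ) (N : ℕ)
    (g : ∀ x : B × Fin 2, Gd (Module.End L (U x.1)) N) (n : ℕ) (hn : Odd n)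
    (c : CD L B U lev N g n) (M : ℕ → Type) [∀ i, AddCommGroup (M i)] [∀ i, Module L (M i)]
    [∀ i, Module.Finite L (M i)] [∀ i, Module.Projective L (M i)] (K : ℕ) (hN : 2 * K ≤ N)
    (hM : ∀ i, 2 * K ≤ i → Subsingleton (M i)) (dM : ∀ i : ℕ, M (i + 1) →ₗ[L] M i)
    (ddM : ∀ i x, dM i (dM (i + 1) x) = 0)
    (r : RD L N (GdPi N g) (stG L M N) n c.D.1 c.a.1 c.b.1 (totd N dM)),
    ∃ a b : ℕ, Nonempty (((∀ j : Fin K, M (2 * j)) × (Fin a → L)) ≃ₗ[L]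
      ((∀ j : Fin K, M (2 * j + 1)) × (Fin b → L)))

end HKx
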