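import Pool.Agent.Lib.MP_181146_gt.HK.SpecH

set_option autoImplicit false

/-!
# Project HK, task X0F: the element attached to a homotopy idempotent lies in the filtration
-/

namespace HKx

open HEp HPx

section

variable {R : Type} [Ring R] {N : ℕ}

private lemma x0_evn (g : Gd R N) (hss : sgn g * sgn g = 1) (u : R) (h : g.od * u = u * g.od) :
    sgn g * u * sgn g = u := by
  have h1 : sgn g * u = u * sgn g := by
    unfold sgn
    linear_combination (norm := noncomm_ring) (-2) * h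
  rw [h1, mul_assoc, hss, mul_one]

private lemma x0_odn (g : Gd R N) (hss : sgn g * sgn g = 1) (u : R)
    (h : g.od * u = u * (1 - g.od)) : sgn g * u * sgn g = -u := by
  have h1 : sgn g * u = -(u * sgn g) := by
    unfold sgn
    linear_combination (norm := noncomm_ring) (-2) * h
  rw [h1, neg_mul, mul_assoc, hss, mul_one]

/-- The square of `X0`. -/
private lemma x0_sq (o d p K : R) (r1 : o * o = o) (r2 : p * o = o * p) (r3 : p * d = d * p)
    (r4 : o * d + d * o = d) (r5 : o * K + K * o = K) (r6 : p - p * p = d * K + K * d)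
    (r7 : d * d = 0) :
    X0 o d p K * X0 o d p K - X0 o d p K = (K * p - p * K) * (1 - 2 * o) + K * K := by
  unfold X0
  linear_combination (norm := noncomm_ring) r1 - r2 * (1 - 2 * o) - 4 * p * r1 + r4 + r5 +
    4 * (p * p) * r1 + 2 * p * r2 * (1 - 2 * o) - r3 * (1 - 2 * o) - 2 * p * r4 - 2 * p * r5 +
    r7 - r6

end

theorem sX0F (hDjF : S_DjF) (hGeF : S_GeF) (hGdO : HPx.S_GdO) (hGdM : HPx.S_GdM) : S_X0F := by
  intro R _ N g d hd hdd F hF p K K' hp hpd hK hK' h h'
  obtain ⟨-, -, -, -, -, j6, j7, -, -, -, j11, -⟩ := hDjF R N g d hd hdd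
  obtain ⟨-, -, -, -, g5, g6, -, -, -, hss⟩ := hGeF R N g
  obtain ⟨hoo, hob⟩ := hGdO R N g
  obtain ⟨-, -, hadd, hneg, hmul⟩ := hGdM R N g
  obtain ⟨hC, hdE, hoE⟩ := hF
  have hsub : ∀ (m : ℤ) u v, g.Hm m u → g.Hm m v → g.Hm m (u - v) := by
    intro m u v hu hv
    rw [sub_eq_add_neg]
    exact hadd m _ _ hu (hneg m _ hv)
  have mul0 : ∀ (j : ℕ) x y, x ∈ F.E j → y ∈ F.E 0 → x * y ∈ F.E j := by
    intro j x y hx hy
    have := F.mul j 0 x y hx hy
    rwa [Nat.add_zero] at this
  have C0 : ∀ u, Dj g d 0 u → u ∈ F.E 0 := fun u hu => hC 0 u (by simpa using hu)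
  have C1 : ∀ u, Dj g d 1 u → u ∈ F.E 1 := fun u hu => hC 1 u (by simpa using hu)
  -- relations
  have r2 : p * g.od = g.od * p := ((hob 0 p hp).1 (by decide)).symm
  have oddD : g.od * d = d * (1 - g.od) := (hob (-1) d hd).2 (by decide)
  have oddK : ∀ c, g.Hm 1 c → g.od * c = c * (1 - g.od) := fun c hc => (hob 1 c hc).2 (by decide)
  have dltK : ∀ c, g.Hm 1 c → dlt g d c = d * c + c * d := by
    intro c hc
    unfold dlt
    rw [x0_odn g hss c (oddK c hc), neg_mul, sub_neg_eq_add]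
  -- `1` and `s` in `E 0`
  have h1E : (1 : R) ∈ F.E 0 := F.one
  have hsE : (1 - 2 * g.od) ∈ F.E 0 := by
    have h2 : (1 - 2 * g.od : R) = 1 - (g.od + g.od) := by rw [two_mul]
    rw [h2]
    exact (F.E 0).sub_mem h1E ((F.E 0).add_mem hoE hoE)
  -- `p` in `E 0`
  have hpE : p ∈ F.E 0 := by
    apply C0
    apply j7 0 p hp
    unfold dlt
    rw [x0_evn g hss p r2.symm, hpd, sub_self]
  -- `K` in `E 0`
  have hKE : K ∈ F.E 0 := by
    apply C0
    refine ⟨g5 0 1 K (by norm_num) (g6 1 K hK), ?_⟩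
    rw [dltK K hK, ← h]
    have h2 : g.Hm 0 (p * p) := by
      have := hmul 0 0 p p hp hp
      rwa [add_zero] at this
    exact g6 0 _ (hsub 0 _ _ hp h2)
  refine ⟨?_, ?_, ?_⟩
  · unfold X0
    exact (F.E 0).add_mem ((F.E 0).add_mem ((F.E 0).add_mem hoE (mul0 0 _ _ hpE hsE)) hdE) hKE
  · have r4 : g.od * d + d * g.od = d := by
      rw [oddD, mul_sub, mul_one, sub_add_cancel]
    have r5 : g.od * K + K * g.od = K := by
      rw [oddK K hK, mul_sub, mul_one, sub_add_cancel]
    rw [x0_sq g.od d p K hoo r2 hpd r4 r5 h hdd]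
    apply (F.E 1).add_mem
    · apply mul0 1 _ _ _ hsE
      apply C1
      have hKp : g.Hm 1 (K * p) := by
        have := hmul 0 1 p K hp hK
        rwa [zero_add] at this
      have hpK : g.Hm 1 (p * K) := by
        have := hmul 1 0 K p hK hp
        rwa [add_zero] at this
      have hH : g.Hm 1 (K * p - p * K) := hsub 1 _ _ hKp hpK
      apply j7 1 _ hH
      rw [dltK _ hH]
      linear_combination (norm := noncomm_ring) (-1) * h * p + p * h + hpd * K + K * hpd
    · apply C1
      apply j6 1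
      exact g6 (1 + 1) _ (hmul 1 1 K K hK hK)
  · have e1 : X0 g.od d p K - X0 g.od d p K' = K - K' := by
      unfold X0
      abel
    rw [e1]
    apply C1
    have hH : g.Hm 1 (K - K') := hsub 1 _ _ hK hK'
    apply j7 1 _ hH
    rw [dltK _ hH]
    linear_combination (norm := noncomm_ring) h' - h

end HKx
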