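import Pool.Agent.Lib.MP_181146_gt.HK.SpecH

/-!
# Project HK: lifting of idempotents along a filtration
-/

set_option autoImplicit false

namespace HKx

open HEp HPx

section

variable {R : Type} [Ring R] {N : ℕ}

private lemma fRFs (k : ℕ) (x : R) :
    fR (k + 1) x = 3 * (fR k x * fR k x) - 2 * (fR k x * fR k x * fR k x) := rfl

private lemma fRFant (F : Flt R N) {i j : ℕ} (h : i ≤ j) : F.E j ≤ F.E i := by
  induction h with
  | refl => exact le_rfl
  | step _ ih => exact (F.anti _).trans ih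

private lemma fRFz (F : Flt R N) {i : ℕ} (h : N ≤ i) {x : R} (hx : x ∈ F.E i) : x = 0 :=
  F.top x (fRFant F h hx)

private lemma fRFl (F : Flt R N) {i : ℕ} {x y : R} (hx : x ∈ F.E 0) (hy : y ∈ F.E i) :
    x * y ∈ F.E i := by
  have h := F.mul 0 i x y hx hy
  rwa [zero_add] at h

private lemma fRFn (F : Flt R N) (n : ℕ) : (n : R) ∈ F.E 0 := by
  have h := (F.E 0).nsmul_mem F.one n
  rwa [nsmul_eq_mul, mul_one] at h

private lemma fRF2 (F : Flt R N) : (2 : R) ∈ F.E 0 := by exact_mod_cast fRFn F 2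

private lemma fRF3 (F : Flt R N) : (3 : R) ∈ F.E 0 := by exact_mod_cast fRFn F 3

private lemma fRF4 (F : Flt R N) : (4 : R) ∈ F.E 0 := by exact_mod_cast fRFn F 4

private lemma fRFi1 (y : R) :
    3 * (y * y) - 2 * (y * y * y) - y = (1 - 2 * y) * (y * y - y) := by
  noncomm_ring

private lemma fRFi2 (y : R) :
    (3 * (y * y) - 2 * (y * y * y)) * (3 * (y * y) - 2 * (y * y * y)) -
      (3 * (y * y) - 2 * (y * y * y)) =
      (4 * (y * y - y) - 3) * ((y * y - y) * (y * y - y)) := by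
  noncomm_ring

private lemma fRFk (F : Flt R N) (x : R) (hx : x ∈ F.E 0) (h : x * x - x ∈ F.E 1) (k : ℕ) :
    fR k x ∈ F.E 0 ∧ fR k x - x ∈ F.E 1 ∧ fR k x * fR k x - fR k x ∈ F.E (2 ^ k) := by
  induction k with
  | zero =>
    refine ⟨hx, ?_, ?_⟩
    · show x - x ∈ F.E 1
      rw [sub_self]
      exact (F.E 1).zero_mem
    · exact h
  | succ k ih =>
    obtain ⟨h0, h1, h2⟩ := ih
    have hm : fR k x * fR k x - fR k x ∈ F.E 1 :=
      fRFant F Nat.one_le_two_pow h2
    have ht : (1 - 2 * fR k x) ∈ F.E 0 :=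
      (F.E 0).sub_mem F.one (fRFl F (fRF2 F) h0)
    have hd : fR (k + 1) x - fR k x ∈ F.E 1 := by
      rw [fRFs, fRFi1]
      exact fRFl F ht hm
    refine ⟨?_, ?_, ?_⟩
    · have e : fR (k + 1) x = (fR (k + 1) x - fR k x) + fR k x := by abel
      rw [e]
      exact (F.E 0).add_mem (F.anti 0 hd) h0
    · have e : fR (k + 1) x - x = (fR (k + 1) x - fR k x) + (fR k x - x) := by abel
      rw [e]
      exact (F.E 1).add_mem hd h1
    · rw [fRFs, fRFi2]
      have hz := F.mul _ _ _ _ h2 h2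
      rw [← two_mul, ← pow_succ'] at hz
      refine fRFl F ?_ hz
      refine (F.E 0).sub_mem (fRFl F (fRF4 F) ?_) (fRF3 F)
      exact fRFant F (Nat.zero_le _) h2

end

theorem sfRF : S_fRF := by
  intro R _ N F x hx h k
  obtain ⟨h0, h1, h2⟩ := fRFk F x hx h k
  exact ⟨h0, h1, h2, fun hk => sub_eq_zero.mp (fRFz F hk h2)⟩

end HKx
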