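import Pool.Agent.Lib.MP_181146_gt.HK.SpecH

/-!
# Project HK: formal properties of the iterated polynomial
-/

set_option autoImplicit false

namespace HKx

open HEp HPx

section

variable {R : Type} [Ring R]

private lemma fRPs (k : ℕ) (x : R) :
    fR (k + 1) x = 3 * (fR k x * fR k x) - 2 * (fR k x * fR k x * fR k x) := rfl

private lemma fRPm {S : Type} [Ring S] (φ : R →+* S) (k : ℕ) (x : R) :
    φ (fR k x) = fR k (φ x) := by
  induction k with
  | zero => rfl
  | succ k ih => rw [fRPs, fRPs, ← ih]; simp only [map_sub, map_mul, map_ofNat]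

private lemma fRPo (k : ℕ) (x : R) : fR k (1 - x) = 1 - fR k x := by
  induction k with
  | zero => rfl
  | succ k ih => rw [fRPs, fRPs, ih]; noncomm_ring

private lemma fRPc (k : ℕ) (u v x : R) (h : v * u = 1) :
    fR k (u * x * v) = u * fR k x * v := by
  induction k with
  | zero => rfl
  | succ k ih =>
    have e : ∀ y z : R, u * y * v * (u * z * v) = u * (y * z) * v := by
      intro y z
      calc u * y * v * (u * z * v) = u * y * (v * u) * z * v := by noncomm_ring
        _ = u * (y * z) * v := by rw [h]; noncomm_ring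
    rw [fRPs, fRPs, ih, e, e]
    noncomm_ring

private lemma fRPi (k : ℕ) (x : R) (h : x * x = x) : fR k x = x := by
  induction k with
  | zero => rfl
  | succ k ih => rw [fRPs, ih, h, h]; noncomm_ring

end

theorem sfRP : S_fRP :=
  ⟨fun _ _ _ _ φ k x => fRPm φ k x, fun _ _ k =>
    ⟨fRPo k, fun u v x h => fRPc k u v x h, fRPi k⟩⟩

end HKx
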